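import Pool.Agent.E8helper91.Samp.Local

/-!
# Local expansion of matroid links (Anari, Liu, Oveis Gharan, Vinzant)

Matroids are given by their independent sets (`IndSys`).  For a function `f` on the bases and a set
`I`, `F f I` is the sum of `f` over the bases containing `I`.  The main statement of this file is
`levels`: a convexity inequality between the second moments on three consecutive levels.
-/

set_option autoImplicit false

namespace Pool.Agent.E8helper91.Samp

open Finset

variable {α : Type*} [Fintype α] [DecidableEq α]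

/-- The independent sets of a matroid. -/
structure IndSys (Ind : Finset α → Prop) : Prop where
  empty : Ind ∅
  subset : ∀ I J, I ⊆ J → Ind J → Ind I
  aug : ∀ I J, Ind I → Ind J → I.card < J.card → ∃ e ∈ J, e ∉ I ∧ Ind (insert e I)

/-- The matroid has rank `r`. -/
structure HasRank (Ind : Finset α → Prop) (r : ℕ) : Prop where
  ex : ∃ B, Ind B ∧ B.card = r
  le : ∀ I, Ind I → I.card ≤ r

open Classical in
/-- The bases. -/
noncomputable def bases (Ind : Finset α → Prop) (r : ℕ) : Finset (Finset α) :=
  univ.filter fun B => Ind B ∧ B.card = r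

theorem mem_bases {Ind : Finset α → Prop} {r : ℕ} {B : Finset α} :
    B ∈ bases Ind r ↔ Ind B ∧ B.card = r := by
  simp [bases]

/-- The sum of `f` over the bases containing `I`. -/
noncomputable def F (Ind : Finset α → Prop) (r : ℕ) (f : Finset α → ℝ) (I : Finset α) : ℝ :=
  ∑ B ∈ (bases Ind r).filter (fun B => I ⊆ B), f B

/-- The number of bases containing `I`. -/
noncomputable def w (Ind : Finset α → Prop) (r : ℕ) (I : Finset α) : ℝ := F Ind r (fun _ => 1) I

section basic

variable {Ind : Finset α → Prop} {r : ℕ}

theorem w_nonneg (I : Finset α) : 0 ≤ w Ind r I :=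
  Finset.sum_nonneg fun _ _ => zero_le_one

/-- every independent set is contained in a basis -/
theorem exists_base (hI : IndSys Ind) (hr : HasRank Ind r) {I : Finset α} (h : Ind I) :
    ∃ B, B ∈ bases Ind r ∧ I ⊆ B := by
  obtain ⟨B0, hB0, hc0⟩ := hr.ex
  have key : ∀ n (I : Finset α), Ind I → r - I.card = n → ∃ B, B ∈ bases Ind r ∧ I ⊆ B := by
    intro n
    induction n with
    | zero =>
      intro I hI' hn
      have := hr.le I hI'
      exact ⟨I, mem_bases.2 ⟨hI', by omega⟩, Subset.rfl⟩
    | succ n ih =>
      intro I hI' hn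
      obtain ⟨e, _, he2, he3⟩ := hI.aug I B0 hI' hB0 (by omega)
      obtain ⟨B, hB1, hB2⟩ := ih (insert e I) he3 (by rw [card_insert_of_notMem he2]; omega)
      exact ⟨B, hB1, (subset_insert e I).trans hB2⟩
  exact key _ I h rfl

theorem w_pos_iff (hI : IndSys Ind) (hr : HasRank Ind r) {I : Finset α} :
    0 < w Ind r I ↔ Ind I := by
  constructor
  · intro h
    by_contra hcon
    have : w Ind r I = 0 := by
      unfold w F
      apply Finset.sum_eq_zero
      intro B hB
      rw [mem_filter, mem_bases] at hB
      exact absurd (hI.subset I B hB.2 hB.1.1) hcon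
    rw [this] at h
    exact lt_irrefl _ h
  · intro h
    obtain ⟨B, hB1, hB2⟩ := exists_base hI hr h
    unfold w F
    exact Finset.sum_pos (fun _ _ => zero_lt_one) ⟨B, mem_filter.2 ⟨hB1, hB2⟩⟩

theorem w_eq_zero_iff (hI : IndSys Ind) (hr : HasRank Ind r) {I : Finset α} :
    w Ind r I = 0 ↔ ¬ Ind I := by
  rw [← w_pos_iff hI hr]
  constructor
  · intro h; rw [h]; exact lt_irrefl _
  · intro h; exact le_antisymm (not_lt.1 h) (w_nonneg I)

theorem F_eq_zero (hI : IndSys Ind) (f : Finset α → ℝ) {I : Finset α} (h : ¬ Ind I) :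
    F Ind r f I = 0 := by
  unfold F
  apply Finset.sum_eq_zero
  intro B hB
  rw [mem_filter, mem_bases] at hB
  exact absurd (hI.subset I B hB.2 hB.1.1) h

/-- the basic double counting -/
theorem F_count (f : Finset α → ℝ) (I : Finset α) :
    ∑ e ∈ univ.filter (fun e => e ∉ I), F Ind r f (insert e I) =
      ((r : ℝ) - I.card) * F Ind r f I := by
  classical
  unfold F
  have h1 : ∀ e, ∑ B ∈ (bases Ind r).filter (fun B => insert e I ⊆ B), f B =
      ∑ B ∈ (bases Ind r).filter (fun B => I ⊆ B), if e ∈ B then f B else 0 := by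
    intro e
    rw [← Finset.sum_filter, Finset.filter_filter]
    refine Finset.sum_congr ?_ fun _ _ => rfl
    ext B
    simp only [mem_filter, insert_subset_iff]
    tauto
  simp only [h1]
  rw [Finset.sum_comm, Finset.mul_sum]
  refine Finset.sum_congr rfl fun B hB => ?_
  rw [mem_filter, mem_bases] at hB
  rw [← Finset.sum_filter, Finset.sum_const, nsmul_eq_mul]
  congr 1
  have h2 : (univ.filter (fun e => e ∉ I)).filter (fun e => e ∈ B) = B \ I := by
    ext e; simp only [mem_filter, mem_univ, true_and, mem_sdiff]; tauto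
  rw [h2, card_sdiff_of_subset hB.2, hB.1.2, Nat.cast_sub]
  rw [← hB.1.2]; exact card_le_card hB.2

/-- sums over pairs (a set and a further element) -/
theorem sum_levels (j : ℕ) (φ : Finset α → ℝ) :
    ∑ J ∈ univ.filter (fun J : Finset α => J.card = j), ∑ e ∈ univ.filter (fun e => e ∉ J),
      φ (insert e J) = (j + 1 : ℝ) * ∑ I ∈ univ.filter (fun I : Finset α => I.card = j + 1), φ I := by
  classical
  have h1 : ∀ I ∈ univ.filter (fun I : Finset α => I.card = j + 1), (j + 1 : ℝ) * φ I =
      ∑ e ∈ I, φ I := by
    intro I hI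
    rw [Finset.sum_const, nsmul_eq_mul, (mem_filter.1 hI).2]; push_cast; rfl
  rw [Finset.mul_sum, Finset.sum_congr rfl h1, Finset.sum_sigma', Finset.sum_sigma']
  refine Finset.sum_bij' (fun p _ => ⟨insert p.2 p.1, p.2⟩) (fun p _ => ⟨p.1.erase p.2, p.2⟩)
    ?_ ?_ ?_ ?_ ?_
  · rintro ⟨J, e⟩ h
    simp only [mem_sigma, mem_filter, mem_univ, true_and] at h ⊢
    exact ⟨by rw [card_insert_of_notMem h.2, h.1], mem_insert_self _ _⟩
  · rintro ⟨I, e⟩ h
    simp only [mem_sigma, mem_filter, mem_univ, true_and] at h ⊢
    exact ⟨by rw [card_erase_of_mem h.2, h.1]; rfl, notMem_erase _ _⟩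
  · rintro ⟨J, e⟩ h
    simp only [mem_sigma, mem_filter, mem_univ, true_and] at h ⊢
    rw [erase_insert h.2]
  · rintro ⟨I, e⟩ h
    simp only [mem_sigma, mem_filter, mem_univ, true_and] at h ⊢
    rw [insert_erase h.2]
  · rintro ⟨J, e⟩ _
    rfl

end basic

/-! ### the link graphs -/

/-- The weighted graph on the elements outside `J`. -/
noncomputable def A (Ind : Finset α → Prop) (r : ℕ) (J : Finset α) (e f : α) : ℝ :=
  if e = f ∨ e ∈ J ∨ f ∈ J then 0 else w Ind r (insert e (insert f J))

section link

variable {Ind : Finset α → Prop} {r : ℕ}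

theorem A_symm (J : Finset α) (e f : α) : A Ind r J e f = A Ind r J f e := by
  unfold A
  rw [Finset.insert_comm e f J]
  by_cases h : e = f ∨ e ∈ J ∨ f ∈ J
  · rw [if_pos h, if_pos (by
      rcases h with h | h | h
      exacts [Or.inl h.symm, Or.inr (Or.inr h), Or.inr (Or.inl h)])]
  · rw [if_neg h, if_neg (by
      intro h'; apply h
      rcases h' with h | h | h
      exacts [Or.inl h.symm, Or.inr (Or.inr h), Or.inr (Or.inl h)])]

theorem A_nonneg (J : Finset α) (e f : α) : 0 ≤ A Ind r J e f := by
  unfold A
  split_ifs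
  · exact le_rfl
  · exact w_nonneg _

theorem A_of_mem {J : Finset α} {e : α} (he : e ∈ J) (f : α) : A Ind r J e f = 0 := by
  unfold A; rw [if_pos (by tauto)]

/-- sums over the second argument -/
theorem sum_A_mul (J : Finset α) {e : α} (he : e ∉ J) (y : α → ℝ) :
    ∑ f, A Ind r J e f * y f =
      ∑ f ∈ univ.filter (fun f => f ∉ insert e J), w Ind r (insert f (insert e J)) * y f := by
  classical
  rw [Finset.sum_filter]
  refine Finset.sum_congr rfl fun f _ => ?_
  unfold A
  by_cases h : f ∈ insert e J
  · rw [if_neg (not_not.2 h)]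
    rw [mem_insert] at h
    rw [if_pos (by rcases h with h | h; exacts [Or.inl h.symm, Or.inr (Or.inr h)]), zero_mul]
  · have h0 := h
    rw [mem_insert, not_or] at h
    rw [if_neg (by rintro (h' | h' | h'); exacts [h.1 h'.symm, he h', h.2 h']), if_pos h0,
      Finset.insert_comm]

theorem deg_eq (J : Finset α) {e : α} (he : e ∉ J) :
    ∑ f, A Ind r J e f = ((r : ℝ) - J.card - 1) * w Ind r (insert e J) := by
  have h := sum_A_mul (Ind := Ind) (r := r) J he (fun _ => 1)
  simp only [mul_one] at h
  rw [h]
  have h2 := F_count (Ind := Ind) (r := r) (fun _ => 1) (insert e J)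
  rw [card_insert_of_notMem he] at h2
  unfold w
  rw [h2]
  push_cast
  ring

theorem deg_mem {J : Finset α} {e : α} (he : e ∈ J) : ∑ f, A Ind r J e f = 0 :=
  Finset.sum_eq_zero fun f _ => A_of_mem he f

end link

/-! ### the base of the induction -/

/-- the form of a complete multipartite graph -/
theorem qb_multipartite (N : Finset α) (R : α → α → Prop) [DecidableRel R]
    (hdom : ∀ e f, R e f → e ∈ N) (hrefl : ∀ e ∈ N, R e e) (hsymm : ∀ e f, R e f → R f e)
    (htrans : ∀ e f g, R e f → R f g → R e g) :
    QB (fun e f => if e ∈ N ∧ f ∈ N ∧ ¬ R e f then (1 : ℝ) else 0) := by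
  classical
  set Q : α → α → ℝ := fun e f => if R e f then 1 else 0 with hQ
  set u : α → ℝ := fun e => if e ∈ N then 1 else 0 with hu
  have hA : ∀ e f, (if e ∈ N ∧ f ∈ N ∧ ¬ R e f then (1 : ℝ) else 0) = u e * u f - Q e f := by
    intro e f
    simp only [hQ, hu]
    by_cases h1 : R e f
    · have h2 := hdom e f h1
      have h3 := hdom f e (hsymm e f h1)
      simp [h1, h2, h3]
    · by_cases h2 : e ∈ N
      · by_cases h3 : f ∈ N
        · simp [h1, h2, h3]
        · simp [h1, h3]
      · simp [h1, h2]
  have hQsymm : ∀ e f, Q e f = Q f e := by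
    intro e f
    simp only [hQ]
    by_cases h : R e f
    · rw [if_pos h, if_pos (hsymm _ _ h)]
    · rw [if_neg h, if_neg fun h' => h (hsymm _ _ h')]
  have hQnn : ∀ e f, 0 ≤ Q e f := by
    intro e f; simp only [hQ]; split_ifs <;> norm_num
  refine qb_of_mean ?_ ?_ ?_
  · intro e f; rw [hA, hA, hQsymm]; ring
  · intro e f; split_ifs <;> norm_num
  intro x hx
  simp only [hA] at hx ⊢
  set n : ℝ := (N.card : ℝ) with hn
  set S := ∑ e, u e * x e with hS
  set T : α → ℝ := fun e => ∑ f, Q e f * x f with hT
  set c : α → ℝ := fun e => ∑ f, Q e f with hc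
  have hun : ∑ e, u e = n := by simp [hu, hn]
  -- the form
  have h1 : ∑ e, ∑ f, (u e * u f - Q e f) * x e * x f = S ^ 2 - ∑ e, x e * T e := by
    have e1 : ∀ e f, (u e * u f - Q e f) * x e * x f = (u e * x e) * (u f * x f) -
        x e * (Q e f * x f) := by intro e f; ring
    simp only [e1, Finset.sum_sub_distrib, ← Finset.mul_sum, ← Finset.sum_mul]
    rw [← hS]; ring
  have h2 : n * S = ∑ e, T e := by
    have e1 : ∀ e f, (u e * u f - Q e f) * x e = (u e * x e) * u f - Q e f * x e := by
      intro e f; ring
    simp only [e1, Finset.sum_sub_distrib, ← Finset.mul_sum] at hx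
    rw [← Finset.sum_mul, hun, ← hS] at hx
    have e2 : ∑ e, ∑ f, Q e f * x e = ∑ e, T e := by
      rw [hT]
      simp only
      rw [Finset.sum_comm]
      refine Finset.sum_congr rfl fun e _ => Finset.sum_congr rfl fun f _ => ?_
      rw [hQsymm]
    rw [e2] at hx
    linarith
  -- classes
  have hcrel : ∀ e f, R e f → c e = c f := by
    intro e f hef
    refine Finset.sum_congr rfl fun g _ => ?_
    simp only [hQ]
    by_cases h : R e g
    · rw [if_pos h, if_pos (htrans _ _ _ (hsymm _ _ hef) h)]
    · rw [if_neg h, if_neg fun h' => h (htrans _ _ _ hef h')]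
  have hcpos : ∀ e ∈ N, 0 < c e := by
    intro e he
    have : Q e e ≤ c e := Finset.single_le_sum (fun f _ => hQnn e f) (Finset.mem_univ e)
    have h3 : Q e e = 1 := by simp only [hQ]; rw [if_pos (hrefl e he)]
    linarith
  have hcle : ∀ e, c e ≤ n := by
    intro e
    rw [← hun]
    refine Finset.sum_le_sum fun f _ => ?_
    simp only [hQ, hu]
    by_cases h : R e f
    · rw [if_pos h, if_pos (hdom f e (hsymm _ _ h))]
    · rw [if_neg h]; split_ifs <;> norm_num
  -- the identity
  have h3 : ∑ e, x e * T e = ∑ e ∈ N, T e ^ 2 / c e := by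
    have e1 : ∀ e, T e ^ 2 / c e = ∑ f, ∑ g, (Q e f * Q e g / c e) * (x f * x g) := by
      intro e
      rw [hT, sq]
      simp only
      rw [Finset.sum_mul_sum, Finset.sum_div]
      refine Finset.sum_congr rfl fun f _ => ?_
      rw [Finset.sum_div]
      refine Finset.sum_congr rfl fun g _ => ?_
      ring
    simp only [e1]
    rw [Finset.sum_comm]
    refine Finset.sum_congr rfl fun f _ => ?_
    rw [Finset.sum_comm, hT, Finset.mul_sum]
    refine Finset.sum_congr rfl fun g _ => ?_
    rw [← Finset.sum_mul]
    have e2 : ∑ e ∈ N, Q e f * Q e g / c e = Q f g := by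
      by_cases hfg : R f g
      · have hf := hdom f g hfg
        have e3 : ∀ e ∈ N, Q e f * Q e g / c e = Q f e / c f := by
          intro e _
          simp only [hQ]
          by_cases h : R e f
          · rw [if_pos h, if_pos (htrans _ _ _ h hfg), if_pos (hsymm _ _ h), hcrel e f h]
            norm_num
          · rw [if_neg h, if_neg fun h' => h (hsymm _ _ h')]
            simp
        rw [Finset.sum_congr rfl e3, ← Finset.sum_div]
        have e4 : ∑ e ∈ N, Q f e = c f := by
          rw [hc]
          refine Finset.sum_subset (Finset.subset_univ N) fun e _ he => ?_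
          simp only [hQ]
          rw [if_neg fun h' => he (hdom e f (hsymm _ _ h'))]
        rw [e4, div_self (hcpos f hf).ne']
        simp only [hQ]; rw [if_pos hfg]
      · have e3 : ∀ e ∈ N, Q e f * Q e g / c e = 0 := by
          intro e _
          simp only [hQ]
          by_cases h : R e f
          · rw [if_neg fun h' => hfg (htrans _ _ _ (hsymm _ _ h) h')]; simp
          · rw [if_neg h]; simp
        rw [Finset.sum_congr rfl e3]
        simp only [hQ]; rw [if_neg hfg]; simp
    rw [e2]; ring
  have hTN : ∀ e, e ∉ N → T e = 0 := by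
    intro e he
    refine Finset.sum_eq_zero fun f _ => ?_
    simp only [hQ]
    rw [if_neg fun h' => he (hdom e f h'), zero_mul]
  have h4 : ∑ e, T e = ∑ e ∈ N, T e :=
    (Finset.sum_subset (Finset.subset_univ N) fun e _ he => hTN e he).symm
  rw [h1]
  rcases Finset.eq_empty_or_nonempty N with hN | hN
  · have : S = 0 := by simp [hS, hu, hN]
    rw [this, h3, hN]; simp
  · have hnpos : 0 < n := by rw [hn]; exact_mod_cast hN.card_pos
    have h5 : (∑ e ∈ N, T e) ^ 2 ≤ n * ∑ e ∈ N, T e ^ 2 := by
      have := sq_sum_le_card_mul_sum_sq (s := N) (f := T)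
      exact this
    have h6 : ∑ e ∈ N, T e ^ 2 ≤ n * ∑ e, x e * T e := by
      rw [h3, Finset.mul_sum]
      refine Finset.sum_le_sum fun e he => ?_
      have hce := hcpos e he
      have : T e ^ 2 = c e * (T e ^ 2 / c e) := by field_simp
      calc T e ^ 2 = c e * (T e ^ 2 / c e) := this
        _ ≤ n * (T e ^ 2 / c e) := mul_le_mul_of_nonneg_right (hcle e) (by positivity)
    rw [← h4, ← h2] at h5
    have h7 : n ^ 2 * S ^ 2 ≤ n ^ 2 * ∑ e, x e * T e := by
      calc n ^ 2 * S ^ 2 = (n * S) ^ 2 := by ring
        _ ≤ n * ∑ e ∈ N, T e ^ 2 := h5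
        _ ≤ n * (n * ∑ e, x e * T e) := mul_le_mul_of_nonneg_left h6 hnpos.le
        _ = _ := by ring
    have h8 := le_of_mul_le_mul_left h7 (by positivity : (0 : ℝ) < n ^ 2)
    linarith

/-! ### the induction -/

section main

variable {Ind : Finset α → Prop} {r : ℕ}

theorem w_card_eq {I : Finset α} (hI : Ind I) (hc : I.card = r) (f : Finset α → ℝ) :
    F Ind r f I = f I := by
  unfold F
  have : (bases Ind r).filter (fun B => I ⊆ B) = {I} := by
    ext B
    rw [mem_filter, mem_bases, mem_singleton]
    constructor
    · rintro ⟨⟨_, h2⟩, h3⟩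
      exact (eq_of_subset_of_card_le h3 (by rw [h2, hc])).symm
    · rintro rfl
      exact ⟨⟨hI, hc⟩, Subset.rfl⟩
  rw [this, sum_singleton]

theorem qb_base (hI : IndSys Ind) (hr : HasRank Ind r) {J : Finset α} (hJ : J.card + 2 = r) :
    QB (A Ind r J) := by
  classical
  set N : Finset α := univ.filter (fun e => e ∉ J ∧ Ind (insert e J)) with hN
  set R : α → α → Prop := fun e f => e ∈ N ∧ f ∈ N ∧ (e = f ∨ ¬ Ind (insert e (insert f J)))
    with hR
  have hmem : ∀ e, e ∈ N ↔ e ∉ J ∧ Ind (insert e J) := by intro e; simp [hN]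
  have h := qb_multipartite N R (fun e f h => h.1) (fun e he => ⟨he, he, Or.inl rfl⟩)
    (fun e f h => ⟨h.2.1, h.1, by
      rcases h.2.2 with h' | h'
      · exact Or.inl h'.symm
      · right; rwa [Finset.insert_comm]⟩)
    (by
      rintro e f g ⟨he, hf, hef⟩ ⟨_, hg, hfg⟩
      refine ⟨he, hg, ?_⟩
      by_contra hcon
      push Not at hcon
      obtain ⟨hne, hind⟩ := hcon
      rw [hmem] at he hf hg
      have hcard : (insert e (insert g J)).card = J.card + 2 := by
        rw [card_insert_of_notMem, card_insert_of_notMem hg.1]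
        rw [mem_insert]; rintro (h' | h'); exacts [hne h', he.1 h']
      obtain ⟨a, ha1, ha2, ha3⟩ := hI.aug (insert f J) (insert e (insert g J)) hf.2 hind
        (by rw [hcard, card_insert_of_notMem hf.1]; omega)
      rw [mem_insert, not_or] at ha2
      rw [mem_insert, mem_insert] at ha1
      rcases ha1 with rfl | rfl | ha1
      · rcases hef with h' | h'
        · exact ha2.1 h'
        · exact h' ha3
      · rcases hfg with h' | h'
        · exact ha2.1 h'.symm
        · exact h' (by rw [Finset.insert_comm]; exact ha3)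
      · exact ha2.2 ha1)
  have hA : A Ind r J = fun e f => if e ∈ N ∧ f ∈ N ∧ ¬ R e f then (1 : ℝ) else 0 := by
    funext e f
    unfold A
    by_cases h1 : e = f ∨ e ∈ J ∨ f ∈ J
    · rw [if_pos h1, if_neg]
      rintro ⟨h2, h3, h4⟩
      rcases h1 with h1 | h1 | h1
      · exact h4 ⟨h2, h3, Or.inl h1⟩
      · exact ((hmem e).1 h2).1 h1
      · exact ((hmem f).1 h3).1 h1
    · rw [if_neg h1]
      push Not at h1
      obtain ⟨hne, he, hf⟩ := h1
      have hcard : (insert e (insert f J)).card = r := by
        rw [card_insert_of_notMem, card_insert_of_notMem hf]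
        · omega
        rw [mem_insert]; rintro (h' | h'); exacts [hne h', he h']
      by_cases hind : Ind (insert e (insert f J))
      · rw [if_pos]
        · exact w_card_eq hind hcard _
        · have h2 : e ∈ N := (hmem e).2 ⟨he, hI.subset _ _ (by
            intro a ha; rw [mem_insert] at ha; rw [mem_insert, mem_insert]; tauto) hind⟩
          have h3 : f ∈ N := (hmem f).2 ⟨hf, hI.subset _ _ (subset_insert _ _) hind⟩
          exact ⟨h2, h3, fun h4 => by
            rcases h4.2.2 with h' | h'
            exacts [hne h', h' hind]⟩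
      · rw [if_neg, (w_eq_zero_iff hI hr).2 hind]
        rintro ⟨h2, h3, h4⟩
        exact h4 ⟨h2, h3, Or.inr hind⟩
  rw [hA]
  exact h

/-- The links of a matroid: the induction step. -/
theorem qb_step (hI : IndSys Ind) (hr : HasRank Ind r) {J : Finset α} (hJ : J.card + 3 ≤ r)
    (ih : ∀ e, e ∉ J → QB (A Ind r (insert e J))) : QB (A Ind r J) := by
  classical
  set q : ℝ := (r : ℝ) - J.card - 2 with hq
  have hqpos : 0 < q := by
    have : (J.card : ℝ) + 3 ≤ r := by exact_mod_cast hJ
    rw [hq]; linarith
  set d : α → ℝ := fun e => ∑ f, A Ind r J e f with hd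
  have hd0 : ∀ e, 0 ≤ d e := fun e => Finset.sum_nonneg fun f _ => A_nonneg J e f
  have hdpos : ∀ e, 0 < d e → e ∉ J ∧ Ind (insert e J) := by
    intro e he
    have h1 : e ∉ J := fun h' => by
      have := deg_mem (Ind := Ind) (r := r) h'
      rw [hd] at he; simp only at he; rw [this] at he; exact lt_irrefl _ he
    refine ⟨h1, ?_⟩
    rw [← w_pos_iff hI hr]
    by_contra hcon
    have h2 : w Ind r (insert e J) = 0 := le_antisymm (not_lt.1 hcon) (w_nonneg _)
    have h3 : d e = 0 := by rw [hd]; simp only; rw [deg_eq J h1, h2, mul_zero]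
    rw [h3] at he; exact lt_irrefl _ he
  have hApos : ∀ e f, e ≠ f → e ∉ J → f ∉ J → Ind (insert e (insert f J)) → 0 < A Ind r J e f := by
    intro e f h1 h2 h3 h4
    unfold A
    rw [if_neg (by tauto), w_pos_iff hI hr]
    exact h4
  refine qb_of_step (A_symm J) (A_nonneg J) d (fun e => rfl) ?_ ?_
  · intro e f he hf
    obtain ⟨he1, he2⟩ := hdpos e he
    obtain ⟨hf1, hf2⟩ := hdpos f hf
    by_cases hef : e = f
    · exact Or.inl hef
    right
    by_cases hind : Ind (insert e (insert f J))
    · exact Or.inl (hApos e f hef he1 hf1 hind)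
    right
    obtain ⟨B, hB, hBe⟩ := exists_base hI hr he2
    rw [mem_bases] at hB
    obtain ⟨g, _, hg2, hg3⟩ := hI.aug (insert e J) B he2 hB.1
      (by rw [card_insert_of_notMem he1, hB.2]; omega)
    rw [mem_insert, not_or] at hg2
    obtain ⟨a, ha1, ha2, ha3⟩ := hI.aug (insert f J) (insert g (insert e J)) hf2 hg3 (by
      rw [card_insert_of_notMem hf1, card_insert_of_notMem, card_insert_of_notMem he1]
      · omega
      · rw [mem_insert]; tauto)
    rw [mem_insert, not_or] at ha2
    rw [mem_insert, mem_insert] at ha1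
    rcases ha1 with rfl | rfl | ha1
    · exact ⟨a, hApos e a (Ne.symm hg2.1) he1 hg2.2 (by rw [Finset.insert_comm]; exact hg3),
        hApos a f ha2.1 hg2.2 hf1 ha3⟩
    · exact absurd ha3 hind
    · exact absurd ha1 ha2.2
  · intro x
    -- averaging over the links of the elements
    have h1 : q * ∑ e, ∑ f, A Ind r J e f * x e * x f =
        ∑ a ∈ univ.filter (fun a => a ∉ J), ∑ e, ∑ f, A Ind r (insert a J) e f * x e * x f := by
      have e0 : ∑ a ∈ univ.filter (fun a => a ∉ J), ∑ e, ∑ f,
          A Ind r (insert a J) e f * x e * x f =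
          ∑ e, ∑ f, ∑ a ∈ univ.filter (fun a => a ∉ J),
            A Ind r (insert a J) e f * x e * x f := by
        rw [Finset.sum_comm]
        refine Finset.sum_congr rfl fun e _ => ?_
        rw [Finset.sum_comm]
      rw [e0, Finset.mul_sum]
      refine Finset.sum_congr rfl fun e _ => ?_
      rw [Finset.mul_sum]
      refine Finset.sum_congr rfl fun f _ => ?_
      rw [← Finset.sum_mul, ← Finset.sum_mul]
      have e1 : ∑ a ∈ univ.filter (fun a => a ∉ J), A Ind r (insert a J) e f =
          q * A Ind r J e f := by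
        unfold A
        by_cases h2 : e = f ∨ e ∈ J ∨ f ∈ J
        · rw [if_pos h2, mul_zero]
          refine Finset.sum_eq_zero fun a _ => ?_
          rw [if_pos]
          rcases h2 with h2 | h2 | h2
          · exact Or.inl h2
          · exact Or.inr (Or.inl (mem_insert_of_mem h2))
          · exact Or.inr (Or.inr (mem_insert_of_mem h2))
        · rw [if_neg h2]
          push Not at h2
          obtain ⟨hne, he, hf⟩ := h2
          have hcard : (insert e (insert f J)).card = J.card + 2 := by
            rw [card_insert_of_notMem, card_insert_of_notMem hf]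
            rw [mem_insert]; rintro (h' | h'); exacts [hne h', he h']
          have e2 := F_count (Ind := Ind) (r := r) (fun _ => 1) (insert e (insert f J))
          rw [hcard] at e2
          have e3 : q * w Ind r (insert e (insert f J)) =
              ((r : ℝ) - ((J.card + 2 : ℕ) : ℝ)) * F Ind r (fun _ => 1) (insert e (insert f J)) := by
            rw [hq]; push_cast; unfold w; ring
          rw [e3, ← e2, Finset.sum_filter, Finset.sum_filter]
          refine Finset.sum_congr rfl fun a _ => ?_
          by_cases ha : a ∈ J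
          · rw [if_neg (by simpa using ha), if_neg (by simp [ha])]
          · rw [if_pos ha]
            by_cases hae : a = e
            · rw [if_pos (by subst hae; simp), if_neg (by simp [hae])]
            · by_cases haf : a = f
              · rw [if_pos (by subst haf; simp), if_neg (by simp [haf])]
              · rw [if_neg, if_pos (by simp [ha, hae, haf])]
                · unfold w
                  congr 1
                  rw [Finset.insert_comm a e, Finset.insert_comm a f]
                · rw [mem_insert, mem_insert]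
                  rintro (h' | (h' | h') | (h' | h'))
                  exacts [hne h', hae h'.symm, he h', haf h'.symm, hf h']
      rw [e1]; ring
    have h2 : ∀ a ∈ univ.filter (fun a => a ∉ J),
        ∑ e, ∑ f, A Ind r (insert a J) e f * x e * x f ≤
          q * ((∑ f, A Ind r J a f * x f) ^ 2 / d a) := by
      intro a ha
      have ha' : a ∉ J := (mem_filter.1 ha).2
      have h3 := ih a ha' x
      have h4 : ∀ e, ∑ f, A Ind r (insert a J) e f = q * A Ind r J a e := by
        intro e
        by_cases he : e ∈ insert a J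
        · rw [deg_mem he]
          unfold A
          rw [if_pos, mul_zero]
          rw [mem_insert] at he
          rcases he with he | he
          exacts [Or.inl he.symm, Or.inr (Or.inr he)]
        · rw [deg_eq _ he, card_insert_of_notMem ha']
          rw [mem_insert, not_or] at he
          unfold A
          rw [if_neg (by rintro (h' | h' | h'); exacts [he.1 h'.symm, ha' h', he.2 h']), hq,
            Finset.insert_comm]
          push_cast; ring
      have h5 : ∑ e, ∑ f, A Ind r (insert a J) e f = q * d a := by
        simp only [h4]; rw [← Finset.mul_sum]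
      have h6 : ∑ e, ∑ f, A Ind r (insert a J) e f * x e = q * ∑ f, A Ind r J a f * x f := by
        simp only [← Finset.sum_mul, h4]
        rw [Finset.mul_sum]
        exact Finset.sum_congr rfl fun e _ => by ring
      rw [h5, h6] at h3
      rcases (hd0 a).eq_or_lt with h0 | hpos
      · have h7 : ∀ e f, A Ind r (insert a J) e f = 0 := by
          intro e f
          rw [← h0, mul_zero] at h5
          have := (Finset.sum_eq_zero_iff_of_nonneg
            (fun e _ => Finset.sum_nonneg fun f _ => A_nonneg _ e f)).1 h5 e (mem_univ e)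
          exact (Finset.sum_eq_zero_iff_of_nonneg (fun f _ => A_nonneg _ e f)).1 this f
            (mem_univ f)
        rw [← h0]
        simp [h7]
      · have h8 : (∑ e, ∑ f, A Ind r (insert a J) e f * x e * x f) * (q * d a) ≤
            (q * ((∑ f, A Ind r J a f * x f) ^ 2 / d a)) * (q * d a) := by
          refine h3.trans (le_of_eq ?_)
          field_simp
        exact le_of_mul_le_mul_right h8 (by positivity)
    have h9 : q * ∑ e, ∑ f, A Ind r J e f * x e * x f ≤
        q * ∑ e, (∑ f, A Ind r J e f * x f) ^ 2 / d e := by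
      rw [h1]
      refine (Finset.sum_le_sum h2).trans ?_
      rw [← Finset.mul_sum]
      refine mul_le_mul_of_nonneg_left ?_ hqpos.le
      exact Finset.sum_le_sum_of_subset_of_nonneg (Finset.subset_univ _) fun e _ _ =>
        div_nonneg (sq_nonneg _) (hd0 e)
    exact le_of_mul_le_mul_left h9 hqpos

/-- **Local expansion of the links of a matroid.** -/
theorem qb_link (hI : IndSys Ind) (hr : HasRank Ind r) :
    ∀ (n : ℕ) (J : Finset α), J.card + 2 + n = r → QB (A Ind r J) := by
  intro n
  induction n with
  | zero => intro J hJ; exact qb_base hI hr (by omega)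
  | succ n ih =>
    intro J hJ
    refine qb_step hI hr (by omega) fun e he => ih _ ?_
    rw [card_insert_of_notMem he]; omega

end main

end Pool.Agent.E8helper91.Samp
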