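import Pool.Agent.E8helper91.Samp.Levels

/-!
# The lazy exchange chain on the bases of a matroid, and its convergence in the uniform sense
-/

set_option autoImplicit false

namespace Pool.Agent.E8helper91.Samp

open Finset

variable {α : Type*} [Fintype α] [DecidableEq α]

section mvlemmas

variable {Ind : Finset α → Prop} {r : ℕ}

/-- validity of a move -/
def valid (Ind : Finset α → Prop) (r : ℕ) (B : Finset α) (i j : α) : Prop :=
  i ∈ B ∧ j ∉ B ∧ insert j (B.erase i) ∈ bases Ind r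

theorem mv_valid {B : Finset α} {i j : α} (h : valid Ind r B i j) :
    mv Ind r B i j = insert j (B.erase i) := by
  unfold mv; exact if_pos h

theorem mv_invalid {B : Finset α} {i j : α} (h : ¬ valid Ind r B i j) : mv Ind r B i j = B := by
  unfold mv; exact if_neg h

theorem mv_mem {B : Finset α} (hB : B ∈ bases Ind r) (i j : α) : mv Ind r B i j ∈ bases Ind r := by
  by_cases h : valid Ind r B i j
  · rw [mv_valid h]; exact h.2.2
  · rw [mv_invalid h]; exact hB

theorem back {B : Finset α} {i j : α} (h : valid Ind r B i j) :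
    insert i ((insert j (B.erase i)).erase j) = B := by
  have hj : j ∉ B.erase i := fun h' => h.2.1 (mem_of_mem_erase h')
  rw [erase_insert hj, insert_erase h.1]

theorem valid_back {B : Finset α} (hB : B ∈ bases Ind r) {i j : α} (h : valid Ind r B i j) :
    valid Ind r (mv Ind r B i j) j i := by
  rw [mv_valid h]
  refine ⟨mem_insert_self _ _, ?_, ?_⟩
  · rw [mem_insert]
    rintro (h' | h')
    · exact h.2.1 (h' ▸ h.1)
    · exact notMem_erase _ _ h'
  · rw [back h]; exact hB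

theorem mv_back {B : Finset α} (hB : B ∈ bases Ind r) {i j : α} (h : valid Ind r B i j) :
    mv Ind r (mv Ind r B i j) j i = B := by
  rw [mv_valid (valid_back hB h), mv_valid h, back h]

/-- the exchange symmetry -/
theorem sum_mv_symm (G : Finset α → Finset α → ℝ) :
    ∑ B ∈ bases Ind r, ∑ i, ∑ j, G B (mv Ind r B i j) =
      ∑ B ∈ bases Ind r, ∑ i, ∑ j, G (mv Ind r B i j) B := by
  classical
  have key : ∀ H : Finset α → Finset α → ℝ, ∑ B ∈ bases Ind r, ∑ i, ∑ j, H B (mv Ind r B i j) =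
      ∑ p ∈ bases Ind r ×ˢ ((univ : Finset α) ×ˢ (univ : Finset α)),
        H p.1 (mv Ind r p.1 p.2.1 p.2.2) := by
    intro H
    rw [Finset.sum_product]
    refine Finset.sum_congr rfl fun B _ => ?_
    rw [Finset.sum_product]
  rw [key G, key (fun a b => G b a)]
  refine Finset.sum_bij' (fun p _ => if valid Ind r p.1 p.2.1 p.2.2 then
      (mv Ind r p.1 p.2.1 p.2.2, p.2.2, p.2.1) else p)
    (fun p _ => if valid Ind r p.1 p.2.1 p.2.2 then
      (mv Ind r p.1 p.2.1 p.2.2, p.2.2, p.2.1) else p) ?_ ?_ ?_ ?_ ?_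
  · rintro ⟨B, i, j⟩ h
    simp only [mem_product, mem_univ, and_true] at h ⊢
    split_ifs with hv
    · exact mv_mem h i j
    · exact h
  · rintro ⟨B, i, j⟩ h
    simp only [mem_product, mem_univ, and_true] at h ⊢
    split_ifs with hv
    · exact mv_mem h i j
    · exact h
  · rintro ⟨B, i, j⟩ h
    simp only [mem_product, mem_univ, and_true] at h
    by_cases hv : valid Ind r B i j
    · simp only [hv, if_true, valid_back h hv, mv_back h hv]
    · simp only [hv, if_false]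
  · rintro ⟨B, i, j⟩ h
    simp only [mem_product, mem_univ, and_true] at h
    by_cases hv : valid Ind r B i j
    · simp only [hv, if_true, valid_back h hv, mv_back h hv]
    · simp only [hv, if_false]
  · rintro ⟨B, i, j⟩ h
    simp only [mem_product, mem_univ, and_true] at h
    by_cases hv : valid Ind r B i j
    · simp only [hv, if_true, mv_back h hv]
    · simp only [hv, if_false, mv_invalid hv]

end mvlemmas

/-- One step of the exchange chain: `(i, j)` has probability `q` for all `i`, `j`. -/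
noncomputable def Q' (Ind : Finset α → Prop) (r : ℕ) (q : ℝ) (g : Finset α → ℝ) (B : Finset α) :
    ℝ := g B + q * ∑ i, ∑ j, (g (mv Ind r B i j) - g B)

/-- One step of the lazy exchange chain. -/
noncomputable def Q (Ind : Finset α → Prop) (r : ℕ) (q : ℝ) (g : Finset α → ℝ) (B : Finset α) :
    ℝ := (g B + Q' Ind r q g B) / 2

section chain

variable {Ind : Finset α → Prop} {r : ℕ} {q : ℝ}

theorem sum_Q' (g : Finset α → ℝ) :
    ∑ B ∈ bases Ind r, Q' Ind r q g B = ∑ B ∈ bases Ind r, g B := by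
  unfold Q'
  rw [Finset.sum_add_distrib, ← Finset.mul_sum]
  have h1 := sum_mv_symm (Ind := Ind) (r := r) (fun a _ => g a)
  have h2 : ∑ B ∈ bases Ind r, ∑ i, ∑ j, (g (mv Ind r B i j) - g B) = 0 := by
    simp only [Finset.sum_sub_distrib]
    linarith
  rw [h2]; ring

theorem inner_Q' (g : Finset α → ℝ) :
    ∑ B ∈ bases Ind r, g B * Q' Ind r q g B = ∑ B ∈ bases Ind r, g B ^ 2 -
      q * ((1 / 2) * ∑ B ∈ bases Ind r, ∑ i, ∑ j, (g B - g (mv Ind r B i j)) ^ 2) := by
  have h1 := sum_mv_symm (Ind := Ind) (r := r) (fun a _ => g a ^ 2)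
  have h2 : ∑ B ∈ bases Ind r, ∑ i, ∑ j, (g B - g (mv Ind r B i j)) ^ 2 =
      2 * ∑ B ∈ bases Ind r, ∑ i, ∑ j, (g B ^ 2 - g B * g (mv Ind r B i j)) := by
    have e1 : ∀ B i j, (g B - g (mv Ind r B i j)) ^ 2 = g B ^ 2 + g (mv Ind r B i j) ^ 2 -
        2 * (g B * g (mv Ind r B i j)) := by intro B i j; ring
    simp only [e1, Finset.sum_sub_distrib, Finset.sum_add_distrib, ← Finset.mul_sum]
    linarith
  rw [h2]
  unfold Q'
  rw [Finset.mul_sum, Finset.mul_sum, Finset.mul_sum, ← Finset.sum_sub_distrib]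
  refine Finset.sum_congr rfl fun B _ => ?_
  have e2 : ∑ i, ∑ j, (g B ^ 2 - g B * g (mv Ind r B i j)) =
      - (g B * ∑ i, ∑ j, (g (mv Ind r B i j) - g B)) := by
    rw [Finset.mul_sum, ← Finset.sum_neg_distrib]
    refine Finset.sum_congr rfl fun i _ => ?_
    rw [Finset.mul_sum, ← Finset.sum_neg_distrib]
    exact Finset.sum_congr rfl fun j _ => by ring
  rw [e2]; ring

theorem sq_Q' (hq : 0 ≤ q) (hq1 : q * (Fintype.card α : ℝ) ^ 2 ≤ 1) (g : Finset α → ℝ) :
    ∑ B ∈ bases Ind r, Q' Ind r q g B ^ 2 ≤ ∑ B ∈ bases Ind r, g B ^ 2 := by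
  set n : ℝ := (Fintype.card α : ℝ) with hn
  have h1 : ∀ B, Q' Ind r q g B ^ 2 ≤ (1 - q * n ^ 2) * g B ^ 2 +
      q * ∑ i, ∑ j, g (mv Ind r B i j) ^ 2 := by
    intro B
    have e1 : Q' Ind r q g B = (1 - q * n ^ 2) * g B + q * ∑ i, ∑ j, g (mv Ind r B i j) := by
      unfold Q'
      simp only [Finset.sum_sub_distrib, Finset.sum_const, nsmul_eq_mul, card_univ]
      ring
    set c := ∑ i, ∑ j, g (mv Ind r B i j) with hc
    set d := ∑ i, ∑ j, g (mv Ind r B i j) ^ 2 with hd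
    have hcd : ∀ t : ℝ, 0 ≤ d - 2 * t * c + t ^ 2 * n ^ 2 := by
      intro t
      have : ∑ i, ∑ j, (g (mv Ind r B i j) - t) ^ 2 = d - 2 * t * c + t ^ 2 * n ^ 2 := by
        have e2 : ∀ i j, (g (mv Ind r B i j) - t) ^ 2 = g (mv Ind r B i j) ^ 2 -
            2 * t * g (mv Ind r B i j) + t ^ 2 := by intro i j; ring
        simp only [e2, Finset.sum_sub_distrib, Finset.sum_add_distrib, ← Finset.mul_sum,
          Finset.sum_const, nsmul_eq_mul, card_univ]
        rw [hd, hc, hn]; ring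
      rw [← this]
      exact Finset.sum_nonneg fun i _ => Finset.sum_nonneg fun j _ => sq_nonneg _
    rw [e1]
    set x := g B
    set m := (1 - q * n ^ 2) * x + q * c with hm
    have h2 := hcd m
    have h3 : 0 ≤ (1 - q * n ^ 2) * (x - m) ^ 2 := mul_nonneg (by linarith) (sq_nonneg _)
    have h4 : 0 ≤ q * (d - 2 * m * c + m ^ 2 * n ^ 2) := mul_nonneg hq h2
    nlinarith [h3, h4, hm]
  refine (Finset.sum_le_sum fun B _ => h1 B).trans ?_
  rw [Finset.sum_add_distrib, ← Finset.mul_sum, ← Finset.mul_sum]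
  have h2 := sum_mv_symm (Ind := Ind) (r := r) (fun a _ => g a ^ 2)
  simp only [Finset.sum_const, nsmul_eq_mul, card_univ] at h2
  rw [← h2]
  have e3 : ∑ B ∈ bases Ind r, (Fintype.card α : ℝ) * ((Fintype.card α : ℝ) * g B ^ 2) =
      n ^ 2 * ∑ B ∈ bases Ind r, g B ^ 2 := by
    rw [Finset.mul_sum]
    exact Finset.sum_congr rfl fun B _ => by rw [hn]; ring
  rw [e3]
  nlinarith

theorem sum_Q (g : Finset α → ℝ) :
    ∑ B ∈ bases Ind r, Q Ind r q g B = ∑ B ∈ bases Ind r, g B := by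
  unfold Q
  rw [← Finset.sum_div, Finset.sum_add_distrib, sum_Q']
  ring

/-- contraction on functions of mean zero -/
theorem sq_Q (hI : IndSys Ind) (hr : HasRank Ind r) (hq : 0 ≤ q)
    (hq1 : q * (Fintype.card α : ℝ) ^ 2 ≤ 1) (g : Finset α → ℝ)
    (h0 : ∑ B ∈ bases Ind r, g B = 0) :
    ∑ B ∈ bases Ind r, Q Ind r q g B ^ 2 ≤ (1 - q / 2) * ∑ B ∈ bases Ind r, g B ^ 2 := by
  have h1 := sq_Q' (Ind := Ind) (r := r) hq hq1 g
  have h2 := inner_Q' (Ind := Ind) (r := r) (q := q) g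
  have h3 := variance_le hI hr g
  rw [h0] at h3
  simp only [ne_eq, OfNat.ofNat_ne_zero, not_false_eq_true, zero_pow, zero_div, sub_zero] at h3
  have h4 : ∑ B ∈ bases Ind r, Q Ind r q g B ^ 2 = (1 / 4) * (∑ B ∈ bases Ind r, g B ^ 2 +
      2 * ∑ B ∈ bases Ind r, g B * Q' Ind r q g B + ∑ B ∈ bases Ind r, Q' Ind r q g B ^ 2) := by
    rw [Finset.mul_sum (f := fun B => g B * Q' Ind r q g B), ← Finset.sum_add_distrib,
      ← Finset.sum_add_distrib, Finset.mul_sum]
    refine Finset.sum_congr rfl fun B _ => ?_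
    unfold Q; ring
  rw [h4]
  have h5 := mul_le_mul_of_nonneg_left h3 hq
  linarith

theorem iter_Q (hI : IndSys Ind) (hr : HasRank Ind r) (hq : 0 ≤ q)
    (hq1 : q * (Fintype.card α : ℝ) ^ 2 ≤ 1) (hq2 : q ≤ 2) (T : ℕ) (g : Finset α → ℝ)
    (h0 : ∑ B ∈ bases Ind r, g B = 0) :
    ∑ B ∈ bases Ind r, ((Q Ind r q)^[T] g) B = 0 ∧
    ∑ B ∈ bases Ind r, ((Q Ind r q)^[T] g) B ^ 2 ≤
      (1 - q / 2) ^ T * ∑ B ∈ bases Ind r, g B ^ 2 := by
  induction T with
  | zero => simp [h0]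
  | succ T ih =>
    rw [Function.iterate_succ_apply']
    refine ⟨by rw [sum_Q]; exact ih.1, ?_⟩
    refine (sq_Q hI hr hq hq1 _ ih.1).trans ?_
    rw [pow_succ, mul_comm ((1 - q / 2) ^ T), mul_assoc]
    exact mul_le_mul_of_nonneg_left ih.2 (by linarith)

theorem Q_sub_const (c : ℝ) (g : Finset α → ℝ) :
    Q Ind r q (fun B => g B - c) = fun B => Q Ind r q g B - c := by
  funext B
  unfold Q Q'
  have : ∑ i, ∑ j, (g (mv Ind r B i j) - c - (g B - c)) =
      ∑ i, ∑ j, (g (mv Ind r B i j) - g B) :=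
    Finset.sum_congr rfl fun i _ => Finset.sum_congr rfl fun j _ => by ring
  rw [this]; ring

theorem iter_Q_sub_const (c : ℝ) (g : Finset α → ℝ) (T : ℕ) :
    (Q Ind r q)^[T] (fun B => g B - c) = fun B => ((Q Ind r q)^[T] g) B - c := by
  induction T with
  | zero => rfl
  | succ T ih => rw [Function.iterate_succ_apply', ih, Q_sub_const, Function.iterate_succ_apply']

/-- **Convergence of the lazy exchange chain.** -/
theorem mixing (hI : IndSys Ind) (hr : HasRank Ind r) (hq : 0 ≤ q)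
    (hq1 : q * (Fintype.card α : ℝ) ^ 2 ≤ 1) (hq2 : q ≤ 2) (T : ℕ) {B0 B1 : Finset α}
    (hB0 : B0 ∈ bases Ind r) (hB1 : B1 ∈ bases Ind r) :
    (((Q Ind r q)^[T] (fun B => if B = B1 then 1 else 0)) B0 - 1 / (bases Ind r).card) ^ 2 ≤
      (1 - q / 2) ^ T := by
  classical
  set N : ℝ := ((bases Ind r).card : ℝ) with hN
  have hN1 : 1 ≤ N := by
    rw [hN]; exact_mod_cast Finset.card_pos.2 ⟨B0, hB0⟩
  have hs1 : ∑ B ∈ bases Ind r, (if B = B1 then (1 : ℝ) else 0) = 1 := by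
    rw [Finset.sum_ite_eq']; rw [if_pos hB1]
  have h0 : ∑ B ∈ bases Ind r, ((if B = B1 then (1 : ℝ) else 0) - 1 / N) = 0 := by
    rw [Finset.sum_sub_distrib, hs1, Finset.sum_const, nsmul_eq_mul, ← hN]
    field_simp
    ring
  have h1 := (iter_Q hI hr hq hq1 hq2 T _ h0).2
  rw [iter_Q_sub_const] at h1
  have h2 : ∑ B ∈ bases Ind r, ((if B = B1 then (1 : ℝ) else 0) - 1 / N) ^ 2 ≤ 1 := by
    have e1 : ∀ B : Finset α, ((if B = B1 then (1 : ℝ) else 0) - 1 / N) ^ 2 =
        (if B = B1 then (1 : ℝ) else 0) * (1 - 2 / N) + (1 / N) ^ 2 := by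
      intro B; split_ifs <;> ring
    simp only [e1]
    rw [Finset.sum_add_distrib, ← Finset.sum_mul, hs1, Finset.sum_const, nsmul_eq_mul, ← hN]
    have : N * (1 / N) ^ 2 = 1 / N := by field_simp
    rw [this]
    have : 0 < 1 / N := by positivity
    have e2 : 2 / N = 2 * (1 / N) := by ring
    rw [e2]; linarith
  have h3 : (((Q Ind r q)^[T] (fun B => if B = B1 then (1 : ℝ) else 0)) B0 - 1 / N) ^ 2 ≤
      ∑ B ∈ bases Ind r, (((Q Ind r q)^[T] (fun B => if B = B1 then (1 : ℝ) else 0)) B - 1 / N) ^ 2 :=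
    Finset.single_le_sum (f := fun B =>
      (((Q Ind r q)^[T] (fun B => if B = B1 then (1 : ℝ) else 0)) B - 1 / N) ^ 2)
      (fun B _ => sq_nonneg _) hB0
  refine h3.trans (h1.trans ?_)
  have h4 : 0 ≤ (1 - q / 2) ^ T := pow_nonneg (by linarith) _
  calc (1 - q / 2) ^ T * ∑ B ∈ bases Ind r, ((if B = B1 then (1 : ℝ) else 0) - 1 / N) ^ 2
      ≤ (1 - q / 2) ^ T * 1 := mul_le_mul_of_nonneg_left h2 h4
    _ = _ := mul_one _

end chain

/-- the numerical bound: after `4 ^ (a + 1) * s` steps with `q = 4 ^ (-a)` -/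
theorem pow_bound (a s : ℕ) :
    (1 - (1 / (4 : ℝ) ^ a) / 2) ^ (4 ^ (a + 1) * s) ≤ (1 / 2 ^ s) ^ 2 := by
  have h4 : (0 : ℝ) < 4 ^ a := by positivity
  have hge : (1 : ℝ) ≤ 4 ^ a := one_le_pow₀ (by norm_num)
  have h0 : (0 : ℝ) ≤ 1 - (1 / (4 : ℝ) ^ a) / 2 := by
    have : 1 / (4 : ℝ) ^ a ≤ 1 := by rw [div_le_one h4]; exact hge
    linarith
  have h1 : 1 - (1 / (4 : ℝ) ^ a) / 2 ≤ Real.exp (-(1 / (4 : ℝ) ^ a) / 2) := by
    have := Real.add_one_le_exp (-(1 / (4 : ℝ) ^ a) / 2)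
    linarith
  have h2 : (1 - (1 / (4 : ℝ) ^ a) / 2) ^ (4 ^ (a + 1)) ≤ (1 / 2) ^ 2 := by
    calc (1 - (1 / (4 : ℝ) ^ a) / 2) ^ (4 ^ (a + 1)) ≤
        Real.exp (-(1 / (4 : ℝ) ^ a) / 2) ^ (4 ^ (a + 1)) := pow_le_pow_left₀ h0 h1 _
      _ = Real.exp (-2) := by
          rw [← Real.exp_nat_mul]
          congr 1
          push_cast
          rw [pow_succ]
          field_simp
          norm_num
      _ ≤ (1 / 2) ^ 2 := by
          have h3 : Real.exp (-2) = (Real.exp (-1)) ^ 2 := by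
            rw [← Real.exp_nat_mul]; norm_num
          rw [h3]
          apply pow_le_pow_left₀ (Real.exp_pos _).le
          rw [Real.exp_neg]
          have := Real.exp_one_gt_d9
          rw [inv_eq_one_div]
          exact one_div_le_one_div_of_le (by norm_num) (by linarith)
  rw [pow_mul]
  calc ((1 - (1 / (4 : ℝ) ^ a) / 2) ^ (4 ^ (a + 1))) ^ s ≤ ((1 / 2) ^ 2) ^ s :=
        pow_le_pow_left₀ (pow_nonneg h0 _) h2 _
    _ = _ := by rw [← pow_mul, mul_comm, pow_mul, one_div_pow]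

end Pool.Agent.E8helper91.Samp
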