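import Pool.Agent.E8helper91.Samp.PLin

/-!
# Spanning trees and bases
-/

set_option autoImplicit false

namespace Pool.Agent.E8helper91.Samp

open Pool.Agent.NPC Pool.Agent.H670R2 Finset

/-! ### increasing lists -/

theorem nodup_of_lt {l : List ℕ} (h : l.Pairwise (· < ·)) : l.Nodup :=
  h.imp fun h' => ne_of_lt h'

theorem eq_of_toFinset {l l' : List ℕ} (h : l.Pairwise (· < ·)) (h' : l'.Pairwise (· < ·))
    (he : l.toFinset = l'.toFinset) : l = l' := by
  refine List.Pairwise.eq_of_mem_iff h h' fun a => ?_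
  rw [← List.mem_toFinset, ← List.mem_toFinset, he]

theorem card_toFinset {l : List ℕ} (h : l.Pairwise (· < ·)) : l.toFinset.card = l.length :=
  List.toFinset_card_of_nodup (nodup_of_lt h)

theorem mem_del {l : List ℕ} {i x : ℕ} : x ∈ del l i ↔ ∃ k, k ≠ i ∧ l[k]? = some x := by
  unfold del
  rw [List.mem_map]
  constructor
  · rintro ⟨⟨y, k⟩, h1, rfl⟩
    rw [List.mem_filter, decide_eq_true_eq, List.mem_zipIdx_iff_getElem?] at h1
    exact ⟨k, h1.2, h1.1⟩
  · rintro ⟨k, h1, h2⟩
    refine ⟨(x, k), ?_, rfl⟩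
    rw [List.mem_filter, decide_eq_true_eq, List.mem_zipIdx_iff_getElem?]
    exact ⟨h2, h1⟩

theorem pairwise_del {l : List ℕ} (h : l.Pairwise (· < ·)) (i : ℕ) :
    (del l i).Pairwise (· < ·) := by
  unfold del
  have h1 : ((l.zipIdx.filter fun p => decide (p.2 ≠ i)).map Prod.fst).Sublist
      (l.zipIdx.map Prod.fst) := (List.filter_sublist).map _
  have h2 : l.zipIdx.map Prod.fst = l := by
    simp
  rw [h2] at h1
  exact h.sublist h1

theorem toFinset_del {l : List ℕ} (h : l.Pairwise (· < ·)) {i : ℕ} (hi : i < l.length) :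
    (del l i).toFinset = l.toFinset.erase l[i] := by
  have hn := nodup_of_lt h
  ext x
  rw [List.mem_toFinset, mem_del, Finset.mem_erase, List.mem_toFinset]
  constructor
  · rintro ⟨k, hk, hx⟩
    obtain ⟨hk2, rfl⟩ := List.getElem?_eq_some_iff.1 hx
    refine ⟨fun he => hk ((List.Nodup.getElem_inj_iff hn).1 he), List.getElem_mem hk2⟩
  · rintro ⟨hne, hx⟩
    obtain ⟨k, hk, rfl⟩ := List.getElem_of_mem hx
    refine ⟨k, fun he => hne (by subst he; rfl), List.getElem?_eq_getElem hk⟩

theorem card_lt {l : List ℕ} (h : l.Pairwise (· < ·)) {i : ℕ} (hi : i < l.length) :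
    (l.toFinset.filter (fun u => u < l[i])).card = i := by
  have h1 : l.toFinset.filter (fun u => u < l[i]) = (l.take i).toFinset := by
    ext u
    rw [Finset.mem_filter, List.mem_toFinset, List.mem_toFinset]
    constructor
    · rintro ⟨hu, hlt⟩
      obtain ⟨k, hk, rfl⟩ := List.getElem_of_mem hu
      have hki : k < i := by
        by_contra hcon
        push Not at hcon
        rcases Nat.lt_or_eq_of_le hcon with hlt2 | heq
        · have := List.pairwise_iff_getElem.1 h i k hi hk hlt2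
          omega
        · subst heq
          omega
      rw [List.mem_take_iff_getElem]
      exact ⟨k, by omega, rfl⟩
    · intro hu
      rw [List.mem_take_iff_getElem] at hu
      obtain ⟨k, hk, rfl⟩ := hu
      exact ⟨List.getElem_mem _, List.pairwise_iff_getElem.1 h k i (by omega) hi (by omega)⟩
  rw [h1, List.toFinset_card_of_nodup ((nodup_of_lt h).sublist (List.take_sublist _ _)),
    List.length_take]
  omega

theorem sum_toFinset_eq {R : Type} [AddCommMonoid R] {l : List ℕ} (h : l.Pairwise (· < ·))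
    (f : ℕ → R) : ∑ v ∈ l.toFinset, f v = ∑ i : Fin l.length, f (l[(i : ℕ)]) := by
  rw [List.sum_toFinset f (nodup_of_lt h), ← Fin.sum_univ_fun_getElem]

theorem coef_eq {l t : List ℕ} (hl : l.Pairwise (· < ·)) (ht : t.Pairwise (· < ·)) :
    ((coef l t : ℤ) : ℚ) = bd l.toFinset t.toFinset := by
  unfold coef bd
  rw [Finsupp.finsetSum_apply, sum_toFinset_eq hl, ← List.sum_toFinset _ List.nodup_range,
    List.toFinset_range, Finset.sum_range]
  push_cast
  refine Finset.sum_congr rfl fun i _ => ?_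
  rw [Finsupp.single_apply, card_lt hl i.2]
  have h1 : (t = del l i) ↔ (l.toFinset.erase l[(i : ℕ)] = t.toFinset) := by
    rw [← toFinset_del hl i.2]
    exact ⟨fun h => by rw [h], fun h => (eq_of_toFinset (pairwise_del hl i) ht h).symm⟩
  have h2 : ((if (i : ℕ) % 2 = 0 then (1 : ℚ) else -1)) = (-1) ^ (i : ℕ) := by
    split_ifs with h
    · rw [(Nat.even_iff.2 h).neg_one_pow]
    · rw [(Nat.odd_iff.2 (by omega)).neg_one_pow]
  by_cases hc : t = del l i
  · have hc' := h1.1 hc
    rw [if_pos hc, h2]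
    exact (if_pos hc').symm
  · have hc' : ¬ (l.toFinset.erase l[(i : ℕ)] = t.toFinset) := fun h => hc (h1.2 h)
    rw [if_neg hc, if_neg]
    exact hc'

/-! ### lists of faces -/

theorem foldl_max_spec (F : List (List ℕ)) : ∀ x : ℕ,
    x ≤ F.foldl (fun a l => max a l.length) x ∧
    (∀ l ∈ F, l.length ≤ F.foldl (fun a l => max a l.length) x) ∧
    ∀ y, x ≤ y → (∀ l ∈ F, l.length ≤ y) → F.foldl (fun a l => max a l.length) x ≤ y := by
  induction F with
  | nil => intro x; simp
  | cons l F ih =>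
    intro x
    obtain ⟨h1, h2, h3⟩ := ih (max x l.length)
    rw [List.foldl_cons]
    refine ⟨(le_max_left _ _).trans h1, ?_, ?_⟩
    · intro q hq
      rcases List.mem_cons.1 hq with rfl | hq
      · exact (le_max_right _ _).trans h1
      · exact h2 q hq
    · intro y hy hF
      exact h3 y (max_le hy (hF l List.mem_cons_self)) fun q hq => hF q (List.mem_cons_of_mem _ hq)

section cpx

variable {Δ : PreAbstractSimplicialComplex ℕ} {d : ℕ} {F : List (List ℕ)}

theorem dimOf_eq (hd : HasDim Δ d) (hF : ListsFaces F Δ) : dimOf F = d + 1 := by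
  obtain ⟨_, h2, h3⟩ := foldl_max_spec F 0
  obtain ⟨⟨s, hs, hsc⟩, hle⟩ := hd
  refine le_antisymm (h3 _ (by omega) fun l hl => ?_) ?_
  · rw [← card_toFinset (hF.2.1 l hl)]
    exact hle _ ((hF.2.2 _).2 ⟨l, hl, rfl⟩)
  · obtain ⟨l, hl, rfl⟩ := (hF.2.2 s).1 hs
    rw [← hsc, card_toFinset (hF.2.1 l hl)]
    exact h2 l hl

/-- the face number `i` of maximal dimension -/
def face (F : List (List ℕ)) (i : Fin (cols F).length) : List ℕ :=
  (topF F).get (Fin.cast (by simp [cols]) i)

/-- the set of vertices of the face number `i` -/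
def fc (F : List (List ℕ)) (i : Fin (cols F).length) : Finset ℕ := (face F i).toFinset

theorem face_mem (i : Fin (cols F).length) : face F i ∈ topF F := List.get_mem _ _

theorem mem_topF {l : List ℕ} : l ∈ topF F ↔ l ∈ F ∧ l.length = dimOf F := by
  unfold topF; rw [List.mem_filter, decide_eq_true_eq]

theorem exists_face {l : List ℕ} (h : l ∈ topF F) : ∃ i, face F i = l := by
  obtain ⟨i, rfl⟩ := List.get_of_mem h
  exact ⟨Fin.cast (by simp [cols]) i, rfl⟩

theorem face_injective (hF : ListsFaces F Δ) : Function.Injective (face F) := by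
  intro i j h
  have h1 : (topF F).Nodup := hF.1.filter _
  have h2 := (List.nodup_iff_injective_get.1 h1) h
  have h3 := congrArg Fin.val h2
  simp only [Fin.val_cast] at h3
  exact Fin.ext h3

theorem face_sorted (hF : ListsFaces F Δ) (i : Fin (cols F).length) :
    (face F i).Pairwise (· < ·) := hF.2.1 _ (mem_topF.1 (face_mem i)).1

theorem fc_injective (hF : ListsFaces F Δ) : Function.Injective (fc F) := by
  intro i j h
  exact face_injective hF (eq_of_toFinset (face_sorted hF i) (face_sorted hF j) h)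

theorem fc_mem (hF : ListsFaces F Δ) (i : Fin (cols F).length) : fc F i ∈ Δ :=
  (hF.2.2 _).2 ⟨_, (mem_topF.1 (face_mem i)).1, rfl⟩

theorem fc_card (hd : HasDim Δ d) (hF : ListsFaces F Δ) (i : Fin (cols F).length) :
    (fc F i).card = d + 1 := by
  unfold fc
  rw [card_toFinset (face_sorted hF i), (mem_topF.1 (face_mem i)).2, dimOf_eq hd hF]

theorem exists_fc (hd : HasDim Δ d) (hF : ListsFaces F Δ) {s : Finset ℕ} (hs : s ∈ Δ)
    (hc : s.card = d + 1) : ∃ i, fc F i = s := by
  obtain ⟨l, hl, rfl⟩ := (hF.2.2 s).1 hs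
  obtain ⟨i, hi⟩ := exists_face (F := F) (l := l) (mem_topF.2 ⟨hl, by
    rw [dimOf_eq hd hF, ← hc, card_toFinset (hF.2.1 l hl)]⟩)
  exact ⟨i, by unfold fc; rw [hi]⟩

theorem mem_ridges {l : List ℕ} : l ∈ ridges F ↔ l ∈ F ∧ l.length + 1 = dimOf F := by
  unfold ridges; rw [List.mem_filter, decide_eq_true_eq]

theorem get_cols (i : Fin (cols F).length) : (cols F).get i = col (ridges F) (face F i) := by
  change (cols F)[(i : ℕ)] = _
  simp only [cols, List.getElem_map]
  rfl

theorem length_of_mem_cols {v : List ℤ} (hv : v ∈ cols F) : v.length = (ridges F).length := by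
  unfold cols at hv
  rw [List.mem_map] at hv
  obtain ⟨l, _, rfl⟩ := hv
  simp [col]

/-- coordinates on the faces of one dimension less -/
noncomputable def Phi (F : List (List ℕ)) :
    (Finset ℕ →₀ ℚ) →ₗ[ℚ] (Fin (ridges F).length → ℚ) :=
  LinearMap.pi fun j => Finsupp.lapply ((ridges F).get j).toFinset

theorem Phi_bd (hF : ListsFaces F Δ) (i : Fin (cols F).length) :
    Phi F (bd (fc F i)) = cv (cols F) (ridges F).length i := by
  ext j
  unfold Phi cv toQ
  rw [LinearMap.pi_apply, Finsupp.lapply_apply, get_cols]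
  unfold fc col
  rw [List.getD_eq_getElem _ _ (by simp), List.getElem_map]
  rw [coef_eq (face_sorted hF i) (hF.2.1 _ (mem_ridges.1 (List.getElem_mem _)).1)]
  rfl

/-- chains on the faces of one dimension less -/
def Wsp (Δ : PreAbstractSimplicialComplex ℕ) (d : ℕ) : Submodule ℚ (Finset ℕ →₀ ℚ) :=
  Finsupp.supported ℚ ℚ {s | s ∈ Δ ∧ s.card = d}

theorem bd_mem (hd1 : 1 ≤ d) (hd : HasDim Δ d) (hF : ListsFaces F Δ) (i : Fin (cols F).length) :
    bd (fc F i) ∈ Wsp Δ d := by
  unfold bd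
  refine Submodule.sum_mem _ fun v hv => ?_
  refine Finsupp.single_mem_supported ℚ _ ?_
  have hc : ((fc F i).erase v).card = d := by
    rw [Finset.card_erase_of_mem hv, fc_card hd hF i]; omega
  refine ⟨?_, hc⟩
  exact (Δ.isRelLowerSet_faces (fc_mem hF i)).2 (Finset.erase_subset _ _)
    (Finset.card_pos.1 (by omega))

theorem Phi_inj (hd : HasDim Δ d) (hF : ListsFaces F Δ) :
    Set.InjOn (Phi F) (Wsp Δ d : Set (Finset ℕ →₀ ℚ)) := by
  intro x hx y hy hxy
  ext s
  by_cases hs : s ∈ Δ ∧ s.card = d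
  · obtain ⟨l, hl, rfl⟩ := (hF.2.2 s).1 hs.1
    have h1 : l ∈ ridges F := mem_ridges.2 ⟨hl, by
      rw [dimOf_eq hd hF, ← hs.2, card_toFinset (hF.2.1 l hl)]⟩
    obtain ⟨j, hj⟩ := List.get_of_mem h1
    have h2 := congrFun hxy j
    unfold Phi at h2
    rw [LinearMap.pi_apply, LinearMap.pi_apply, Finsupp.lapply_apply, Finsupp.lapply_apply, hj] at h2
    exact h2
  · have h1 := (Finsupp.mem_supported' ℚ x).1 hx s hs
    have h2 := (Finsupp.mem_supported' ℚ y).1 hy s hs
    rw [h1, h2]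

theorem indepOn_iff (hd1 : 1 ≤ d) (hd : HasDim Δ d) (hF : ListsFaces F Δ)
    (B : Finset (Fin (cols F).length)) :
    LinearIndepOn ℚ (cv (cols F) (ridges F).length) (B : Set (Fin (cols F).length)) ↔
      LinearIndepOn ℚ (fun i => bd (fc F i)) (B : Set (Fin (cols F).length)) := by
  have h1 : cv (cols F) (ridges F).length = Phi F ∘ fun i => bd (fc F i) := by
    funext i
    exact (Phi_bd hF i).symm
  rw [h1]
  unfold LinearIndepOn
  refine LinearMap.linearIndependent_iff_of_injOn (f := Phi F)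
    (v := fun i : (B : Set (Fin (cols F).length)) => bd (fc F i)) ((Phi_inj hd hF).mono ?_)
  have h2 : Submodule.span ℚ (Set.range fun i : (B : Set (Fin (cols F).length)) => bd (fc F i)) ≤
      Wsp Δ d := by
    rw [Submodule.span_le]
    rintro _ ⟨i, rfl⟩
    exact bd_mem hd1 hd hF i
  exact h2

theorem span_iff (hd1 : 1 ≤ d) (hd : HasDim Δ d) (hF : ListsFaces F Δ)
    (B : Finset (Fin (cols F).length)) (i : Fin (cols F).length) :
    cv (cols F) (ridges F).length i ∈ Submodule.span ℚ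
      (cv (cols F) (ridges F).length '' (B : Set (Fin (cols F).length))) ↔
    bd (fc F i) ∈ Submodule.span ℚ ((fun i => bd (fc F i)) '' (B : Set (Fin (cols F).length))) := by
  have h1 : cv (cols F) (ridges F).length '' (B : Set (Fin (cols F).length)) =
      Phi F '' ((fun i => bd (fc F i)) '' (B : Set (Fin (cols F).length))) := by
    rw [Set.image_image]
    refine Set.image_congr fun i _ => (Phi_bd hF i).symm
  rw [h1, ← Submodule.map_span, ← Phi_bd hF i, Submodule.mem_map]
  constructor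
  · rintro ⟨w, hw, he⟩
    have h2 : Submodule.span ℚ ((fun i => bd (fc F i)) '' (B : Set (Fin (cols F).length))) ≤
        Wsp Δ d := by
      rw [Submodule.span_le]
      rintro _ ⟨i, _, rfl⟩
      exact bd_mem hd1 hd hF i
    rw [← Phi_inj hd hF (h2 hw) (bd_mem hd1 hd hF i) he]
    exact hw
  · intro h
    exact ⟨_, h, rfl⟩

/-! ### trees -/

/-- the subcomplex with all faces of dimension less than `d` and the faces of maximal dimension
given by `B` -/
def treeOf (Δ : PreAbstractSimplicialComplex ℕ) (d : ℕ) (hd : HasDim Δ d) (F : List (List ℕ))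
    (B : Finset (Fin (cols F).length)) : PreAbstractSimplicialComplex ℕ where
  faces := {s | s ∈ Δ ∧ (s.card ≤ d ∨ ∃ i ∈ B, s = fc F i)}
  isRelLowerSet_faces := by
    rintro s ⟨hs, hs2⟩
    refine ⟨(Δ.isRelLowerSet_faces hs).1, fun t ht htne => ?_⟩
    have ht1 : t ∈ Δ := (Δ.isRelLowerSet_faces hs).2 ht htne
    refine ⟨ht1, ?_⟩
    by_cases hts : t = s
    · rw [hts]; exact hs2
    · left
      have h1 : t.card < s.card := Finset.card_lt_card (lt_of_le_of_ne ht hts)
      have h2 := hd.2 s hs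
      omega

theorem mem_treeOf {hd : HasDim Δ d} {B : Finset (Fin (cols F).length)} {s : Finset ℕ} :
    s ∈ treeOf Δ d hd F B ↔ s ∈ Δ ∧ (s.card ≤ d ∨ ∃ i ∈ B, s = fc F i) := Iff.rfl

theorem top_treeOf (hd : HasDim Δ d) (hF : ListsFaces F Δ) (B : Finset (Fin (cols F).length)) :
    {s | s ∈ treeOf Δ d hd F B ∧ s.card = d + 1} = fc F '' (B : Set (Fin (cols F).length)) := by
  ext s
  simp only [Set.mem_ofPred_eq, mem_treeOf, Set.mem_image, Finset.mem_coe]
  constructor
  · rintro ⟨⟨h1, h2 | ⟨i, hi, h2⟩⟩, h3⟩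
    · omega
    · exact ⟨i, hi, h2.symm⟩
  · rintro ⟨i, hi, rfl⟩
    exact ⟨⟨fc_mem hF i, Or.inr ⟨i, hi, rfl⟩⟩, fc_card hd hF i⟩

theorem top_all (hd : HasDim Δ d) (hF : ListsFaces F Δ) :
    {s | s ∈ Δ ∧ s.card = d + 1} = Set.range (fc F) := by
  ext s
  constructor
  · rintro ⟨h1, h2⟩
    exact exists_fc hd hF h1 h2
  · rintro ⟨i, rfl⟩
    exact ⟨fc_mem hF i, fc_card hd hF i⟩

/-- when a subcomplex given by `B` is a tree -/
theorem isTree_treeOf (hd1 : 1 ≤ d) (hd : HasDim Δ d) (hF : ListsFaces F Δ)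
    (B : Finset (Fin (cols F).length)) :
    IsTree Δ d (treeOf Δ d hd F B) ↔
      LinearIndepOn ℚ (cv (cols F) (ridges F).length) (B : Set (Fin (cols F).length)) ∧
      ∀ i, cv (cols F) (ridges F).length i ∈ Submodule.span ℚ
        (cv (cols F) (ridges F).length '' (B : Set (Fin (cols F).length))) := by
  have e1 : LinearIndepOn ℚ bd (fc F '' (B : Set (Fin (cols F).length))) ↔
      LinearIndepOn ℚ (cv (cols F) (ridges F).length) (B : Set (Fin (cols F).length)) := by
    rw [indepOn_iff hd1 hd hF]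
    unfold LinearIndepOn
    exact (linearIndependent_equiv' (Equiv.Set.image (fc F) _ (fc_injective hF)) rfl).symm
  have e2 : Submodule.span ℚ (bd '' (fc F '' (B : Set (Fin (cols F).length)))) =
      Submodule.span ℚ (bd '' Set.range (fc F)) ↔
      ∀ i, cv (cols F) (ridges F).length i ∈ Submodule.span ℚ
        (cv (cols F) (ridges F).length '' (B : Set (Fin (cols F).length))) := by
    simp only [span_iff hd1 hd hF]
    rw [Set.image_image]
    constructor
    · intro h i
      rw [h]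
      exact Submodule.subset_span ⟨_, ⟨i, rfl⟩, rfl⟩
    · intro h
      refine le_antisymm (Submodule.span_mono ?_) ?_
      · rintro _ ⟨i, _, rfl⟩
        exact ⟨_, ⟨i, rfl⟩, rfl⟩
      · rw [Submodule.span_le]
        rintro _ ⟨_, ⟨i, rfl⟩, rfl⟩
        exact h i
  constructor
  · intro h
    have h1 := h.indep
    have h2 := h.span
    rw [top_treeOf hd hF] at h1 h2
    rw [top_all hd hF] at h2
    exact ⟨e1.1 h1, e2.1 h2⟩
  · rintro ⟨h1, h2⟩
    refine ⟨?_, ?_, ?_, ?_⟩
    · intro s hs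
      exact hs.1
    · intro s hs hsc
      exact ⟨hs, Or.inl hsc⟩
    · rw [top_treeOf hd hF]
      exact e1.2 h1
    · rw [top_treeOf hd hF, top_all hd hF]
      exact e2.2 h2

theorem treeOf_injective (hd : HasDim Δ d) (hF : ListsFaces F Δ) :
    Function.Injective (treeOf Δ d hd F) := by
  intro B B' h
  have h1 := top_treeOf hd hF B
  rw [h, top_treeOf hd hF B'] at h1
  have h2 := (fc_injective hF).image_injective h1
  exact (Finset.coe_injective h2).symm

open Classical in
theorem exists_treeOf (hd : HasDim Δ d) (hF : ListsFaces F Δ)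
    {Υ : PreAbstractSimplicialComplex ℕ} (h : IsTree Δ d Υ) : ∃ B, treeOf Δ d hd F B = Υ := by
  refine ⟨univ.filter fun i => fc F i ∈ Υ, ?_⟩
  refine SetLike.ext fun s => ?_
  rw [mem_treeOf]
  constructor
  · rintro ⟨h1, h2 | ⟨i, hi, rfl⟩⟩
    · exact h.skeleton s h1 h2
    · exact (Finset.mem_filter.1 hi).2
  · intro hs
    have h1 : s ∈ Δ := h.le hs
    refine ⟨h1, ?_⟩
    by_cases hc : s.card ≤ d
    · exact Or.inl hc
    · right
      have h2 := hd.2 s h1
      obtain ⟨i, rfl⟩ := exists_fc hd hF h1 (by omega)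
      exact ⟨i, Finset.mem_filter.2 ⟨Finset.mem_univ _, hs⟩, rfl⟩

/-- everything about the bases of the boundary matrix -/
theorem trees_eq (hd1 : 1 ≤ d) (hd : HasDim Δ d) (hF : ListsFaces F Δ) :
    ∃ (r : ℕ) (B₀ : Finset (Fin (cols F).length)), greedy (cols F) = ofF B₀ ∧
      Good (cols F) r B₀ ∧
      {Υ | IsTree Δ d Υ} = treeOf Δ d hd F '' (bases (IndV (cols F)) r : Set (Finset _)) := by
  obtain ⟨B₀, h1, h2, h3⟩ := greedy_good (cols F) (n := (ridges F).length)
    fun v hv => length_of_mem_cols hv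
  refine ⟨B₀.card, B₀, h1, h2, ?_⟩
  have h4 := mem_bases_iff (n := (ridges F).length) (fun v hv => length_of_mem_cols hv)
    (mem_bases.1 h2.base).1 h3
  ext Υ
  constructor
  · intro h
    obtain ⟨B, rfl⟩ := exists_treeOf hd hF h
    exact ⟨B, (h4 B).2 ((isTree_treeOf hd1 hd hF B).1 h), rfl⟩
  · rintro ⟨B, hB, rfl⟩
    exact (isTree_treeOf hd1 hd hF B).2 ((h4 B).1 hB)

/-! ### output -/

theorem mem_sel {β : Type} {vs : List β} {S : List Bool} {x : β} :
    x ∈ sel vs S ↔ ∃ k : ℕ, vs[k]? = some x ∧ S[k]? = some true := by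
  unfold sel
  rw [List.mem_map]
  constructor
  · rintro ⟨⟨y, b⟩, h1, rfl⟩
    rw [List.mem_filter] at h1
    obtain ⟨h1, h2⟩ := h1
    obtain ⟨k, hk⟩ := List.mem_iff_getElem?.1 h1
    rw [List.getElem?_zip_eq_some] at hk
    simp only at h2 hk
    subst h2
    exact ⟨k, hk⟩
  · rintro ⟨k, h1, h2⟩
    refine ⟨(x, true), List.mem_filter.2 ⟨List.mem_iff_getElem?.2 ⟨k, ?_⟩, rfl⟩, rfl⟩
    rw [List.getElem?_zip_eq_some]
    exact ⟨h1, h2⟩

theorem mem_sel_ofF {B : Finset (Fin (cols F).length)} {l : List ℕ} :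
    l ∈ sel (topF F) (ofF B) ↔ ∃ i ∈ B, face F i = l := by
  rw [mem_sel]
  have hlen : (cols F).length = (topF F).length := by simp [cols]
  constructor
  · rintro ⟨k, h1, h2⟩
    obtain ⟨hk, rfl⟩ := List.getElem?_eq_some_iff.1 h1
    rw [getElem?_ofF, dif_pos (by omega)] at h2
    exact ⟨⟨k, by omega⟩, by simpa using h2, rfl⟩
  · rintro ⟨i, hi, rfl⟩
    refine ⟨i, ?_, ?_⟩
    · rw [List.getElem?_eq_getElem (by have := i.2; omega)]
      rfl
    · rw [getElem?_ofF, dif_pos i.2]
      simpa using hi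

theorem lists_outF (hd : HasDim Δ d) (hF : ListsFaces F Δ) (B : Finset (Fin (cols F).length)) :
    ListsFaces (outF F (ofF B)) (treeOf Δ d hd F B) := by
  have hmem : ∀ l, l ∈ outF F (ofF B) ↔ l ∈ F ∧ (l.length ≠ d + 1 ∨ ∃ i ∈ B, face F i = l) := by
    intro l
    unfold outF
    rw [List.mem_filter, Bool.or_eq_true, decide_eq_true_eq, mem_sel_ofF, dimOf_eq hd hF]
    simp
  refine ⟨hF.1.filter _, fun l hl => hF.2.1 l ((hmem l).1 hl).1, fun s => ?_⟩
  rw [mem_treeOf]
  constructor
  · rintro ⟨h1, h2⟩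
    obtain ⟨l, hl, rfl⟩ := (hF.2.2 s).1 h1
    refine ⟨l, (hmem l).2 ⟨hl, ?_⟩, rfl⟩
    rcases h2 with h2 | ⟨i, hi, h2⟩
    · left
      rw [card_toFinset (hF.2.1 l hl)] at h2
      omega
    · right
      exact ⟨i, hi, (eq_of_toFinset (hF.2.1 l hl) (face_sorted hF i) h2).symm⟩
  · rintro ⟨l, hl, rfl⟩
    obtain ⟨h1, h2⟩ := (hmem l).1 hl
    have h3 : l.toFinset ∈ Δ := (hF.2.2 _).2 ⟨l, h1, rfl⟩
    refine ⟨h3, ?_⟩
    rcases h2 with h2 | ⟨i, hi, rfl⟩
    · left
      have h4 := hd.2 _ h3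
      rw [card_toFinset (hF.2.1 l h1)] at h4 ⊢
      omega
    · right
      exact ⟨i, hi, rfl⟩

theorem ListsFaces.unique {L : List (List ℕ)} {Υ Υ' : PreAbstractSimplicialComplex ℕ}
    (h : ListsFaces L Υ) (h' : ListsFaces L Υ') : Υ = Υ' :=
  SetLike.ext fun s => (h.2.2 s).trans (h'.2.2 s).symm

end cpx

end Pool.Agent.E8helper91.Samp
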