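import Pool.Agent.E8helper91.Samp.PExpand

/-!
# The exact sampler
-/

set_option autoImplicit false

namespace Pool.Agent.E8helper91.Samp

open Pool.Agent.NPC Pool.Agent.H670R2 Pool.Agent.NPC.H670R2 Pool.Agent.H591R2

theorem rawP {f : List Bool → List Bool} (hf : NPC.Poly f) :
    ∃ (c : Cmd ℕ) (p : Polynomial ℕ), ∀ x, Runs c (NPC.inp x) (NPC.inp (f x)) (p.eval x.length) := by
  have h1 : PC (fun x : List Bool => x) (bits : List Bool → List Bool) f :=
    PC.comp (g := f) (f := fun x => x) hf PC.rawIn
  have h2 : PC (fun x : List Bool => x) (fun x : List Bool => x) f :=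
    PC.comp (g := fun x => x) (f := f) rawOut h1
  exact h2

theorem rawE {β : Type} [TEnc β] {f : β → List Bool} (hf : NPC.Poly f) :
    ∃ (c : Cmd ℕ) (p : Polynomial ℕ), ∀ z, Runs c (NPC.inp (bits z)) (NPC.inp (f z))
      (p.eval (sz z)) := by
  have h2 : PC (bits : β → List Bool) (fun x : List Bool => x) f :=
    PC.comp (g := fun x => x) (f := f) rawOut hf
  exact h2

theorem eval_mul_le (p : Polynomial ℕ) (A B : ℕ) (hA : 1 ≤ A) :
    p.eval (A * B) ≤ A ^ p.natDegree * p.eval B := by
  rw [Polynomial.eval_eq_sum_range, Polynomial.eval_eq_sum_range, Finset.mul_sum]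
  refine Finset.sum_le_sum fun i hi => ?_
  rw [Finset.mem_range] at hi
  rw [mul_pow]
  have h1 : A ^ i ≤ A ^ p.natDegree := Nat.pow_le_pow_right hA (by omega)
  calc p.coeff i * (A ^ i * B ^ i) = A ^ i * (p.coeff i * B ^ i) := by ring
    _ ≤ A ^ p.natDegree * (p.coeff i * B ^ i) := Nat.mul_le_mul_right _ h1

theorem sz_units (n : ℕ) : sz (List.replicate n ()) = 2 * n + 1 := by
  induction n with
  | zero => rfl
  | succ n ih =>
    rw [List.replicate_succ, sz_list_cons, ih, sz_unit]
    ring

theorem length_pairBits (r x : List Bool) : (pairBits r x).length = 2 * r.length + 1 + x.length := by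
  unfold pairBits
  simp only [List.length_append, List.length_flatMap, List.length_cons]
  simp only [List.length_nil, List.map_const', List.sum_replicate, smul_eq_mul]
  ring

/-! ### average running time of a round -/

/-- the sum of the running times -/
theorem sum_tau (K M P X : ℕ) :
    sL (K + M) (fun r : List Bool => if (r.take K).any (fun b => b) = true then P
      else P + 2 ^ K * X) = 2 ^ (K + M) * (P + X) := by
  rw [sL_add]
  have h1 : sL K (fun u : List Bool => sL M (fun v : List Bool =>
      if ((u ++ v).take K).any (fun b => b) = true then P else P + 2 ^ K * X)) =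
      sL K (fun u : List Bool => 2 ^ M * (if u.any (fun b => b) = true then P
        else P + 2 ^ K * X)) := by
    refine sL_congr fun u hu => ?_
    have h2 : ∀ v : List Bool, (if ((u ++ v).take K).any (fun b => b) = true then P
        else P + 2 ^ K * X) = (if u.any (fun b => b) = true then P else P + 2 ^ K * X) := by
      intro v
      rw [← hu, List.take_left]
    simp only [h2]
    rw [sL_const, smul_eq_mul]
  rw [h1, sL_mul_left]
  have h3 := sL_any K P (P + 2 ^ K * X)
  have h4 : sL K (fun u : List Bool => if u.any (fun b => b) = true then P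
      else P + 2 ^ K * X) = 2 ^ K * (P + X) := by
    have : 2 ^ K * (P + X) = 2 ^ K * P + 2 ^ K * X := by ring
    omega
  rw [h4, pow_add]
  ring

/-- cost of the exceptional branch -/
theorem rare_cost (pE : Polynomial ℕ) (F : List (List ℕ)) (r : List Bool) {k : ℕ}
    (hr : r.length = k) :
    32 * 2 ^ mOf F + pE.eval (sz (List.replicate (2 ^ mOf F) (),
      ((List.replicate (kD (pE.natDegree + 1) F) (), r, bits F) : Zt))) ≤
    2 ^ kD (pE.natDegree + 1) F * (32 + pE.eval (2 * kD (pE.natDegree + 1) F + 4 * k +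
      4 * (bits F).length + 7)) := by
  set K := kD (pE.natDegree + 1) F with hK
  set m := mOf F with hm
  set z : Zt := (List.replicate K (), r, bits F) with hz
  have h1 : sz (List.replicate (2 ^ m) (), z) = 2 ^ (m + 1) + (sz z + 2) := by
    rw [sz_pair, sz_units, pow_succ]; ring
  have h2 : sz z + 2 ≤ 2 * K + 4 * k + 4 * (bits F).length + 7 := by
    rw [hz, sz_pair, sz_pair, sz_units]
    have e1 := sz_listBool_le r
    have e2 := sz_listBool_le (bits F)
    omega
  have h3 : 2 ^ (m + 1) + (sz z + 2) ≤ 2 ^ (m + 1) * (sz z + 2) := by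
    have e1 : 2 ≤ 2 ^ (m + 1) := by
      calc 2 = 2 ^ 1 := rfl
        _ ≤ 2 ^ (m + 1) := Nat.pow_le_pow_right (by norm_num) (by omega)
    obtain ⟨x, hx⟩ : ∃ x, 2 ^ (m + 1) = x + 2 := ⟨2 ^ (m + 1) - 2, by omega⟩
    rw [hx]
    nlinarith [Nat.zero_le (x * sz z)]
  have h4 : pE.eval (sz (List.replicate (2 ^ m) (), z)) ≤
      (2 ^ (m + 1)) ^ pE.natDegree * pE.eval (2 * K + 4 * k + 4 * (bits F).length + 7) := by
    calc pE.eval (sz (List.replicate (2 ^ m) (), z)) ≤ pE.eval (2 ^ (m + 1) *
          (2 * K + 4 * k + 4 * (bits F).length + 7)) := by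
          refine eval_mono pE ?_
          rw [h1]
          exact h3.trans (Nat.mul_le_mul_left _ h2)
      _ ≤ _ := eval_mul_le pE _ _ Nat.one_le_two_pow
  have h5 : (2 ^ (m + 1)) ^ pE.natDegree ≤ 2 ^ K := by
    rw [← pow_mul, hK]
    unfold kD
    refine Nat.pow_le_pow_right (by norm_num) ?_
    rw [mul_comm]
    exact Nat.mul_le_mul_right _ (by omega)
  have h6 : 2 ^ m ≤ 2 ^ K := by
    refine Nat.pow_le_pow_right (by norm_num) ?_
    rw [hK]
    unfold kD
    nlinarith
  calc _ ≤ 32 * 2 ^ K + 2 ^ K * pE.eval (2 * K + 4 * k + 4 * (bits F).length + 7) :=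
        Nat.add_le_add (Nat.mul_le_mul_left _ h6) (h4.trans (Nat.mul_le_mul_right _ h5))
    _ = _ := by ring

/-! ### bounds by polynomials -/

theorem mOf_lt (F : List (List ℕ)) : mOf F ≤ (bits F).length := by
  have h1 : mOf F ≤ F.length := List.length_filter_le _ _
  have h2 := length_lt_sz F
  rw [bits_length]
  omega

/-- polynomial bounding the number of special coins -/
noncomputable def qK (D : ℕ) : Polynomial ℕ := Polynomial.C D * (Polynomial.X + 1)

/-- polynomial bounding the number of coins -/
noncomputable def qk (D : ℕ) : Polynomial ℕ :=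
  qK D + Polynomial.C 4 * ((Polynomial.C 2 * Polynomial.X + 1) * (Polynomial.C 2 * Polynomial.X + 1)) *
    (qK D + Polynomial.X) * (Polynomial.C 2 * Polynomial.X + 1)

theorem kD_le (D : ℕ) (F : List (List ℕ)) : kD D F ≤ (qK D).eval (bits F).length := by
  have h := mOf_lt F
  unfold kD qK
  simp only [Polynomial.eval_mul, Polynomial.eval_add, Polynomial.eval_C, Polynomial.eval_X,
    Polynomial.eval_one]
  exact Nat.mul_le_mul_left _ (by omega)

theorem kOf_le (D : ℕ) (F : List (List ℕ)) :
    kOf (kD D F) F ≤ (qk D).eval (bits F).length := by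
  have h := mOf_lt F
  have h1 := kD_le D F
  have h2 := aOf_le F
  have h3 := four_pow_le F
  unfold kOf TOf qk
  simp only [Polynomial.eval_mul, Polynomial.eval_add, Polynomial.eval_C, Polynomial.eval_X,
    Polynomial.eval_one]
  refine Nat.add_le_add h1 (Nat.mul_le_mul (Nat.mul_le_mul (h3.trans ?_) (by omega)) (by omega))
  exact Nat.mul_le_mul_left _ (Nat.mul_le_mul (by omega) (by omega))

/-- the size of the input is bounded by a polynomial in the number of faces, if the vertices are
numbered reasonably -/
theorem size_input {Δ : PreAbstractSimplicialComplex ℕ} {F : List (List ℕ)}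
    (hF : ListsFaces F Δ) (hv : ∀ s ∈ Δ, ∀ v ∈ s, v < F.length) :
    (bits F).length ≤ F.length * (F.length * (4 * F.length + 2) + 2) + 1 := by
  rw [bits_length]
  refine sz_le_length_mul F (F.length * (4 * F.length + 2) + 1) fun l hl => ?_
  have hmem : l.toFinset ∈ Δ := (hF.2.2 _).2 ⟨l, hl, rfl⟩
  have hvl : ∀ v ∈ l, v < F.length := fun v hv' => hv _ hmem v (List.mem_toFinset.2 hv')
  have h1 := sz_le_length_mul l (4 * F.length + 1) (fun v hv' => by
    have e1 := sz_nat_le v
    have e2 := NPC.Poly.size_le_self v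
    have e3 := hvl v hv'
    omega)
  have h2 : l.length ≤ F.length := by
    have h3 : l.toFinset ⊆ Finset.range F.length := fun v hv' =>
      Finset.mem_range.2 (hvl v (List.mem_toFinset.1 hv'))
    have h4 := Finset.card_le_card h3
    rw [card_toFinset (hF.2.1 l hl), Finset.card_range] at h4
    exact h4
  have h3 : l.length * (4 * F.length + 1 + 1) ≤ F.length * (4 * F.length + 2) :=
    Nat.mul_le_mul_right _ h2
  omega

/-! ### the main theorem -/

theorem exact_sampler : ∃ (M : CoinMachine) (p : Polynomial ℕ),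
    ∀ (d : ℕ) (Δ : PreAbstractSimplicialComplex ℕ) (F : List (List ℕ)),
      1 ≤ d → HasDim Δ d → ListsFaces F Δ →
      ({Υ | IsTree Δ d Υ}.Finite ∧ {Υ | IsTree Δ d Υ}.Nonempty) ∧
      (∀ Υ, IsTree Δ d Υ → outputProb M (bits F) {y | ∃ L, ListsFaces L Υ ∧ y = bits L} =
        1 / ({Υ | IsTree Δ d Υ}.ncard : ENNReal)) ∧
      M.expectedTime (bits F) ≤ (p.eval (bits F).length : ℕ) ∧
      ((∀ s ∈ Δ, ∀ v ∈ s, v < F.length) → M.expectedTime (bits F) ≤ (p.eval F.length : ℕ)) := by
  classical
  obtain ⟨cmE, pE, hE⟩ := rawE poly_fE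
  set D := pE.natDegree + 1 with hD
  obtain ⟨cmA, pA, hA⟩ := rawP (poly_fA D)
  obtain ⟨cmB, pB, hB⟩ := rawP (poly_fB D)
  set cmC := roundC cmB cmE with hcmC
  set N₀ := max cmA.bd cmC.bd with hN₀
  set cA : Cmd (Fin (N₀ + 2)) := cmA.map (Fin.ofNat (N₀ + 1 + 1)) with hcA
  set cC : Cmd (Fin (N₀ + 2)) := cmC.map (Fin.ofNat (N₀ + 1 + 1)) with hcC
  have hbd : (roundC cmB cmE).bd ≤ N₀ + 1 + 1 := by
    have : cmC.bd ≤ N₀ := le_max_right _ _
    rw [hcmC] at this
    omega
  have hinp : ∀ x : List Bool, (fun i : Fin (N₀ + 1 + 1) => (NPC.inp x : ℕ → List Bool) i) =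
      (NPC.inp x : Fin (N₀ + 2) → List Bool) := by
    intro x
    funext i
    by_cases hi : i = 0
    · subst hi; simp [NPC.inp]
    · have : (i : ℕ) ≠ 0 := fun h => hi (Fin.ext h)
      simp [NPC.inp, hi, this]
  -- the polynomials
  set pW : Polynomial ℕ := pB.comp (Polynomial.C 2 * qk D + 1 + Polynomial.X) + Polynomial.C 2 +
    (Polynomial.C 32 + pE.comp (Polynomial.C 2 * qK D + Polynomial.C 4 * qk D +
      Polynomial.C 4 * Polynomial.X + Polynomial.C 7)) with hpW
  set pT : Polynomial ℕ := pA + 1 + Polynomial.C 2 * (Polynomial.C 2 * qk D + Polynomial.C 3 + pW)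
    with hpT
  set pQ : Polynomial ℕ := Polynomial.X * (Polynomial.X * (Polynomial.C 4 * Polynomial.X +
    Polynomial.C 2) + Polynomial.C 2) + 1 with hpQ
  clear_value pQ pT pW
  refine ⟨lvMachine cA cC, pT + pT.comp pQ, fun d Δ F hd1 hd hF => ?_⟩
  obtain ⟨rk, B₀, hg, hgood, htrees⟩ := trees_eq hd1 hd hF
  set x := bits F with hx
  set K := kD D F with hK
  set k := kOf K F with hk
  set P1 := pB.eval (2 * k + 1 + x.length) + 2 with hP1
  set W2 := 32 + pE.eval (2 * K + 4 * k + 4 * x.length + 7) with hW2
  set τ : List Bool → ℕ := fun r => if (r.take K).any (fun b => b) = true then P1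
    else P1 + 2 ^ K * W2 with hτ
  obtain ⟨tA, htA, hrunA⟩ := hA x
  have hspec : SpecV cA cC x x k tA τ (GO K F) := by
    refine ⟨?_, ?_⟩
    · have h1 := hrunA.restrict (n := N₀ + 1) (by omega)
      rw [hinp, hinp] at h1
      have h2 : fA D x = head k x := by
        unfold fA
        rw [hx, decF_bits]
      rw [← h2]
      exact h1
    · intro r hr
      have hlenp : (pairBits r x).length = 2 * k + 1 + x.length := by
        rw [length_pairBits, hr]
      change ∃ t ≤ τ r, Run cC (NPC.inp (pairBits r x)) (NPC.inp (resF D F r)) t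
      have h1 := hB (pairBits r x)
      rw [hlenp] at h1
      by_cases hc : (r.take K).any (fun b => b) = true
      · rw [fB_common hc] at h1
        obtain ⟨t, ht, h2⟩ := roundC_common (c₂ := cmE) h1
        refine ⟨t, ?_, ?_⟩
        · rw [hτ]
          simp only
          rw [if_pos hc]
          exact ht
        · have h3 := h2.restrict (n := N₀ + 1) hbd
          rw [hinp, hinp] at h3
          exact h3
      · rw [fB_rare hc] at h1
        have h4 := hE (List.replicate (2 ^ mOf F) (),
          ((List.replicate K (), r, x) : Zt))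
        rw [fE_rare hc] at h4
        obtain ⟨t, ht, h2⟩ := roundC_rare h1 h4
        refine ⟨t, ?_, ?_⟩
        · rw [hτ]
          simp only
          rw [if_neg hc]
          have h5 := rare_cost pE F r hr
          rw [← hD, ← hK, ← hx, ← hW2] at h5
          omega
        · have h3 := h2.restrict (n := N₀ + 1) hbd
          rw [hinp, hinp] at h3
          exact h3
  have hK1 : 1 ≤ K := by
    rw [hK, hD]
    unfold kD
    exact Nat.mul_pos (by omega) (by omega)
  -- counting
  have hsome : ∀ r, (GO K F r).isSome = (GS K F r).isSome := by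
    intro r
    unfold GO
    cases GS K F r <;> rfl
  have hhalf := half_GS hK1 hgood hg
  have hcount := count_GS_some K hgood hg
  set mx := maxD (distF K F) with hmx
  set N := (bases (IndV (cols F)) rk).card with hN
  have hNpos : 0 < N := Finset.card_pos.2 ⟨B₀, hgood.base⟩
  have hapos : 0 < (2 ^ K - 1) * mx := by
    refine Nat.mul_pos ?_ ?_
    · have : 2 ≤ 2 ^ K := by
        calc 2 = 2 ^ 1 := rfl
          _ ≤ 2 ^ K := Nat.pow_le_pow_right (by norm_num) hK1
      omega
    · have h1 := (weights_sum K hgood hg).2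
      rw [← hmx, ← hN] at h1
      have h2 : 0 < 2 ^ (TOf K F * (2 * aOf F + 1)) := by positivity
      rcases Nat.eq_zero_or_pos mx with h3 | h3
      · rw [h3, mul_zero] at h1
        omega
      · exact h3
  have hinj := treeOf_injective hd hF
  have hcard : {Υ | IsTree Δ d Υ}.ncard = N := by
    rw [htrees, Set.ncard_image_of_injective _ hinj, Set.ncard_coe_finset]
  have htime : ∀ n : ℕ, x.length ≤ n →
      (lvMachine cA cC).expectedTime x ≤ (pT.eval n : ℕ) := by
    intro n hn
    apply CoinMachine.expectedTime_le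
    intro N'
    have h0 : sL k (fun r => if (GO K F r).isSome then 1 else 0) =
        sL k (fun r => if (GS K F r).isSome then 1 else 0) := by
      refine sL_congr fun r _ => ?_
      rw [hsome]
    have h1 := lv_timeV hspec (W := P1 + W2) (by rw [h0]; exact hhalf)
      (le_of_eq (sum_tau K (TOf K F * (2 * aOf F + 1)) P1 W2)) N'
    refine h1.trans ?_
    have e1 : tA ≤ pA.eval n := htA.trans (eval_mono pA hn)
    have e2 : k ≤ (qk D).eval n := (kOf_le D F).trans (eval_mono _ hn)
    have e3 : K ≤ (qK D).eval n := (kD_le D F).trans (eval_mono _ hn)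
    have e4 : P1 ≤ pB.eval (2 * (qk D).eval n + 1 + n) + 2 := by
      rw [hP1]
      exact Nat.add_le_add_right (eval_mono pB (by omega)) 2
    have e5 : W2 ≤ 32 + pE.eval (2 * (qK D).eval n + 4 * (qk D).eval n + 4 * n + 7) := by
      rw [hW2]
      exact Nat.add_le_add_left (eval_mono pE (by omega)) 32
    have h2 : tA + 1 + 2 * (2 * k + 3 + (P1 + W2)) ≤ pT.eval n := by
      rw [hpT, hpW]
      simp only [Polynomial.eval_add, Polynomial.eval_mul, Polynomial.eval_C, Polynomial.eval_X,
        Polynomial.eval_one, Polynomial.eval_comp]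
      omega
    exact_mod_cast h2
  refine ⟨⟨?_, ?_⟩, ?_, ?_, ?_⟩
  · rw [htrees]
    exact (Finset.finite_toSet _).image _
  · rw [htrees]
    exact ⟨_, B₀, hgood.base, rfl⟩
  · intro Υ hΥ
    have hmem : Υ ∈ treeOf Δ d hd F '' (bases (IndV (cols F)) rk : Set (Finset _)) := by
      rw [← htrees]; exact hΥ
    obtain ⟨B, hBm, rfl⟩ := hmem
    have hBm' : B ∈ bases (IndV (cols F)) rk := hBm
    set Y : Set (List Bool) := {y | ∃ L, ListsFaces L (treeOf Δ d hd F B) ∧ y = bits L} with hY
    have ha : sL k (fun r => hitN Y (GO K F r)) = (2 ^ K - 1) * mx := by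
      rw [← count_GS K hgood hg hBm']
      refine sL_congr fun r _ => ?_
      unfold GO
      cases hGS : GS K F r with
      | none => simp [hitN]
      | some S =>
        obtain ⟨B', hB', rfl⟩ := GS_some K hgood hg hGS
        simp only [Option.map_some, hitN, Option.some.injEq]
        have hiff : bits (outF F (ofF B')) ∈ Y ↔ ofF B' = ofF B := by
          constructor
          · rintro ⟨L, hL, hL2⟩
            have hL3 := bits_injective hL2
            rw [← hL3] at hL
            have h1 := (lists_outF hd hF B').unique hL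
            rw [hinj h1]
          · intro h
            rw [h]
            exact ⟨_, lists_outF hd hF B, rfl⟩
        by_cases h : ofF B' = ofF B
        · rw [if_pos (hiff.2 h), if_pos h]
        · rw [if_neg (fun h' => h (hiff.1 h')), if_neg h]
    have hc : sL k (fun r => if (GO K F r).isSome then 1 else 0) = N * ((2 ^ K - 1) * mx) := by
      rw [← hcount]
      refine sL_congr fun r _ => ?_
      rw [hsome]
    rw [lv_prob hspec Y ha hc (Nat.mul_pos hNpos hapos), hcard]
    have hane : (((2 ^ K - 1) * mx : ℕ) : ENNReal) ≠ 0 := by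
      exact_mod_cast hapos.ne'
    rw [Nat.cast_mul N, ENNReal.div_eq_inv_mul, ENNReal.mul_inv (Or.inr (ENNReal.natCast_ne_top _))
      (Or.inr hane), mul_assoc, ENNReal.inv_mul_cancel hane (ENNReal.natCast_ne_top _), mul_one,
      one_div]
  · refine (htime x.length le_rfl).trans ?_
    have : pT.eval x.length ≤ (pT + pT.comp pQ).eval x.length := by
      rw [Polynomial.eval_add]; exact Nat.le_add_right _ _
    exact_mod_cast this
  · intro hv
    have h1 := size_input hF hv
    refine (htime _ h1).trans ?_
    have : pT.eval (F.length * (F.length * (4 * F.length + 2) + 2) + 1) ≤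
        (pT + pT.comp pQ).eval F.length := by
      rw [Polynomial.eval_add, Polynomial.eval_comp, hpQ]
      simp only [Polynomial.eval_add, Polynomial.eval_mul, Polynomial.eval_C, Polynomial.eval_X,
        Polynomial.eval_one]
      exact Nat.le_add_left _ _
    exact_mod_cast this

end Pool.Agent.E8helper91.Samp
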