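import Pool.Agent.E8helper91.Samp.Alov

/-!
# From local to global: a Poincaré inequality for the exchange graph of the bases of a matroid
-/

set_option autoImplicit false

namespace Pool.Agent.E8helper91.Samp

open Finset

variable {α : Type*} [Fintype α] [DecidableEq α]

/-- The second moment of level `k` (not normalised). -/
noncomputable def V (Ind : Finset α → Prop) (r : ℕ) (f : Finset α → ℝ) (k : ℕ) : ℝ :=
  ∑ I ∈ univ.filter (fun I : Finset α => I.card = k), F Ind r f I ^ 2 / w Ind r I

variable {Ind : Finset α → Prop} {r : ℕ}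

theorem w_mul_div (hI : IndSys Ind) (hr : HasRank Ind r) (f : Finset α → ℝ) (I : Finset α) :
    w Ind r I * (F Ind r f I / w Ind r I) = F Ind r f I := by
  by_cases h : w Ind r I = 0
  · rw [h, F_eq_zero hI f ((w_eq_zero_iff hI hr).1 h)]; simp
  · field_simp

theorem w_mul_div_sq (hI : IndSys Ind) (hr : HasRank Ind r) (f : Finset α → ℝ) (I : Finset α) :
    w Ind r I * (F Ind r f I / w Ind r I) ^ 2 = F Ind r f I ^ 2 / w Ind r I := by
  by_cases h : w Ind r I = 0
  · rw [h]; simp
  · field_simp

theorem local_at (hI : IndSys Ind) (hr : HasRank Ind r) (f : Finset α → ℝ) (J : Finset α)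
    (hJ : J.card + 2 ≤ r) :
    2 * (((r : ℝ) - J.card - 1) * ∑ e ∈ univ.filter (fun e => e ∉ J),
        F Ind r f (insert e J) ^ 2 / w Ind r (insert e J)) ≤
      ∑ e ∈ univ.filter (fun e => e ∉ J), ∑ g ∈ univ.filter (fun g => g ∉ insert e J),
        F Ind r f (insert g (insert e J)) ^ 2 / w Ind r (insert g (insert e J)) +
      ((r : ℝ) - J.card - 1) * ((r : ℝ) - J.card) * (F Ind r f J ^ 2 / w Ind r J) := by
  classical
  have hJ' : (J.card : ℝ) + 2 ≤ r := by exact_mod_cast hJ
  have hQ : QB (A Ind r J) := qb_link hI hr (r - (J.card + 2)) J (by omega)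
  set d : α → ℝ := fun e => ∑ g, A Ind r J e g with hd
  set g : α → ℝ := fun e => F Ind r f (insert e J) / w Ind r (insert e J) with hg
  set h : α → α → ℝ := fun e e' =>
    F Ind r f (insert e (insert e' J)) / w Ind r (insert e (insert e' J)) with hh
  have hdeg : ∀ e, e ∉ J → d e = ((r : ℝ) - J.card - 1) * w Ind r (insert e J) :=
    fun e he => deg_eq J he
  have hdeg0 : ∀ e, e ∈ J → d e = 0 := fun e he => deg_mem he
  have hsum : ∀ y : α → ℝ, ∑ e, d e * y e = ∑ e ∈ univ.filter (fun e => e ∉ J), d e * y e := by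
    intro y
    rw [Finset.sum_filter]
    refine Finset.sum_congr rfl fun e _ => ?_
    by_cases he : e ∈ J
    · rw [if_neg (not_not.2 he), hdeg0 e he, zero_mul]
    · rw [if_pos he]
  have key := local_ineq (A_symm J) (A_nonneg J) hQ h (fun e e' => by
      simp only [hh]; rw [Finset.insert_comm]) d g (fun e => rfl) (by
      intro e
      by_cases he : e ∈ J
      · rw [hdeg0 e he, zero_mul]
        symm
        refine Finset.sum_eq_zero fun e' _ => ?_
        rw [A_of_mem he, zero_mul]
      · rw [hdeg e he, sum_A_mul J he]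
        have h1 : ∀ e' ∈ univ.filter (fun e' => e' ∉ insert e J),
            w Ind r (insert e' (insert e J)) * h e e' = F Ind r f (insert e' (insert e J)) := by
          intro e' _
          simp only [hh]
          rw [Finset.insert_comm e e' J]
          exact w_mul_div hI hr f _
        rw [Finset.sum_congr rfl h1, F_count, card_insert_of_notMem he, mul_assoc, hg]
        simp only
        rw [w_mul_div hI hr f]
        push_cast; ring)
  have e1 : ∑ e, d e * g e ^ 2 = ((r : ℝ) - J.card - 1) * ∑ e ∈ univ.filter (fun e => e ∉ J),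
      F Ind r f (insert e J) ^ 2 / w Ind r (insert e J) := by
    rw [hsum (fun e => g e ^ 2), Finset.mul_sum]
    refine Finset.sum_congr rfl fun e he => ?_
    rw [hdeg e (mem_filter.1 he).2, mul_assoc, hg]
    simp only
    rw [w_mul_div_sq hI hr f]
  have e2 : ∑ e, ∑ e', A Ind r J e e' * h e e' ^ 2 =
      ∑ e ∈ univ.filter (fun e => e ∉ J), ∑ g ∈ univ.filter (fun g => g ∉ insert e J),
        F Ind r f (insert g (insert e J)) ^ 2 / w Ind r (insert g (insert e J)) := by
    rw [Finset.sum_filter]
    refine Finset.sum_congr rfl fun e _ => ?_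
    by_cases he : e ∈ J
    · rw [if_neg (not_not.2 he)]
      refine Finset.sum_eq_zero fun e' _ => ?_
      rw [A_of_mem he, zero_mul]
    · rw [if_pos he, sum_A_mul J he]
      refine Finset.sum_congr rfl fun e' _ => ?_
      simp only [hh]
      rw [Finset.insert_comm e e' J]
      exact w_mul_div_sq hI hr f _
  have e3 : ∑ e, d e * g e = ((r : ℝ) - J.card - 1) * (((r : ℝ) - J.card) * F Ind r f J) := by
    rw [hsum, ← F_count, Finset.mul_sum]
    refine Finset.sum_congr rfl fun e he => ?_
    rw [hdeg e (mem_filter.1 he).2, mul_assoc, hg]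
    simp only
    rw [w_mul_div hI hr f]
  have e4 : ∑ e, d e = ((r : ℝ) - J.card - 1) * (((r : ℝ) - J.card) * w Ind r J) := by
    have := hsum (fun _ => 1)
    simp only [mul_one] at this
    rw [this]
    unfold w
    rw [← F_count, Finset.mul_sum]
    refine Finset.sum_congr rfl fun e he => ?_
    rw [hdeg e (mem_filter.1 he).2]
    rfl
  rw [e1, e2, e3, e4] at key
  refine key.trans (le_of_eq ?_)
  congr 1
  have h1 : (r : ℝ) - J.card - 1 ≠ 0 := by
    have : 0 < (r : ℝ) - J.card - 1 := by linarith
    exact this.ne'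
  have h2 : (r : ℝ) - J.card ≠ 0 := by
    have : 0 < (r : ℝ) - J.card := by linarith
    exact this.ne'
  by_cases hw : w Ind r J = 0
  · rw [hw]; simp
  · field_simp

/-- Three consecutive levels. -/
theorem levels (hI : IndSys Ind) (hr : HasRank Ind r) (f : Finset α → ℝ) (j : ℕ)
    (hj : j + 2 ≤ r) :
    2 * (((r : ℝ) - j - 1) * (j + 1) * V Ind r f (j + 1)) ≤
      (j + 2) * (j + 1) * V Ind r f (j + 2) + ((r : ℝ) - j - 1) * ((r : ℝ) - j) * V Ind r f j := by
  classical
  have h1 : ∑ J ∈ univ.filter (fun J : Finset α => J.card = j),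
      2 * (((r : ℝ) - J.card - 1) * ∑ e ∈ univ.filter (fun e => e ∉ J),
        F Ind r f (insert e J) ^ 2 / w Ind r (insert e J)) ≤
      ∑ J ∈ univ.filter (fun J : Finset α => J.card = j),
      (∑ e ∈ univ.filter (fun e => e ∉ J), ∑ g ∈ univ.filter (fun g => g ∉ insert e J),
        F Ind r f (insert g (insert e J)) ^ 2 / w Ind r (insert g (insert e J)) +
      ((r : ℝ) - J.card - 1) * ((r : ℝ) - J.card) * (F Ind r f J ^ 2 / w Ind r J)) := by
    refine Finset.sum_le_sum fun J hJ => local_at hI hr f J ?_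
    rw [(mem_filter.1 hJ).2]; exact hj
  have h2 : ∑ J ∈ univ.filter (fun J : Finset α => J.card = j),
      2 * (((r : ℝ) - J.card - 1) * ∑ e ∈ univ.filter (fun e => e ∉ J),
        F Ind r f (insert e J) ^ 2 / w Ind r (insert e J)) =
      2 * (((r : ℝ) - j - 1) * (j + 1) * V Ind r f (j + 1)) := by
    have := sum_levels j (fun I => F Ind r f I ^ 2 / w Ind r I)
    unfold V
    rw [mul_assoc ((r : ℝ) - j - 1), ← this, Finset.mul_sum, Finset.mul_sum]
    refine Finset.sum_congr rfl fun J hJ => ?_
    rw [(mem_filter.1 hJ).2]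
  have h3 : ∑ J ∈ univ.filter (fun J : Finset α => J.card = j),
      ∑ e ∈ univ.filter (fun e => e ∉ J), ∑ g ∈ univ.filter (fun g => g ∉ insert e J),
        F Ind r f (insert g (insert e J)) ^ 2 / w Ind r (insert g (insert e J)) =
      (j + 2) * (j + 1) * V Ind r f (j + 2) := by
    have a1 := sum_levels j (fun I => ∑ g ∈ univ.filter (fun g => g ∉ I),
      F Ind r f (insert g I) ^ 2 / w Ind r (insert g I))
    rw [a1]
    have a2 := sum_levels (j + 1) (fun I => F Ind r f I ^ 2 / w Ind r I)
    rw [a2]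
    unfold V
    push_cast
    ring
  have h4 : ∑ J ∈ univ.filter (fun J : Finset α => J.card = j),
      ((r : ℝ) - J.card - 1) * ((r : ℝ) - J.card) * (F Ind r f J ^ 2 / w Ind r J) =
      ((r : ℝ) - j - 1) * ((r : ℝ) - j) * V Ind r f j := by
    unfold V
    rw [Finset.mul_sum]
    refine Finset.sum_congr rfl fun J hJ => ?_
    rw [(mem_filter.1 hJ).2]
  rw [Finset.sum_add_distrib, h2, h3, h4] at h1
  exact h1

/-- the normalised second moments are convex -/
theorem convex_levels (hI : IndSys Ind) (hr : HasRank Ind r) (f : Finset α → ℝ) (j : ℕ)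
    (hj : j + 2 ≤ r) :
    2 * (V Ind r f (j + 1) / (r.choose (j + 1))) ≤
      V Ind r f (j + 2) / (r.choose (j + 2)) + V Ind r f j / (r.choose j) := by
  have h := levels hI hr f j hj
  have hr' : (j : ℝ) + 2 ≤ r := by exact_mod_cast hj
  have c0 : (0 : ℝ) < r.choose j := by exact_mod_cast Nat.choose_pos (by omega)
  have c1 : (0 : ℝ) < r.choose (j + 1) := by exact_mod_cast Nat.choose_pos (by omega)
  have c2 : (0 : ℝ) < r.choose (j + 2) := by exact_mod_cast Nat.choose_pos (by omega)
  have e1 : (r.choose (j + 1) : ℝ) * (j + 1) = r.choose j * ((r : ℝ) - j) := by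
    have := Nat.choose_succ_right_eq r j
    have h2 : ((r - j : ℕ) : ℝ) = (r : ℝ) - j := by rw [Nat.cast_sub (by omega)]
    rw [← h2]
    exact_mod_cast this
  have e2 : (r.choose (j + 2) : ℝ) * (j + 2) = r.choose (j + 1) * ((r : ℝ) - j - 1) := by
    have := Nat.choose_succ_right_eq r (j + 1)
    have h2 : ((r - (j + 1) : ℕ) : ℝ) = (r : ℝ) - j - 1 := by
      rw [Nat.cast_sub (by omega)]; push_cast; ring
    rw [← h2]
    have h3 : ((r.choose (j + 1 + 1) * (j + 1 + 1) : ℕ) : ℝ) =
        ((r.choose (j + 1) * (r - (j + 1)) : ℕ) : ℝ) := by exact_mod_cast this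
    push_cast at h3 ⊢
    linarith
  set E0 := V Ind r f j / (r.choose j) with hE0
  set E1 := V Ind r f (j + 1) / (r.choose (j + 1)) with hE1
  set E2 := V Ind r f (j + 2) / (r.choose (j + 2)) with hE2
  have v0 : V Ind r f j = r.choose j * E0 := by rw [hE0]; field_simp
  have v1 : V Ind r f (j + 1) = r.choose (j + 1) * E1 := by rw [hE1]; field_simp
  have v2 : V Ind r f (j + 2) = r.choose (j + 2) * E2 := by rw [hE2]; field_simp
  rw [v0, v1, v2] at h
  have h5 : (((r : ℝ) - j - 1) * (j + 1) * r.choose (j + 1)) * (2 * E1) ≤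
      (((r : ℝ) - j - 1) * (j + 1) * r.choose (j + 1)) * (E2 + E0) := by
    have a1 : (j + 2 : ℝ) * (j + 1) * (r.choose (j + 2) * E2) =
        ((r : ℝ) - j - 1) * (j + 1) * r.choose (j + 1) * E2 := by
      calc _ = (r.choose (j + 2) * (j + 2) : ℝ) * (j + 1) * E2 := by ring
        _ = _ := by rw [e2]; ring
    have a2 : ((r : ℝ) - j - 1) * ((r : ℝ) - j) * (r.choose j * E0) =
        ((r : ℝ) - j - 1) * (j + 1) * r.choose (j + 1) * E0 := by
      calc _ = ((r : ℝ) - j - 1) * (r.choose j * ((r : ℝ) - j)) * E0 := by ring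
        _ = _ := by rw [← e1]; ring
    rw [a1, a2] at h
    linarith
  refine le_of_mul_le_mul_left h5 ?_
  have : 0 < (r : ℝ) - j - 1 := by linarith
  positivity

/-- the last two levels against the first one -/
theorem gap_levels (hI : IndSys Ind) (hr : HasRank Ind r) (f : Finset α → ℝ) (hr1 : 1 ≤ r) :
    V Ind r f r - V Ind r f 0 ≤ r * V Ind r f r - V Ind r f (r - 1) := by
  set E : ℕ → ℝ := fun k => V Ind r f k / (r.choose k) with hE
  have hconv : ∀ j, j + 2 ≤ r → E (j + 1) - E j ≤ E (j + 2) - E (j + 1) := by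
    intro j hj
    have := convex_levels hI hr f j hj
    simp only [hE]
    linarith
  have hlast : ∀ k j, j + 1 + k = r → E (j + 1) - E j ≤ E r - E (r - 1) := by
    intro k
    induction k with
    | zero =>
      intro j hj
      have h1 : j + 1 = r := by omega
      have h2 : r - 1 = j := by omega
      rw [h2, h1]
    | succ k ih =>
      intro j hj
      have h1 := hconv j (by omega)
      have h2 := ih (j + 1) (by omega)
      exact h1.trans h2
  have hsum : E r - E 0 ≤ r * (E r - E (r - 1)) := by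
    have h1 : E r - E 0 = ∑ j ∈ range r, (E (j + 1) - E j) := by
      rw [Finset.sum_range_sub]
    rw [h1]
    calc ∑ j ∈ range r, (E (j + 1) - E j) ≤ ∑ j ∈ range r, (E r - E (r - 1)) := by
          refine Finset.sum_le_sum fun j hj => ?_
          rw [Finset.mem_range] at hj
          exact hlast (r - (j + 1)) j (by omega)
      _ = r * (E r - E (r - 1)) := by rw [Finset.sum_const, card_range, nsmul_eq_mul]
  have e0 : E 0 = V Ind r f 0 := by simp [hE]
  have e1 : E r = V Ind r f r := by simp [hE]
  have e2 : (r : ℝ) * E (r - 1) = V Ind r f (r - 1) := by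
    simp only [hE]
    have : r.choose (r - 1) = r := by
      rw [Nat.choose_symm_of_eq_add (by omega : r = (r - 1) + 1), Nat.choose_one_right]
    rw [this]
    have : (r : ℝ) ≠ 0 := by
      have : (1 : ℝ) ≤ r := by exact_mod_cast hr1
      linarith
    field_simp
  rw [e0, e1] at hsum
  have : (r : ℝ) * (V Ind r f r - E (r - 1)) = r * V Ind r f r - V Ind r f (r - 1) := by
    rw [mul_sub, e2]
  linarith

/-- general double counting: a set and an element outside against a set and an element inside -/
theorem sum_pairs (j : ℕ) (ψ : Finset α → α → ℝ) :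
    ∑ J ∈ univ.filter (fun J : Finset α => J.card = j), ∑ e ∈ univ.filter (fun e => e ∉ J), ψ J e =
      ∑ I ∈ univ.filter (fun I : Finset α => I.card = j + 1), ∑ e ∈ I, ψ (I.erase e) e := by
  classical
  rw [Finset.sum_sigma', Finset.sum_sigma']
  refine Finset.sum_bij' (fun p _ => ⟨insert p.2 p.1, p.2⟩) (fun p _ => ⟨p.1.erase p.2, p.2⟩)
    ?_ ?_ ?_ ?_ ?_
  · rintro ⟨J, e⟩ h
    simp only [mem_sigma, mem_filter, mem_univ, true_and] at h ⊢
    exact ⟨by rw [card_insert_of_notMem h.2, h.1], mem_insert_self _ _⟩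
  · rintro ⟨I, e⟩ h
    simp only [mem_sigma, mem_filter, mem_univ, true_and] at h ⊢
    exact ⟨by rw [card_erase_of_mem h.2, h.1]; rfl, notMem_erase _ _⟩
  · rintro ⟨J, e⟩ h
    simp only [mem_sigma, mem_filter, mem_univ, true_and] at h ⊢
    rw [erase_insert h.2]
  · rintro ⟨I, e⟩ h
    simp only [mem_sigma, mem_filter, mem_univ, true_and] at h ⊢
    rw [insert_erase h.2]
  · rintro ⟨J, e⟩ h
    simp only [mem_sigma, mem_filter, mem_univ, true_and] at h ⊢
    rw [erase_insert h.2]

open Classical in
/-- The exchange move: replace `i` by `j` if the result is a basis. -/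
noncomputable def mv (Ind : Finset α → Prop) (r : ℕ) (B : Finset α) (i j : α) : Finset α :=
  if i ∈ B ∧ j ∉ B ∧ insert j (B.erase i) ∈ bases Ind r then insert j (B.erase i) else B

theorem V_top (hI : IndSys Ind) (f : Finset α → ℝ) :
    V Ind r f r = ∑ B ∈ bases Ind r, f B ^ 2 := by
  classical
  unfold V
  have h1 : bases Ind r ⊆ univ.filter (fun I : Finset α => I.card = r) := by
    intro B hB
    rw [mem_filter]
    exact ⟨mem_univ _, (mem_bases.1 hB).2⟩
  rw [← Finset.sum_subset h1]
  · refine Finset.sum_congr rfl fun B hB => ?_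
    rw [mem_bases] at hB
    unfold w
    rw [w_card_eq hB.1 hB.2, w_card_eq hB.1 hB.2, div_one]
  · intro I hI1 hI2
    have : ¬ Ind I := fun h => hI2 (mem_bases.2 ⟨h, (mem_filter.1 hI1).2⟩)
    rw [F_eq_zero hI f this]
    simp

theorem V_bot (f : Finset α → ℝ) :
    V Ind r f 0 = (∑ B ∈ bases Ind r, f B) ^ 2 / (bases Ind r).card := by
  classical
  unfold V
  have h1 : univ.filter (fun I : Finset α => I.card = 0) = {∅} := by
    ext I; simp
  rw [h1, sum_singleton]
  unfold w F
  simp

/-- **Poincaré inequality** for the exchange graph of the bases of a matroid. -/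
theorem variance_le (hI : IndSys Ind) (hr : HasRank Ind r) (f : Finset α → ℝ) :
    ∑ B ∈ bases Ind r, f B ^ 2 - (∑ B ∈ bases Ind r, f B) ^ 2 / (bases Ind r).card ≤
      (1 / 2) * ∑ B ∈ bases Ind r, ∑ i, ∑ j, (f B - f (mv Ind r B i j)) ^ 2 := by
  classical
  have hR0 : 0 ≤ (1 / 2 : ℝ) * ∑ B ∈ bases Ind r, ∑ i, ∑ j, (f B - f (mv Ind r B i j)) ^ 2 := by
    have : 0 ≤ ∑ B ∈ bases Ind r, ∑ i, ∑ j, (f B - f (mv Ind r B i j)) ^ 2 :=
      Finset.sum_nonneg fun B _ => Finset.sum_nonneg fun i _ => Finset.sum_nonneg fun j _ =>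
        sq_nonneg _
    linarith
  rw [← V_top hI, ← V_bot]
  rcases Nat.eq_zero_or_pos r with h0 | hpos
  · subst h0
    rw [sub_self]; exact hR0
  refine (gap_levels hI hr f hpos).trans ?_
  obtain ⟨s, rfl⟩ : ∃ s, r = s + 1 := ⟨r - 1, by omega⟩
  simp only [Nat.add_sub_cancel]
  -- the difference as a sum over the sets of size `s`
  have h1 : ((s + 1 : ℕ) : ℝ) * V Ind (s + 1) f (s + 1) - V Ind (s + 1) f s =
      ∑ I ∈ univ.filter (fun I : Finset α => I.card = s),
        (∑ e ∈ univ.filter (fun e => e ∉ I),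
          F Ind (s + 1) f (insert e I) ^ 2 / w Ind (s + 1) (insert e I) -
          F Ind (s + 1) f I ^ 2 / w Ind (s + 1) I) := by
    have a1 := sum_levels s (fun I => F Ind (s + 1) f I ^ 2 / w Ind (s + 1) I)
    rw [Finset.sum_sub_distrib, a1]
    unfold V
    push_cast
    ring
  rw [h1]
  -- one set
  have h2 : ∀ I ∈ univ.filter (fun I : Finset α => I.card = s),
      (∑ e ∈ univ.filter (fun e => e ∉ I),
          F Ind (s + 1) f (insert e I) ^ 2 / w Ind (s + 1) (insert e I) -
          F Ind (s + 1) f I ^ 2 / w Ind (s + 1) I) ≤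
      (1 / 2) * ∑ e ∈ univ.filter (fun e => e ∉ I), ∑ j,
        (if insert e I ∈ bases Ind (s + 1) then
          (f (insert e I) - f (mv Ind (s + 1) (insert e I) e j)) ^ 2 else 0) := by
    intro I hI'
    have hIc : I.card = s := (mem_filter.1 hI').2
    set C : Finset α := univ.filter (fun e => e ∉ I ∧ Ind (insert e I)) with hC
    have hCmem : ∀ e, e ∈ C ↔ e ∉ I ∧ Ind (insert e I) := by intro e; simp [hC]
    have hCsub : C ⊆ univ.filter (fun e => e ∉ I) := by
      intro e he
      rw [mem_filter]; exact ⟨mem_univ _, ((hCmem e).1 he).1⟩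
    have hbase : ∀ e, e ∉ I → (insert e I ∈ bases Ind (s + 1) ↔ e ∈ C) := by
      intro e he
      rw [mem_bases, hCmem, card_insert_of_notMem he, hIc]
      tauto
    have hFe : ∀ e ∈ C, ∀ f : Finset α → ℝ, F Ind (s + 1) f (insert e I) = f (insert e I) := by
      intro e he f
      rw [hCmem] at he
      exact w_card_eq he.2 (by rw [card_insert_of_notMem he.1, hIc]) f
    have hF0 : ∀ e ∈ univ.filter (fun e => e ∉ I), e ∉ C → ∀ f : Finset α → ℝ,
        F Ind (s + 1) f (insert e I) = 0 := by
      intro e he he' f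
      refine F_eq_zero hI f fun h => he' ((hCmem e).2 ⟨(mem_filter.1 he).2, h⟩)
    have hFI : ∀ f : Finset α → ℝ, F Ind (s + 1) f I = ∑ e ∈ C, f (insert e I) := by
      intro f
      have a1 := F_count (Ind := Ind) (r := s + 1) f I
      rw [hIc] at a1
      have a2 : (((s + 1 : ℕ) : ℝ) - s) = 1 := by push_cast; ring
      rw [a2, one_mul] at a1
      rw [← a1, ← Finset.sum_subset hCsub fun e he he' => hF0 e he he' f]
      exact Finset.sum_congr rfl fun e he => hFe e he f
    have hwI : w Ind (s + 1) I = C.card := by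
      unfold w
      rw [hFI]; simp
    have hL : ∑ e ∈ univ.filter (fun e => e ∉ I),
        F Ind (s + 1) f (insert e I) ^ 2 / w Ind (s + 1) (insert e I) =
        ∑ e ∈ C, f (insert e I) ^ 2 := by
      rw [← Finset.sum_subset hCsub]
      · refine Finset.sum_congr rfl fun e he => ?_
        unfold w
        rw [hFe e he, hFe e he, div_one]
      · intro e he he'
        rw [hF0 e he he' f]; simp
    rw [hL, hFI, hwI]
    set a : α → ℝ := fun e => f (insert e I) with ha
    have hR : ∑ e ∈ univ.filter (fun e => e ∉ I), ∑ j,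
        (if insert e I ∈ bases Ind (s + 1) then
          (f (insert e I) - f (mv Ind (s + 1) (insert e I) e j)) ^ 2 else 0) =
        ∑ e ∈ C, ∑ j ∈ C, (a e - a j) ^ 2 := by
      rw [← Finset.sum_subset hCsub]
      · refine Finset.sum_congr rfl fun e he => ?_
        have heI := ((hCmem e).1 he).1
        have hmv : ∀ j, mv Ind (s + 1) (insert e I) e j =
            if j ∈ C then insert j I else insert e I := by
          intro j
          unfold mv
          rw [erase_insert heI]
          by_cases hj : j ∈ C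
          · by_cases hje : j = e
            · subst hje; rw [if_pos hj]; simp
            · rw [if_pos hj, if_pos]
              refine ⟨mem_insert_self _ _, ?_, ?_⟩
              · rw [mem_insert]; rintro (h' | h')
                exacts [hje h', ((hCmem j).1 hj).1 h']
              · exact (hbase j ((hCmem j).1 hj).1).2 hj
          · rw [if_neg hj, if_neg]
            rintro ⟨_, h1, h2⟩
            rw [mem_insert, not_or] at h1
            exact hj ((hbase j h1.2).1 h2)
        have hb := (hbase e heI).2 he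
        rw [← Finset.sum_subset (Finset.subset_univ C)]
        · refine Finset.sum_congr rfl fun j hj => ?_
          rw [if_pos hb, hmv, if_pos hj]
        · intro j _ hj
          rw [if_pos hb, hmv, if_neg hj]; simp
      · intro e he he'
        refine Finset.sum_eq_zero fun j _ => ?_
        rw [if_neg]
        rw [hbase e (mem_filter.1 he).2]; exact he'
    rw [hR]
    have hexp : ∑ e ∈ C, ∑ j ∈ C, (a e - a j) ^ 2 =
        2 * (C.card * ∑ e ∈ C, a e ^ 2) - 2 * (∑ e ∈ C, a e) ^ 2 := by
      have b1 : ∀ e j, (a e - a j) ^ 2 = a e ^ 2 + a j ^ 2 - 2 * (a e * a j) := by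
        intro e j; ring
      simp only [b1, Finset.sum_sub_distrib, Finset.sum_add_distrib, Finset.sum_const,
        nsmul_eq_mul, ← Finset.mul_sum]
      rw [← Finset.sum_mul]
      ring
    rw [hexp]
    rcases Finset.eq_empty_or_nonempty C with hCe | hCn
    · rw [hCe]; simp
    · have hc1 : (1 : ℝ) ≤ C.card := by exact_mod_cast hCn.card_pos
      have hcs : (∑ e ∈ C, a e) ^ 2 ≤ C.card * ∑ e ∈ C, a e ^ 2 := sq_sum_le_card_mul_sum_sq
      have h5 : (∑ e ∈ C, a e) ^ 2 / C.card ≤ ∑ e ∈ C, a e ^ 2 := by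
        rw [div_le_iff₀ (by linarith)]; linarith
      have h6 : (C.card : ℝ) * ((∑ e ∈ C, a e) ^ 2 / C.card) = (∑ e ∈ C, a e) ^ 2 := by
        field_simp
      nlinarith
  refine (Finset.sum_le_sum h2).trans ?_
  rw [← Finset.mul_sum]
  refine mul_le_mul_of_nonneg_left ?_ (by norm_num)
  have h3 := sum_pairs s (fun I e => ∑ j, (if insert e I ∈ bases Ind (s + 1) then
    (f (insert e I) - f (mv Ind (s + 1) (insert e I) e j)) ^ 2 else 0))
  rw [h3]
  have h4 : ∀ B ∈ univ.filter (fun I : Finset α => I.card = s + 1),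
      ∑ e ∈ B, ∑ j, (if insert e (B.erase e) ∈ bases Ind (s + 1) then
        (f (insert e (B.erase e)) - f (mv Ind (s + 1) (insert e (B.erase e)) e j)) ^ 2 else 0) =
      if B ∈ bases Ind (s + 1) then ∑ e ∈ B, ∑ j, (f B - f (mv Ind (s + 1) B e j)) ^ 2 else 0 := by
    intro B _
    by_cases hB : B ∈ bases Ind (s + 1)
    · rw [if_pos hB]
      refine Finset.sum_congr rfl fun e he => Finset.sum_congr rfl fun j _ => ?_
      rw [insert_erase he, if_pos hB]
    · rw [if_neg hB]
      refine Finset.sum_eq_zero fun e he => Finset.sum_eq_zero fun j _ => ?_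
      rw [insert_erase he, if_neg hB]
  rw [Finset.sum_congr rfl h4, ← Finset.sum_filter]
  have h5 : (univ.filter (fun I : Finset α => I.card = s + 1)).filter
      (fun B => B ∈ bases Ind (s + 1)) = bases Ind (s + 1) := by
    ext B
    simp only [mem_filter, mem_univ, true_and]
    constructor
    · exact fun h => h.2
    · exact fun h => ⟨(mem_bases.1 h).2, h⟩
  rw [h5]
  refine Finset.sum_le_sum fun B _ => ?_
  exact Finset.sum_le_sum_of_subset_of_nonneg (Finset.subset_univ _) fun i _ _ =>
    Finset.sum_nonneg fun j _ => sq_nonneg _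

end Pool.Agent.E8helper91.Samp
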