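import Mathlib

/-!
# Quadratic forms with one positive direction, the trickling-down step, and the local inequality
-/

set_option autoImplicit false

namespace Pool.Agent.E8helper91.Samp

open Finset

variable {α : Type*} [Fintype α]

/-- The form `A` has at most one positive direction, namely the one of the constant function. -/
def QB (A : α → α → ℝ) : Prop :=
  ∀ x : α → ℝ, (∑ e, ∑ f, A e f * x e * x f) * (∑ e, ∑ f, A e f) ≤ (∑ e, ∑ f, A e f * x e) ^ 2

theorem sum_swap_sym {A : α → α → ℝ} (hs : ∀ e f, A e f = A f e) (x : α → ℝ) :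
    ∑ e, ∑ f, A e f * x f = ∑ e, ∑ f, A e f * x e := by
  rw [Finset.sum_comm]
  refine Finset.sum_congr rfl fun e _ => Finset.sum_congr rfl fun f _ => ?_
  rw [hs]

/-- It is enough to treat functions of mean zero. -/
theorem qb_of_mean {A : α → α → ℝ} (hs : ∀ e f, A e f = A f e) (hn : ∀ e f, 0 ≤ A e f)
    (h : ∀ x : α → ℝ, ∑ e, ∑ f, A e f * x e = 0 → ∑ e, ∑ f, A e f * x e * x f ≤ 0) : QB A := by
  intro x
  set D := ∑ e, ∑ f, A e f with hD
  set m := ∑ e, ∑ f, A e f * x e with hm
  have hD0 : 0 ≤ D := Finset.sum_nonneg fun e _ => Finset.sum_nonneg fun f _ => hn e f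
  rcases hD0.eq_or_lt with h0 | hpos
  · rw [← h0, mul_zero]; positivity
  · set c := m / D with hc
    have hcD : c * D = m := by rw [hc]; field_simp
    have hz : ∑ e, ∑ f, A e f * (x e - c) = m - D * c := by
      simp only [mul_sub, Finset.sum_sub_distrib]
      rw [hm, hD]
      simp only [Finset.sum_mul]
    have h1 := h (fun e => x e - c) (by rw [hz]; linarith)
    have h2 : ∑ e, ∑ f, A e f * (x e - c) * (x f - c) =
        (∑ e, ∑ f, A e f * x e * x f) - c * m - c * m + c ^ 2 * D := by
      have e1 : ∀ e f, A e f * (x e - c) * (x f - c) =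
          A e f * x e * x f - c * (A e f * x e) - c * (A e f * x f) + c ^ 2 * A e f := by
        intro e f; ring
      simp only [e1, Finset.sum_add_distrib, Finset.sum_sub_distrib, ← Finset.mul_sum]
      rw [sum_swap_sym hs]
    rw [h2] at h1
    have h3 : ((∑ e, ∑ f, A e f * x e * x f) - c * m - c * m + c ^ 2 * D) * D ≤ 0 :=
      mul_nonpos_of_nonpos_of_nonneg h1 hpos.le
    nlinarith [h3, hcD]

/-- The variance inequality for functions on edges: twice the second moment of the averages at the
vertices is at most the second moment plus the square of the mean. -/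
theorem local_ineq {A : α → α → ℝ} (hs : ∀ e f, A e f = A f e) (hn : ∀ e f, 0 ≤ A e f)
    (hQ : QB A) (h : α → α → ℝ) (hh : ∀ e f, h e f = h f e) (d g : α → ℝ)
    (hd : ∀ e, d e = ∑ f, A e f) (hg : ∀ e, d e * g e = ∑ f, A e f * h e f) :
    2 * ∑ e, d e * g e ^ 2 ≤
      ∑ e, ∑ f, A e f * h e f ^ 2 + (∑ e, d e * g e) ^ 2 / ∑ e, d e := by
  set D := ∑ e, d e with hD
  have hDA : D = ∑ e, ∑ f, A e f := by rw [hD]; exact Finset.sum_congr rfl fun e _ => hd e
  have hd0 : ∀ e, 0 ≤ d e := fun e => by rw [hd]; exact Finset.sum_nonneg fun f _ => hn e f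
  have hD0 : 0 ≤ D := Finset.sum_nonneg fun e _ => hd0 e
  set c := (∑ e, d e * g e) / D with hc
  have hcD : c * D = ∑ e, d e * g e := by
    rcases hD0.eq_or_lt with h0 | hpos
    · have : ∀ e, d e = 0 := by
        intro e
        have := (Finset.sum_eq_zero_iff_of_nonneg (fun e _ => hd0 e)).1 h0.symm
        exact this e (Finset.mem_univ e)
      simp [this, ← h0]
    · rw [hc]; field_simp
  have hsum : ∀ y : α → ℝ, ∑ e, ∑ f, A e f * y e = ∑ e, d e * y e := by
    intro y
    refine Finset.sum_congr rfl fun e _ => ?_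
    rw [← Finset.sum_mul, hd]
  have hAh : ∑ e, ∑ f, A e f * h e f = c * D := by
    rw [hcD]
    exact Finset.sum_congr rfl fun e _ => (hg e).symm
  have hAhg : ∑ e, ∑ f, A e f * h e f * g e = ∑ e, d e * g e ^ 2 := by
    refine Finset.sum_congr rfl fun e _ => ?_
    rw [← Finset.sum_mul, ← hg]; ring
  have hAhg' : ∑ e, ∑ f, A e f * h e f * g f = ∑ e, d e * g e ^ 2 := by
    rw [Finset.sum_comm, ← hAhg]
    refine Finset.sum_congr rfl fun e _ => Finset.sum_congr rfl fun f _ => ?_
    rw [hs, hh]
  have hg2 : ∑ e, ∑ f, A e f * g e ^ 2 = ∑ e, d e * g e ^ 2 := hsum fun e => g e ^ 2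
  have hg2' : ∑ e, ∑ f, A e f * g f ^ 2 = ∑ e, d e * g e ^ 2 := by
    rw [sum_swap_sym hs fun e => g e ^ 2]; exact hg2
  have hg1 : ∑ e, ∑ f, A e f * g e = c * D := by rw [hsum, hcD]
  have hg1' : ∑ e, ∑ f, A e f * g f = c * D := by rw [sum_swap_sym hs, hg1]
  have hsq : 0 ≤ ∑ e, ∑ f, A e f * (h e f - g e - g f + c) ^ 2 :=
    Finset.sum_nonneg fun e _ => Finset.sum_nonneg fun f _ => mul_nonneg (hn e f) (sq_nonneg _)
  have hexp : ∑ e, ∑ f, A e f * (h e f - g e - g f + c) ^ 2 =
      ∑ e, ∑ f, A e f * h e f ^ 2 - 2 * ∑ e, d e * g e ^ 2 +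
        2 * (∑ e, ∑ f, A e f * g e * g f) - c ^ 2 * D := by
    have e1 : ∀ e f, A e f * (h e f - g e - g f + c) ^ 2 = A e f * h e f ^ 2 + A e f * g e ^ 2 +
        A e f * g f ^ 2 + 2 * (A e f * g e * g f) + c ^ 2 * A e f - 2 * (A e f * h e f * g e) -
        2 * (A e f * h e f * g f) + 2 * c * (A e f * h e f) - 2 * c * (A e f * g e) -
        2 * c * (A e f * g f) := by
      intro e f; ring
    simp only [e1, Finset.sum_add_distrib, Finset.sum_sub_distrib, ← Finset.mul_sum]
    rw [hAhg, hAhg', hg2, hg2', hg1, hg1', hAh, ← hDA]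
    ring
  have hq := hQ g
  rw [← hDA, hg1] at hq
  have hc2 : (∑ e, d e * g e) ^ 2 / D = c ^ 2 * D := by
    rw [← hcD]
    rcases hD0.eq_or_lt with h0 | hpos
    · rw [← h0]; simp
    · field_simp
  rw [hc2]
  have hq2 : ∑ e, ∑ f, A e f * g e * g f ≤ c ^ 2 * D := by
    rcases hD0.eq_or_lt with h0 | hpos
    · have hA : ∀ e f, A e f = 0 := by
        intro e f
        have h1 : ∑ e, ∑ f, A e f = 0 := by rw [← hDA, ← h0]
        have h2 := (Finset.sum_eq_zero_iff_of_nonneg
          (fun e _ => Finset.sum_nonneg fun f _ => hn e f)).1 h1 e (Finset.mem_univ e)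
        exact (Finset.sum_eq_zero_iff_of_nonneg (fun f _ => hn e f)).1 h2 f (Finset.mem_univ f)
      simp [hA, ← h0]
    · have : (∑ e, ∑ f, A e f * g e * g f) * D ≤ (c ^ 2 * D) * D := by
        calc _ ≤ (c * D) ^ 2 := hq
          _ = _ := by ring
      exact le_of_mul_le_mul_right this hpos
  linarith [hexp ▸ hsq]

variable [DecidableEq α]

/-- The trickling-down step: a connected weighted graph whose walk `P` satisfies `P ≤ P²` has no
eigenvalue strictly between `0` and `1`, so that the form has only one positive direction. -/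
theorem qb_of_step {A : α → α → ℝ} (hs : ∀ e f, A e f = A f e) (hn : ∀ e f, 0 ≤ A e f)
    (d : α → ℝ) (hd : ∀ e, d e = ∑ f, A e f)
    (hconn : ∀ e f, 0 < d e → 0 < d f → e = f ∨ 0 < A e f ∨ ∃ g, 0 < A e g ∧ 0 < A g f)
    (h : ∀ x : α → ℝ, ∑ e, ∑ f, A e f * x e * x f ≤ ∑ e, (∑ f, A e f * x f) ^ 2 / d e) : QB A := by
  have hd0 : ∀ e, 0 ≤ d e := fun e => by rw [hd]; exact Finset.sum_nonneg fun f _ => hn e f
  have hA0 : ∀ e, d e = 0 → ∀ f, A e f = 0 := by
    intro e he f
    rw [hd] at he
    exact (Finset.sum_eq_zero_iff_of_nonneg (fun f _ => hn e f)).1 he f (Finset.mem_univ f)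
  set D := ∑ e, d e with hD
  have hDA : D = ∑ e, ∑ f, A e f := by rw [hD]; exact Finset.sum_congr rfl fun e _ => hd e
  set s : α → ℝ := fun e => Real.sqrt (d e) with hsdef
  have hs2 : ∀ e, s e * s e = d e := fun e => Real.mul_self_sqrt (hd0 e)
  have hs0 : ∀ e, s e = 0 ↔ d e = 0 := fun e => Real.sqrt_eq_zero (hd0 e)
  set S : Matrix α α ℝ := Matrix.of fun e f => A e f / (s e * s f) with hSdef
  have hS : S.IsHermitian := by
    ext e f
    simp only [Matrix.conjTranspose_apply, hSdef, Matrix.of_apply, star_trivial]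
    rw [hs f e, mul_comm]
  set b := hS.eigenvectorBasis with hb
  set lam := hS.eigenvalues with hlam
  -- the quadratic form
  have form : ∀ z : α → ℝ, ∑ e, z e * (S.mulVec z) e =
      ∑ e, ∑ f, A e f * (z e / s e) * (z f / s f) := by
    intro z
    refine Finset.sum_congr rfl fun e _ => ?_
    simp only [Matrix.mulVec, dotProduct, hSdef, Matrix.of_apply, Finset.mul_sum]
    refine Finset.sum_congr rfl fun f _ => ?_
    ring
  have image : ∀ (z : α → ℝ) e, (S.mulVec z) e = (∑ f, A e f * (z f / s f)) / s e := by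
    intro z e
    simp only [Matrix.mulVec, dotProduct, hSdef, Matrix.of_apply, Finset.sum_div]
    refine Finset.sum_congr rfl fun f _ => ?_
    ring
  have step : ∀ z : α → ℝ, ∑ e, z e * (S.mulVec z) e ≤ ∑ e, (S.mulVec z) e ^ 2 := by
    intro z
    rw [form]
    refine (h fun e => z e / s e).trans (le_of_eq ?_)
    refine Finset.sum_congr rfl fun e _ => ?_
    rw [image, div_pow, sq (s e), hs2]
  have eig : ∀ i e, (S.mulVec (b i)) e = lam i * b i e := by
    intro i e
    have := congrFun (hS.mulVec_eigenvectorBasis i) e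
    simpa using this
  have norm1 : ∀ i, ∑ e, b i e ^ 2 = 1 := by
    intro i
    have := b.orthonormal.1 i
    rw [EuclideanSpace.norm_eq, Real.sqrt_eq_one] at this
    simpa using this
  have hlam2 : ∀ i, lam i ≤ lam i ^ 2 := by
    intro i
    have h1 := step (b i)
    simp only [eig] at h1
    have h2 : ∑ e, b i e * (lam i * b i e) = lam i := by
      have : ∀ e, b i e * (lam i * b i e) = lam i * b i e ^ 2 := fun e => by ring
      simp only [this, ← Finset.mul_sum, norm1, mul_one]
    have h3 : ∑ e, (lam i * b i e) ^ 2 = lam i ^ 2 := by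
      simp only [mul_pow, ← Finset.mul_sum, norm1, mul_one]
    rwa [h2, h3] at h1
  -- eigenvectors of positive eigenvalues are multiples of `s`
  have main : ∀ i, 0 < lam i → ∃ y : ℝ, (∀ e, b i e = y * s e) ∧ y ^ 2 * D = 1 ∧ lam i = 1 := by
    intro i hi
    have h1 : 1 ≤ lam i := by
      have := hlam2 i
      nlinarith
    have e1 : ∑ e, ∑ f, A e f * (b i e / s e - b i f / s f) ^ 2 =
        2 * (∑ e, d e * (b i e / s e) ^ 2) - 2 * lam i := by
      have a1 : ∀ e f, A e f * (b i e / s e - b i f / s f) ^ 2 = A e f * (b i e / s e) ^ 2 +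
          A e f * (b i f / s f) ^ 2 - 2 * (A e f * (b i e / s e) * (b i f / s f)) := by
        intro e f; ring
      simp only [a1, Finset.sum_add_distrib, Finset.sum_sub_distrib, ← Finset.mul_sum]
      rw [sum_swap_sym hs (fun e => (b i e / s e) ^ 2), ← form]
      have a2 : ∑ e, b i e * (S.mulVec (b i)) e = lam i := by
        have : ∀ e, b i e * (S.mulVec (b i)) e = lam i * b i e ^ 2 := fun e => by rw [eig]; ring
        simp only [this, ← Finset.mul_sum, norm1, mul_one]
      rw [a2]
      have a3 : ∑ e, ∑ f, A e f * (b i e / s e) ^ 2 = ∑ e, d e * (b i e / s e) ^ 2 := by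
        refine Finset.sum_congr rfl fun e _ => ?_
        rw [← Finset.sum_mul, hd]
      rw [a3]; ring
    have e2 : ∑ e, d e * (b i e / s e) ^ 2 ≤ 1 := by
      rw [← norm1 i]
      refine Finset.sum_le_sum fun e _ => ?_
      by_cases he : d e = 0
      · rw [he, zero_mul]; positivity
      · have hse : s e ≠ 0 := fun h' => he ((hs0 e).1 h')
        rw [div_pow, sq (s e), hs2]
        field_simp
        exact le_rfl
    have e3 : 0 ≤ ∑ e, ∑ f, A e f * (b i e / s e - b i f / s f) ^ 2 :=
      Finset.sum_nonneg fun e _ => Finset.sum_nonneg fun f _ => mul_nonneg (hn e f) (sq_nonneg _)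
    have hl1 : lam i = 1 := by linarith
    have e4 : ∑ e, ∑ f, A e f * (b i e / s e - b i f / s f) ^ 2 = 0 := by linarith
    have e5 : ∀ e f, 0 < A e f → b i e / s e = b i f / s f := by
      intro e f hef
      have a1 := (Finset.sum_eq_zero_iff_of_nonneg (fun e _ => Finset.sum_nonneg fun f _ =>
        mul_nonneg (hn e f) (sq_nonneg _))).1 e4 e (Finset.mem_univ e)
      have a2 := (Finset.sum_eq_zero_iff_of_nonneg (fun f _ =>
        mul_nonneg (hn e f) (sq_nonneg _))).1 a1 f (Finset.mem_univ f)
      rcases mul_eq_zero.1 a2 with h0 | h0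
      · exact absurd h0 hef.ne'
      · linarith [pow_eq_zero_iff (two_ne_zero) |>.1 h0]
    have e6 : ∀ e f, 0 < d e → 0 < d f → b i e / s e = b i f / s f := by
      intro e f he hf
      rcases hconn e f he hf with h0 | h0 | ⟨g, h0, h1'⟩
      · rw [h0]
      · exact e5 e f h0
      · exact (e5 e g h0).trans (e5 g f h1')
    have e7 : ∀ e, d e = 0 → b i e = 0 := by
      intro e he
      have a1 := eig i e
      rw [hl1, one_mul, image, (hs0 e).2 he, div_zero] at a1
      exact a1.symm
    -- there is an element of positive degree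
    obtain ⟨e0, he0⟩ : ∃ e, 0 < d e := by
      by_contra hcon
      push Not at hcon
      have : ∑ e, b i e ^ 2 = 0 := by
        refine Finset.sum_eq_zero fun e _ => ?_
        rw [e7 e (le_antisymm (hcon e) (hd0 e))]; norm_num
      rw [norm1] at this
      norm_num at this
    have e8 : ∀ e, b i e = b i e0 / s e0 * s e := by
      intro e
      by_cases he : d e = 0
      · rw [e7 e he, (hs0 e).2 he, mul_zero]
      · have hpos : 0 < d e := lt_of_le_of_ne (hd0 e) (Ne.symm he)
        have hse : s e ≠ 0 := fun h' => he ((hs0 e).1 h')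
        rw [← e6 e e0 hpos he0]
        field_simp
    refine ⟨b i e0 / s e0, e8, ?_, hl1⟩
    have a1 := norm1 i
    have a2 : ∑ e, b i e ^ 2 = (b i e0 / s e0) ^ 2 * D := by
      rw [hD, Finset.mul_sum]
      refine Finset.sum_congr rfl fun e _ => ?_
      rw [e8 e, mul_pow, ← hs2 e]; ring
    rw [← a2, a1]
  -- at most one positive eigenvalue
  have uniq : ∀ i j, 0 < lam i → 0 < lam j → i = j := by
    intro i j hi hj
    by_contra hij
    obtain ⟨y, hy1, hy2, _⟩ := main i hi
    obtain ⟨y', hy1', hy2', _⟩ := main j hj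
    have h1 : inner ℝ (b i) (b j) = (0 : ℝ) := b.orthonormal.2 hij
    have h2 : (inner ℝ (b i) (b j) : ℝ) = ∑ e, b j e * b i e := by
      rw [PiLp.inner_apply]
      exact Finset.sum_congr rfl fun e _ => by simp [mul_comm]
    have h3 : ∑ e, b j e * b i e = y' * y * D := by
      rw [hD, Finset.mul_sum]
      refine Finset.sum_congr rfl fun e _ => ?_
      rw [hy1 e, hy1' e, ← hs2 e]; ring
    rw [h2, h3] at h1
    have h4 : (y' * y * D) ^ 2 = D * D * ((y ^ 2) * (y' ^ 2)) := by ring
    have h5 : (y ^ 2 * D) * (y' ^ 2 * D) = 1 := by rw [hy2, hy2']; norm_num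
    have h6 : (y' * y * D) ^ 2 = 1 := by rw [h4, ← h5]; ring
    rw [h1] at h6
    norm_num at h6
  -- conclusion
  have concl : ∀ z : α → ℝ, (∑ e, z e * (S.mulVec z) e) * D ≤ (∑ e, s e * z e) ^ 2 := by
    intro z
    set zz : EuclideanSpace ℝ α := WithLp.toLp 2 z with hzz
    set c : α → ℝ := fun i => ∑ e, b i e * z e with hc
    have hcin : ∀ i, (inner ℝ (b i) zz : ℝ) = c i := by
      intro i
      rw [PiLp.inner_apply, hc]
      exact Finset.sum_congr rfl fun e _ => by simp [hzz, mul_comm]
    have hsymS : ∀ i, ∑ e, b i e * (S.mulVec z) e = lam i * c i := by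
      intro i
      have a1 : ∑ e, b i e * (S.mulVec z) e = ∑ e, (S.mulVec (b i)) e * z e := by
        simp only [Matrix.mulVec, dotProduct, Finset.mul_sum, Finset.sum_mul]
        rw [Finset.sum_comm]
        refine Finset.sum_congr rfl fun e _ => Finset.sum_congr rfl fun f _ => ?_
        have : S f e = S e f := by
          have := congrFun (congrFun hS e) f
          simpa [Matrix.conjTranspose_apply] using this
        rw [this]; ring
      rw [a1, hc]
      simp only [eig, Finset.mul_sum]
      exact Finset.sum_congr rfl fun e _ => by ring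
    have a1 : ∑ e, z e * (S.mulVec z) e = ∑ i, lam i * c i ^ 2 := by
      have a2 := b.sum_inner_mul_inner zz (WithLp.toLp 2 (S.mulVec z))
      have a3 : (inner ℝ zz (WithLp.toLp 2 (S.mulVec z)) : ℝ) = ∑ e, z e * (S.mulVec z) e := by
        rw [PiLp.inner_apply]
        exact Finset.sum_congr rfl fun e _ => by simp [hzz, mul_comm]
      rw [← a3, ← a2]
      refine Finset.sum_congr rfl fun i _ => ?_
      have a4 : (inner ℝ (b i) (WithLp.toLp 2 (S.mulVec z)) : ℝ) = lam i * c i := by
        rw [← hsymS i, PiLp.inner_apply]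
        exact Finset.sum_congr rfl fun e _ => by simp [mul_comm]
      rw [a4, real_inner_comm, hcin]; ring
    rw [a1]
    have a5 : (∑ i, lam i * c i ^ 2) * D ≤ ∑ i ∈ univ.filter (fun i => 0 < lam i),
        (∑ e, s e * z e) ^ 2 := by
      rw [Finset.sum_mul, Finset.sum_filter]
      refine Finset.sum_le_sum fun i _ => ?_
      have hD0 : 0 ≤ D := Finset.sum_nonneg fun e _ => hd0 e
      split_ifs with hi
      · obtain ⟨y, hy1, hy2, hy3⟩ := main i hi
        have : c i = y * ∑ e, s e * z e := by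
          rw [hc, Finset.mul_sum]
          exact Finset.sum_congr rfl fun e _ => by rw [hy1 e]; ring
        rw [hy3, this, one_mul, mul_pow]
        have : y ^ 2 * (∑ e, s e * z e) ^ 2 * D = (y ^ 2 * D) * (∑ e, s e * z e) ^ 2 := by ring
        rw [this, hy2, one_mul]
      · push Not at hi
        have : lam i * c i ^ 2 * D = lam i * (c i ^ 2 * D) := by ring
        rw [this]
        exact mul_nonpos_of_nonpos_of_nonneg hi (by positivity)
    refine a5.trans ?_
    rw [Finset.sum_const, nsmul_eq_mul]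
    have a6 : (univ.filter (fun i => 0 < lam i)).card ≤ 1 := by
      rw [Finset.card_le_one]
      intro i hi j hj
      exact uniq i j (Finset.mem_filter.1 hi).2 (Finset.mem_filter.1 hj).2
    have a7 : ((univ.filter (fun i => 0 < lam i)).card : ℝ) ≤ 1 := by exact_mod_cast a6
    nlinarith [sq_nonneg (∑ e, s e * z e)]
  intro x
  have h1 := concl fun e => s e * x e
  rw [form] at h1
  have h2 : ∑ e, ∑ f, A e f * (s e * x e / s e) * (s f * x f / s f) =
      ∑ e, ∑ f, A e f * x e * x f := by
    refine Finset.sum_congr rfl fun e _ => Finset.sum_congr rfl fun f _ => ?_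
    by_cases he : d e = 0
    · rw [hA0 e he f]; simp
    by_cases hf : d f = 0
    · rw [hs e f, hA0 f hf e]; simp
    have hse : s e ≠ 0 := fun h' => he ((hs0 e).1 h')
    have hsf : s f ≠ 0 := fun h' => hf ((hs0 f).1 h')
    field_simp
  have h3 : ∑ e, s e * (s e * x e) = ∑ e, ∑ f, A e f * x e := by
    refine Finset.sum_congr rfl fun e _ => ?_
    rw [← Finset.sum_mul, ← hd, ← mul_assoc, hs2]
  rw [h2, h3, hDA] at h1
  exact h1

end Pool.Agent.E8helper91.Samp
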