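import Mathlib
import Pool.Agent.H591R2.Defs

/-!
# Definitions for the statement: simplicial spanning trees and output probabilities

Simplicial complexes are Mathlib's `PreAbstractSimplicialComplex` (nonempty faces only); the
vertices are natural numbers.
-/

set_option autoImplicit false

namespace Pool.Agent.E8helper91.Samp

open Pool.Agent.H591R2

/-- The simplicial complex `Δ` has dimension `d`. -/
def HasDim (Δ : PreAbstractSimplicialComplex ℕ) (d : ℕ) : Prop :=
  (∃ s ∈ Δ, s.card = d + 1) ∧ ∀ s ∈ Δ, s.card ≤ d + 1

/-- `L` is a list of all faces of `Δ`, without repetition, each face being written as the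
increasing list of its vertices. -/
def ListsFaces (L : List (List ℕ)) (Δ : PreAbstractSimplicialComplex ℕ) : Prop :=
  L.Nodup ∧ (∀ l ∈ L, l.Pairwise (· < ·)) ∧ ∀ s : Finset ℕ, s ∈ Δ ↔ ∃ l ∈ L, l.toFinset = s

/-- The boundary of the simplex with vertex set `s` (oriented by the order of the vertices): the sum
over its vertices `v` of `(-1)^i` times the opposite facet, if `v` is preceded by `i` vertices. -/
noncomputable def bd (s : Finset ℕ) : Finset ℕ →₀ ℚ :=
  ∑ v ∈ s, Finsupp.single (s.erase v) ((-1) ^ (s.filter (fun u => u < v)).card)

/-- `Υ` is a `d`-dimensional spanning tree of `Δ`: a subcomplex containing all faces of dimension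
less than `d`, such that the boundaries of the `d`-faces of `Υ` form a basis of the space spanned by
the boundaries of all `d`-faces of `Δ`. -/
structure IsTree (Δ : PreAbstractSimplicialComplex ℕ) (d : ℕ)
    (Υ : PreAbstractSimplicialComplex ℕ) : Prop where
  le : Υ ≤ Δ
  skeleton : ∀ s ∈ Δ, s.card ≤ d → s ∈ Υ
  indep : LinearIndepOn ℚ bd {s | s ∈ Υ ∧ s.card = d + 1}
  span : Submodule.span ℚ (bd '' {s | s ∈ Υ ∧ s.card = d + 1}) =
    Submodule.span ℚ (bd '' {s | s ∈ Δ ∧ s.card = d + 1})

/-- The probability that the coin-tossing machine `M` halts on input `x` with an output in `Y`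
(all other stacks being empty): the sum over all `i` of the probability (over `i` fair coin
tosses) that it halts after exactly `i` steps with such an output. -/
noncomputable def outputProb (M : CoinMachine) (x : List Bool) (Y : Set (List Bool)) : ENNReal :=
  ∑' i : ℕ, ({w : List Bool | w.length = i ∧ ∃ y ∈ Y, M.HaltsWith x w y}.ncard : ENNReal) / 2 ^ i

end Pool.Agent.E8helper91.Samp
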