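import Pool.Agent.H591R2.CoinRun
import Pool.Agent.E8helper91.Samp.Spec

/-!
# Output probabilities and expected running time of Las Vegas machines
-/

set_option autoImplicit false

namespace Pool.Agent.E8helper91.Samp

open Turing Function Pool.Agent.H591R2 Pool.Agent.H591R2.CoinMachine Pool.Agent.NPC

/-! ### lists of given length -/

/-- all bit strings of length `k` -/
def allL : ℕ → List (List Bool)
  | 0 => [[]]
  | k + 1 => (allL k).map (fun l => false :: l) ++ (allL k).map (fun l => true :: l)

theorem length_allL (k : ℕ) : (allL k).length = 2 ^ k := by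
  induction k with
  | zero => rfl
  | succ k ih => simp only [allL, List.length_append, List.length_map, ih]; ring

theorem mem_allL {k : ℕ} {l : List Bool} : l ∈ allL k ↔ l.length = k := by
  induction k generalizing l with
  | zero => simp [allL, List.length_eq_zero_iff]
  | succ k ih =>
    simp only [allL, List.mem_append, List.mem_map, ih]
    constructor
    · rintro (⟨a, h1, rfl⟩ | ⟨a, h1, rfl⟩) <;> simp [h1]
    · intro h
      cases l with
      | nil => simp at h
      | cons b l =>
        have : l.length = k := by simpa using h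
        cases b
        · exact Or.inl ⟨l, this, rfl⟩
        · exact Or.inr ⟨l, this, rfl⟩

theorem nodup_allL (k : ℕ) : (allL k).Nodup := by
  induction k with
  | zero => simp [allL]
  | succ k ih =>
    simp only [allL]
    refine List.Nodup.append (ih.map fun a b h => by simpa using h)
      (ih.map fun a b h => by simpa using h) ?_
    rw [List.disjoint_left]
    intro a ha hb
    rw [List.mem_map] at ha hb
    obtain ⟨u, _, rfl⟩ := ha
    obtain ⟨v, _, h⟩ := hb
    simp at h

/-- sum over all bit strings of length `k` -/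
def sL {R : Type} [AddCommMonoid R] (k : ℕ) (f : List Bool → R) : R := ((allL k).map f).sum

section sums

variable {R : Type} [AddCommMonoid R]

theorem sL_zero (f : List Bool → R) : sL 0 f = f [] := by simp [sL, allL]

theorem sL_succ (k : ℕ) (f : List Bool → R) :
    sL (k + 1) f = sL k (fun l => f (false :: l)) + sL k (fun l => f (true :: l)) := by
  simp only [sL, allL, List.map_append, List.map_map, List.sum_append]
  rfl

theorem sL_congr {k : ℕ} {f g : List Bool → R} (h : ∀ l : List Bool, l.length = k → f l = g l) :
    sL k f = sL k g := by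
  unfold sL
  congr 1
  exact List.map_congr_left fun l hl => h l (mem_allL.1 hl)

theorem sL_add (a b : ℕ) (f : List Bool → R) :
    sL (a + b) f = sL a (fun u => sL b (fun v => f (u ++ v))) := by
  induction a generalizing f with
  | zero => simp [sL_zero]
  | succ a ih =>
    rw [Nat.add_right_comm, sL_succ, ih, ih, sL_succ]
    rfl

theorem sL_add_fun (k : ℕ) (f g : List Bool → R) :
    sL k (fun l => f l + g l) = sL k f + sL k g := by
  induction k generalizing f g with
  | zero => simp [sL_zero]
  | succ k ih =>
    rw [sL_succ, ih, ih, sL_succ, sL_succ]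
    exact add_add_add_comm _ _ _ _

theorem sL_const (k : ℕ) (c : R) : sL k (fun _ => c) = (2 ^ k : ℕ) • c := by
  induction k with
  | zero => simp [sL_zero]
  | succ k ih => rw [sL_succ, ih, ← add_nsmul, pow_succ]; congr 1; ring

end sums

theorem sL_mul_left {R : Type} [NonUnitalNonAssocSemiring R] (k : ℕ) (c : R) (f : List Bool → R) :
    sL k (fun l => c * f l) = c * sL k f := by
  induction k generalizing f with
  | zero => simp [sL_zero]
  | succ k ih => rw [sL_succ, ih, ih, sL_succ, mul_add]

theorem sL_mul_right {R : Type} [NonUnitalNonAssocSemiring R] (k : ℕ) (c : R) (f : List Bool → R) :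
    sL k (fun l => f l * c) = sL k f * c := by
  induction k generalizing f with
  | zero => simp [sL_zero]
  | succ k ih => rw [sL_succ, ih, ih, sL_succ, add_mul]

theorem sL_le {k : ℕ} {f g : List Bool → ℝ} (h : ∀ l : List Bool, l.length = k → f l ≤ g l) :
    sL k f ≤ sL k g := by
  induction k generalizing f g with
  | zero => simpa [sL_zero] using h [] rfl
  | succ k ih =>
    rw [sL_succ, sL_succ]
    exact add_le_add (ih fun l hl => h _ (by simp [hl])) (ih fun l hl => h _ (by simp [hl]))

theorem sL_cast {k : ℕ} (f : List Bool → ℕ) : ((sL k f : ℕ) : ℝ) = sL k (fun l => (f l : ℝ)) := by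
  induction k generalizing f with
  | zero => simp [sL_zero]
  | succ k ih => rw [sL_succ, sL_succ]; push_cast; rw [ih, ih]

theorem avg_eq (j : ℕ) (f : List Bool → ℝ) : ∀ acc : List Bool,
    avg j f acc = sL j (fun u => f (u.reverse ++ acc)) / 2 ^ j := by
  induction j with
  | zero => intro acc; simp [avg, sL_zero]
  | succ j ih =>
    intro acc
    unfold avg
    rw [ih, ih, sL_succ]
    simp only [List.reverse_cons, List.append_assoc, List.cons_append, List.nil_append]
    rw [pow_succ]
    field_simp

/-! ### the probability of halting in a good configuration -/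

section prob

variable {M : CoinMachine}

/-- coin sequences of length `i` leading from `c` to a good halted configuration -/
def hitSet (Gd : M.Conf → Prop) (i : ℕ) (c : M.Conf) : Set (List Bool) :=
  {w | w.length = i ∧ ∃ c', M.run c w = some c' ∧ c'.l = none ∧ Gd c'}

/-- the probability that the machine started at `c` halts in a good configuration -/
noncomputable def pI (Gd : M.Conf → Prop) (c : M.Conf) : ENNReal :=
  ∑' i : ℕ, ((hitSet Gd i c).ncard : ENNReal) / 2 ^ i

theorem hitSet_finite (Gd : M.Conf → Prop) (i : ℕ) (c : M.Conf) : (hitSet Gd i c).Finite :=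
  (List.finite_length_eq Bool i).subset fun _ h => h.1

open Classical in
theorem hit_zero (Gd : M.Conf → Prop) (c : M.Conf) :
    (hitSet Gd 0 c).ncard = if c.l = none ∧ Gd c then 1 else 0 := by
  split_ifs with h
  · have : hitSet Gd 0 c = {[]} := by
      ext w
      simp only [hitSet, Set.mem_ofPred_eq, Set.mem_singleton_iff]
      constructor
      · exact fun hw => List.length_eq_zero_iff.1 hw.1
      · rintro rfl
        exact ⟨rfl, c, run_nil c, h⟩
    rw [this, Set.ncard_singleton]
  · have : hitSet Gd 0 c = ∅ := by
      ext w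
      simp only [hitSet, Set.mem_ofPred_eq, Set.mem_empty_iff_false, iff_false, not_and]
      intro hw
      rw [List.length_eq_zero_iff] at hw
      subst hw
      rintro ⟨c', h1, h2⟩
      rw [run_nil, Option.some.injEq] at h1
      subst h1
      exact h h2
    rw [this, Set.ncard_empty]

theorem hit_succ_halted (Gd : M.Conf → Prop) (i : ℕ) {c : M.Conf} (h : c.l = none) :
    (hitSet Gd (i + 1) c).ncard = 0 := by
  have : hitSet Gd (i + 1) c = ∅ := by
    ext w
    simp only [hitSet, Set.mem_ofPred_eq, Set.mem_empty_iff_false, iff_false, not_and]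
    intro hw
    rintro ⟨c', h1, _⟩
    cases w with
    | nil => simp at hw
    | cons b w =>
      rw [run_cons, step_none b h] at h1
      simp at h1
  rw [this, Set.ncard_empty]

theorem hit_succ (Gd : M.Conf → Prop) (i : ℕ) {c : M.Conf} {d : Bool → M.Conf}
    (h : ∀ b, M.step b c = some (d b)) :
    (hitSet Gd (i + 1) c).ncard = (hitSet Gd i (d false)).ncard + (hitSet Gd i (d true)).ncard := by
  have e : hitSet Gd (i + 1) c = (fun w => false :: w) '' hitSet Gd i (d false) ∪
      (fun w => true :: w) '' hitSet Gd i (d true) := by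
    ext w
    simp only [hitSet, Set.mem_ofPred_eq, Set.mem_union, Set.mem_image]
    constructor
    · rintro ⟨h1, c', h2, h3⟩
      cases w with
      | nil => simp at h1
      | cons b w =>
        rw [run_cons, h] at h2
        cases b
        · left; exact ⟨w, ⟨by simpa using h1, c', h2, h3⟩, rfl⟩
        · right; exact ⟨w, ⟨by simpa using h1, c', h2, h3⟩, rfl⟩
    · rintro (⟨w', ⟨h1, c', h2, h3⟩, rfl⟩ | ⟨w', ⟨h1, c', h2, h3⟩, rfl⟩)
      · exact ⟨by simp [h1], c', by rw [run_cons, h]; exact h2, h3⟩
      · exact ⟨by simp [h1], c', by rw [run_cons, h]; exact h2, h3⟩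
  have hdis : Disjoint ((fun w => false :: w) '' hitSet Gd i (d false))
      ((fun w => true :: w) '' hitSet Gd i (d true)) := by
    rw [Set.disjoint_left]
    rintro w ⟨w1, _, rfl⟩ ⟨w2, _, h⟩
    simp at h
  rw [e, Set.ncard_union_eq hdis ((hitSet_finite _ _ _).image _) ((hitSet_finite _ _ _).image _),
    Set.ncard_image_of_injective _ (fun a b h => by simpa using h),
    Set.ncard_image_of_injective _ (fun a b h => by simpa using h)]

open Classical in
theorem pI_halt (Gd : M.Conf → Prop) {c : M.Conf} (h : c.l = none) :
    pI Gd c = if Gd c then 1 else 0 := by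
  unfold pI
  rw [tsum_eq_single 0]
  · rw [hit_zero]
    simp only [h, true_and]
    split_ifs <;> simp
  · intro i hi
    obtain ⟨j, rfl⟩ := Nat.exists_eq_succ_of_ne_zero hi
    rw [hit_succ_halted Gd j h]
    simp

theorem pI_coin (Gd : M.Conf → Prop) {c : M.Conf} {d : Bool → M.Conf}
    (h : ∀ b, M.step b c = some (d b)) :
    pI Gd c = (pI Gd (d false) + pI Gd (d true)) / 2 := by
  have hl : c.l ≠ none := by
    intro hc
    have := h false
    rw [step_none _ hc] at this
    simp at this
  unfold pI
  rw [tsum_eq_zero_add' ENNReal.summable, hit_zero, if_neg (fun h' => hl h'.1)]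
  simp only [hit_succ Gd _ h, Nat.cast_zero, ENNReal.zero_div, zero_add, Nat.cast_add]
  rw [← ENNReal.tsum_add, ENNReal.div_eq_inv_mul, ← ENNReal.tsum_mul_left]
  refine tsum_congr fun i => ?_
  rw [pow_succ, ENNReal.div_eq_inv_mul, ENNReal.div_eq_inv_mul, ENNReal.div_eq_inv_mul,
    ENNReal.mul_inv (Or.inr (by norm_num)) (Or.inl (by simp))]
  ring

theorem pI_step (Gd : M.Conf → Prop) {c d : M.Conf} (h : ∀ b, M.step b c = some d) :
    pI Gd c = pI Gd d := by
  rw [pI_coin Gd (d := fun _ => d) h, ENNReal.add_div, ENNReal.add_halves]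

theorem pI_seg (Gd : M.Conf → Prop) (t : ℕ) : ∀ {c d : M.Conf},
    (∀ w : List Bool, w.length = t → M.run c w = some d) → pI Gd c = pI Gd d := by
  induction t with
  | zero =>
    intro c d h
    have := h [] rfl
    rw [run_nil, Option.some.injEq] at this
    rw [this]
  | succ t ih =>
    intro c d h
    have hc : c.l ≠ none := by
      intro hc
      have := h (List.replicate (t + 1) false) (by simp)
      rw [List.replicate_succ, run_cons, step_none _ hc] at this
      simp at this
    obtain ⟨c0, h0⟩ := step_some (M := M) false hc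
    obtain ⟨c1, h1⟩ := step_some (M := M) true hc
    have i0 : pI Gd c0 = pI Gd d := ih fun w hw => by
      have := h (false :: w) (by simp [hw])
      rw [run_cons, h0] at this
      exact this
    have i1 : pI Gd c1 = pI Gd d := ih fun w hw => by
      have := h (true :: w) (by simp [hw])
      rw [run_cons, h1] at this
      exact this
    rw [pI_coin Gd (c := c) (d := fun b => if b then c1 else c0) (by
      intro b; cases b
      · simpa using h0
      · simpa using h1)]
    simp only [Bool.false_eq_true, if_false, if_true]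
    rw [i0, i1, ENNReal.add_div, ENNReal.add_halves]

theorem pI_le_one (Gd : M.Conf → Prop) (c : M.Conf) : pI Gd c ≤ 1 := by
  classical
  have key : ∀ (N : ℕ) (c : M.Conf),
      ∑ i ∈ Finset.range N, ((hitSet Gd i c).ncard : ENNReal) / 2 ^ i ≤ 1 := by
    intro N
    induction N with
    | zero => intro c; simp
    | succ N ih =>
      intro c
      rw [Finset.sum_range_succ']
      by_cases hc : c.l = none
      · have : ∑ i ∈ Finset.range N, ((hitSet Gd (i + 1) c).ncard : ENNReal) / 2 ^ (i + 1) = 0 :=
          Finset.sum_eq_zero fun i _ => by rw [hit_succ_halted Gd i hc]; simp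
        rw [this, hit_zero]
        split_ifs <;> simp
      · obtain ⟨c0, h0⟩ := step_some (M := M) false hc
        obtain ⟨c1, h1⟩ := step_some (M := M) true hc
        have hd : ∀ b, M.step b c = some ((fun b => if b then c1 else c0) b) := by
          intro b; cases b
          · simpa using h0
          · simpa using h1
        rw [hit_zero, if_neg (fun h => hc h.1)]
        simp only [hit_succ Gd _ hd, Bool.false_eq_true, if_false, if_true, Nat.cast_zero,
          ENNReal.zero_div, add_zero, Nat.cast_add]
        have e1 : ∑ i ∈ Finset.range N, (((hitSet Gd i c0).ncard : ENNReal) +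
            ((hitSet Gd i c1).ncard : ENNReal)) / 2 ^ (i + 1) =
            (∑ i ∈ Finset.range N, ((hitSet Gd i c0).ncard : ENNReal) / 2 ^ i +
            ∑ i ∈ Finset.range N, ((hitSet Gd i c1).ncard : ENNReal) / 2 ^ i) / 2 := by
          rw [← Finset.sum_add_distrib, ENNReal.div_eq_inv_mul, Finset.mul_sum]
          refine Finset.sum_congr rfl fun i _ => ?_
          rw [pow_succ, ENNReal.div_eq_inv_mul, ENNReal.div_eq_inv_mul, ENNReal.div_eq_inv_mul,
            ENNReal.mul_inv (Or.inr (by norm_num)) (Or.inl (by simp))]
          ring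
        rw [e1]
        calc _ ≤ ((1 : ENNReal) + 1) / 2 := by gcongr <;> exact ih _
          _ = 1 := by rw [ENNReal.add_div, ENNReal.add_halves]
  unfold pI
  exact ENNReal.tsum_le_of_sum_range_le fun N => key N c

end prob

/-! ### the Las Vegas machine, with a time bound depending on the coins -/

section lv

variable {N₀ : ℕ} {cA cC : Cmd (Fin (N₀ + 2))} {x x' : List Bool} {k tA : ℕ}

/-- the hypotheses on the two programs, for the input `x` -/
structure SpecV (cA cC : Cmd (Fin (N₀ + 2))) (x x' : List Bool) (k tA : ℕ) (τ : List Bool → ℕ)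
    (G : List Bool → Option (List Bool)) : Prop where
  runA : Run cA (inp x) (inp (head k x')) tA
  runC : ∀ r : List Bool, r.length = k → ∃ t ≤ τ r, Run cC (inp (pairBits r x'))
    (inp (match G r with
      | some y => true :: y
      | none => false :: head k x')) t

theorem eT_bodyV {τ : List Bool → ℕ} {G : List Bool → Option (List Bool)}
    (h : SpecV cA cC x x' k tA τ G) (N : ℕ) {l : List Bool} (hl : l.length = k) :
    eT N (cfg cA cC 1 (false :: x') l) ≤ k + 3 + τ l.reverse +
      (if (G l.reverse).isSome then 0 else eT N (cfg cA cC 1 (head k x') [])) := by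
  have h1 := eT_step N (fun b => step_one_false cA cC b x' l)
  have h2 := eT_two (cA := cA) (cC := cC) N l (false :: x')
  rw [pairBits_eq, hl] at h2
  obtain ⟨t, ht, hrun⟩ := h.runC l.reverse (by simpa using hl)
  rw [inp_eq, inp_eq] at hrun
  obtain ⟨v', hseg⟩ := code_seg hrun (lvProg cA cC) (fun l => Sum.inr (Sum.inl l)) (ctl cA cC 3)
    (fun _ _ => rfl) none
  have h3 := eT_seg N t (seg_run cA cC hseg)
  have ht' : (t : ℝ) ≤ τ l.reverse := by exact_mod_cast ht
  cases hG : G l.reverse with
  | some y =>
    rw [hG] at h3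
    simp only at h3
    have h4 := eT_step N (fun b => step_three_true cA cC b v' y)
    rw [eT_halt N (c := mkc cA cC none none (st2 y [])) rfl] at h4
    simp only [Option.isSome_some, if_true]
    linarith
  | none =>
    rw [hG] at h3
    simp only at h3
    have h4 := eT_step N (fun b => step_three_false cA cC b v' (head k x'))
    simp only [Option.isSome_none, Bool.false_eq_true, if_false]
    linarith

/-- The expected running time of the Las Vegas machine. -/
theorem lv_timeV {τ : List Bool → ℕ} {G : List Bool → Option (List Bool)}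
    (h : SpecV cA cC x x' k tA τ G)
    (hG : 2 ^ k ≤ 2 * sL k (fun r => if (G r).isSome then 1 else 0)) {W : ℕ}
    (hW : sL k τ ≤ 2 ^ k * W) (N : ℕ) :
    eT N ((lvMachine cA cC).start x) ≤ tA + 1 + 2 * (2 * k + 3 + W) := by
  set S := eT N (cfg cA cC 1 (head k x') []) with hS
  have hS0 : 0 ≤ S := eT_nonneg _ _
  obtain ⟨v', hseg⟩ := code_seg h.runA (lvProg cA cC) Sum.inl (ctl cA cC 0) (fun _ _ => rfl) none
  have h1 := eT_seg N tA (seg_run cA cC hseg)
  rw [inp_eq (head k x')] at h1
  have h2 := eT_step N (fun b => step_zero cA cC b v' (head k x'))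
  rw [← hS] at h2
  have h3 := eT_toss (cA := cA) (cC := cC) (x' := x') N k []
  rw [← hS, avg_eq] at h3
  set c : ℝ := sL k (fun r => if (G r).isSome then (1 : ℝ) else 0) with hc
  have hk : (0 : ℝ) < 2 ^ k := by positivity
  have h4 : sL k (fun u => eT N (cfg cA cC 1 (false :: x') (u.reverse ++ []))) ≤
      2 ^ k * (k + 3 + W) + (2 ^ k - c) * S := by
    have e1 : sL k (fun u => eT N (cfg cA cC 1 (false :: x') (u.reverse ++ []))) ≤
        sL k (fun u => ((k + 3 : ℝ) + τ u) + (S - (if (G u).isSome then (1 : ℝ) else 0) * S)) := by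
      refine sL_le fun l hl => ?_
      rw [List.append_nil]
      have := eT_bodyV h N (l := l.reverse) (by simpa using hl)
      rw [List.reverse_reverse, ← hS] at this
      refine this.trans (le_of_eq ?_)
      split_ifs <;> ring
    refine e1.trans ?_
    rw [sL_add_fun, sL_add_fun, sL_const]
    have e2 : sL k (fun u => S - (if (G u).isSome then (1 : ℝ) else 0) * S) = (2 ^ k - c) * S := by
      have e3 : ∀ u : List Bool, S - (if (G u).isSome then (1 : ℝ) else 0) * S =
          S + (if (G u).isSome then (1 : ℝ) else 0) * (-S) := by intro u; ring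
      simp only [e3]
      rw [sL_add_fun, sL_const, sL_mul_right, ← hc, nsmul_eq_mul]
      push_cast; ring
    rw [e2, nsmul_eq_mul]
    have e4 : sL k (fun u => (τ u : ℝ)) ≤ 2 ^ k * W := by
      rw [← sL_cast]
      exact_mod_cast hW
    push_cast
    nlinarith
  have hD' : (2 : ℝ) ^ k ≤ 2 * c := by
    have : ((2 ^ k : ℕ) : ℝ) ≤ ((2 * sL k (fun r => if (G r).isSome then 1 else 0) : ℕ) : ℝ) := by
      exact_mod_cast hG
    push_cast at this
    rw [sL_cast] at this
    simpa using this
  have h7 : S ≤ k + (2 ^ k * (k + 3 + W) + (2 ^ k - c) * S) / 2 ^ k :=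
    h3.trans (add_le_add le_rfl (div_le_div_of_nonneg_right h4 hk.le))
  have h8 : c * S ≤ 2 ^ k * (2 * k + 3 + W) := by
    have h9 : (2 ^ k * (k + 3 + W) + (2 ^ k - c) * S) / 2 ^ k =
        (k + 3 + W) + S - c * S / 2 ^ k := by
      field_simp
      ring
    rw [h9] at h7
    have h10 : c * S / 2 ^ k ≤ 2 * k + 3 + W := by linarith
    rw [div_le_iff₀ hk] at h10
    linarith
  have h11 : S ≤ 2 * (2 * k + 3 + W) := by
    have h12 : 2 ^ k * S ≤ 2 ^ k * (2 * (2 * k + 3 + W)) := by
      calc 2 ^ k * S ≤ (2 * c) * S := mul_le_mul_of_nonneg_right hD' hS0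
        _ = 2 * (c * S) := by ring
        _ ≤ 2 * (2 ^ k * (2 * k + 3 + W)) := mul_le_mul_of_nonneg_left h8 (by positivity)
        _ = _ := by ring
    exact le_of_mul_le_mul_left h12 hk
  rw [start_eq]
  linarith

/-! ### output probabilities -/

theorem pI_two (Gd : (lvMachine cA cC).Conf → Prop) : ∀ v u : List Bool,
    pI Gd (cfg cA cC 2 u v) = pI Gd (mkc cA cC (some (Sum.inr (Sum.inl cC.entry))) none
      (st2 (v.reverse.flatMap (fun b => [true, b]) ++ u) [])) := by
  intro v
  induction v with
  | nil =>
    intro u
    rw [pI_step Gd (fun b => step_two_nil cA cC b u)]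
    rfl
  | cons a v ih =>
    intro u
    rw [pI_step Gd (fun b => step_two_cons cA cC b a u v), ih]
    have e : v.reverse.flatMap (fun b => [true, b]) ++ true :: a :: u =
        (a :: v).reverse.flatMap (fun b => [true, b]) ++ u := by simp
    rw [e]

theorem pI_toss (Gd : (lvMachine cA cC).Conf → Prop) : ∀ (j : ℕ) (acc : List Bool),
    pI Gd (cfg cA cC 1 (head j x') acc) =
      sL j (fun u => pI Gd (cfg cA cC 1 (false :: x') (u.reverse ++ acc))) / 2 ^ j := by
  intro j
  induction j with
  | zero => intro acc; simp [head, sL_zero]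
  | succ j ih =>
    intro acc
    have e : head (j + 1) x' = true :: head j x' := rfl
    rw [e, pI_coin Gd (fun b => step_one_true cA cC b (head j x') acc), ih, ih, sL_succ]
    simp only [List.reverse_cons, List.append_assoc, List.cons_append, List.nil_append]
    rw [pow_succ, ← ENNReal.add_div, ENNReal.div_eq_inv_mul, ENNReal.div_eq_inv_mul,
      ENNReal.div_eq_inv_mul, ENNReal.mul_inv (Or.inr (by norm_num)) (Or.inl (by simp))]
    ring

open Classical in
theorem pI_bodyV {τ : List Bool → ℕ} {G : List Bool → Option (List Bool)}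
    (h : SpecV cA cC x x' k tA τ G) (Y : Set (List Bool)) {l : List Bool} (hl : l.length = k) :
    pI (fun c => ∃ y ∈ Y, ∃ v, c = mkc cA cC none v (update (fun _ => []) 0 y))
      (cfg cA cC 1 (false :: x') l) =
      (match G l.reverse with
        | some y => if y ∈ Y then 1 else 0
        | none => pI (fun c => ∃ y ∈ Y, ∃ v, c = mkc cA cC none v (update (fun _ => []) 0 y))
            (cfg cA cC 1 (head k x') [])) := by
  set Gd : (lvMachine cA cC).Conf → Prop :=
    fun c => ∃ y ∈ Y, ∃ v, c = mkc cA cC none v (update (fun _ => []) 0 y) with hGd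
  rw [pI_step Gd (fun b => step_one_false cA cC b x' l), pI_two, pairBits_eq]
  obtain ⟨t, _, hrun⟩ := h.runC l.reverse (by simpa using hl)
  rw [inp_eq, inp_eq] at hrun
  obtain ⟨v', hseg⟩ := code_seg hrun (lvProg cA cC) (fun l => Sum.inr (Sum.inl l)) (ctl cA cC 3)
    (fun _ _ => rfl) none
  rw [pI_seg Gd t (seg_run cA cC hseg)]
  cases hG : G l.reverse with
  | some y =>
    simp only
    rw [pI_step Gd (fun b => step_three_true cA cC b v' y), pI_halt Gd (by rfl)]
    have : Gd (mkc cA cC none none (st2 y [])) ↔ y ∈ Y := by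
      constructor
      · rintro ⟨y', hy', v, h1⟩
        rw [st2_nil] at h1
        have h2 : (update (fun _ => []) 0 y : Fin (N₀ + 2) → List Bool) =
            update (fun _ => []) 0 y' := congrArg TM2.Cfg.stk h1
        have h3 := congrFun h2 0
        simp only [update_self] at h3
        rw [h3]; exact hy'
      · intro hy
        exact ⟨y, hy, none, by rw [st2_nil]⟩
    simp only [this]
  | none =>
    simp only
    rw [pI_step Gd (fun b => step_three_false cA cC b v' (head k x'))]

open Classical in
/-- the indicator of a good output -/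
noncomputable def hitN (Y : Set (List Bool)) : Option (List Bool) → ℕ
  | some y => if y ∈ Y then 1 else 0
  | none => 0

/-- The law of the output of the Las Vegas machine. -/
theorem lv_prob {τ : List Bool → ℕ} {G : List Bool → Option (List Bool)}
    (h : SpecV cA cC x x' k tA τ G) (Y : Set (List Bool)) {a c : ℕ}
    (ha : sL k (fun r => hitN Y (G r)) = a)
    (hc : sL k (fun r => if (G r).isSome then 1 else 0) = c) (hc0 : 0 < c) :
    outputProb (lvMachine cA cC) x Y = (a : ENNReal) / c := by
  classical
  set Gd : (lvMachine cA cC).Conf → Prop :=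
    fun c => ∃ y ∈ Y, ∃ v, c = mkc cA cC none v (update (fun _ => []) 0 y) with hGd
  have h0 : outputProb (lvMachine cA cC) x Y = pI Gd ((lvMachine cA cC).start x) := by
    unfold outputProb pI
    refine tsum_congr fun i => ?_
    congr 3
    ext w
    simp only [hitSet, Set.mem_ofPred_eq]
    refine and_congr_right fun _ => ?_
    constructor
    · rintro ⟨y, hy, v, hv⟩
      exact ⟨_, hv, rfl, y, hy, v, rfl⟩
    · rintro ⟨c', h1, _, y, hy, v, rfl⟩
      exact ⟨y, hy, v, h1⟩
  set P := pI Gd (cfg cA cC 1 (head k x') []) with hP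
  have hP1 : P ≤ 1 := pI_le_one _ _
  obtain ⟨v', hseg⟩ := code_seg h.runA (lvProg cA cC) Sum.inl (ctl cA cC 0) (fun _ _ => rfl) none
  have h1 : pI Gd ((lvMachine cA cC).start x) = P := by
    rw [start_eq, pI_seg Gd tA (seg_run cA cC hseg), inp_eq (head k x'),
      pI_step Gd (fun b => step_zero cA cC b v' (head k x'))]
  rw [h0, h1]
  have h2 := pI_toss (cA := cA) (cC := cC) (x' := x') Gd k []
  rw [← hP] at h2
  -- everything in real numbers
  set p : ℝ := P.toReal with hp
  have hp0 : 0 ≤ p := ENNReal.toReal_nonneg
  have hPp : P = ENNReal.ofReal p := (ENNReal.ofReal_toReal (ne_top_of_le_ne_top (by simp) hP1)).symm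
  set u : List Bool → ℝ := fun r => (if (G r).isSome then (1 : ℝ) else 0) with hu
  have hu1 : ∀ r, 0 ≤ 1 - u r := by intro r; simp only [hu]; split_ifs <;> norm_num
  have h3 : sL k (fun u => pI Gd (cfg cA cC 1 (false :: x') (u.reverse ++ []))) =
      ENNReal.ofReal (sL k (fun r => (hitN Y (G r) : ℝ) + (1 - u r) * p)) := by
    have hof : ∀ (k : ℕ) (f : List Bool → ℝ), (∀ l, 0 ≤ f l) →
        ENNReal.ofReal (sL k f) = sL k (fun l => ENNReal.ofReal (f l)) ∧ 0 ≤ sL k f := by
      intro k
      induction k with
      | zero => intro f hf; simp [sL_zero, hf []]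
      | succ k ih =>
        intro f hf
        obtain ⟨i1, i2⟩ := ih (fun l => f (false :: l)) (fun l => hf _)
        obtain ⟨j1, j2⟩ := ih (fun l => f (true :: l)) (fun l => hf _)
        rw [sL_succ, sL_succ, ENNReal.ofReal_add i2 j2, i1, j1]
        exact ⟨rfl, add_nonneg i2 j2⟩
    rw [(hof k _ (fun l => add_nonneg (Nat.cast_nonneg _) (mul_nonneg (hu1 l) hp0))).1]
    refine sL_congr fun l hl => ?_
    rw [List.append_nil]
    have h4 := pI_bodyV h Y (l := l.reverse) (by simpa using hl)
    rw [List.reverse_reverse] at h4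
    rw [h4]
    cases hG : G l with
    | some y =>
      simp only [hu, hG, Option.isSome_some, if_true, hitN]
      split_ifs <;> simp
    | none =>
      simp only [hu, hG, Option.isSome_none, Bool.false_eq_true, if_false, hitN]
      rw [← hGd, ← hP, hPp]
      simp
  have hcu : sL k u = c := by
    rw [← hc, sL_cast]
    refine sL_congr fun l _ => ?_
    simp only [hu]
    split_ifs <;> simp
  have h5 : sL k (fun r => (hitN Y (G r) : ℝ) + (1 - u r) * p) = a + (2 ^ k - c) * p := by
    rw [sL_add_fun, sL_mul_right, ← ha, sL_cast]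
    have e2 : sL k (fun r => 1 - u r) = 2 ^ k - c := by
      have e3 : ∀ r : List Bool, 1 - u r = 1 + (-1) * u r := by intro r; ring
      simp only [e3]
      rw [sL_add_fun, sL_const, sL_mul_left, hcu, nsmul_eq_mul]
      push_cast
      ring
    rw [e2]
  rw [h3, h5, hPp] at h2
  have hk : (0 : ℝ) < 2 ^ k := by positivity
  have hck : (c : ℝ) ≤ 2 ^ k := by
    rw [← hcu]
    have := sL_le (k := k) (f := u) (g := fun _ => 1) (fun l _ => by
      simp only [hu]; split_ifs <;> norm_num)
    refine this.trans ?_
    rw [sL_const]; simp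
  have h6 : p = (a + (2 ^ k - c) * p) / 2 ^ k := by
    have e1 : (2 : ENNReal) ^ k = ENNReal.ofReal (2 ^ k) := by
      rw [ENNReal.ofReal_pow (by norm_num)]; simp
    rw [e1, ← ENNReal.ofReal_div_of_pos hk] at h2
    have e2 := congrArg ENNReal.toReal h2
    have e3 : 0 ≤ (2 ^ k - (c : ℝ)) * p := mul_nonneg (by linarith) hp0
    rw [ENNReal.toReal_ofReal hp0, ENNReal.toReal_ofReal (by positivity)] at e2
    exact e2
  have hc1 : (0 : ℝ) < c := by exact_mod_cast hc0
  have h7 : p = a / c := by
    rw [eq_div_iff hk.ne'] at h6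
    rw [eq_div_iff hc1.ne']
    linarith
  rw [hPp, h7, ENNReal.ofReal_div_of_pos hc1, ENNReal.ofReal_natCast, ENNReal.ofReal_natCast]

end lv

end Pool.Agent.E8helper91.Samp
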