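import Pool.Agent.E8helper91.Samp.PDefs
import Pool.Agent.E8helper91.Samp.Chain

/-!
# The law of the chain run by the algorithm
-/

set_option autoImplicit false

namespace Pool.Agent.E8helper91.Samp

open Pool.Agent.NPC Pool.Agent.H670R2 Finset

/-! ### bit strings and finite sets -/

/-- the bit string of a set -/
def ofF {m : ℕ} (I : Finset (Fin m)) : List Bool := List.ofFn fun i => decide (i ∈ I)

theorem length_ofF {m : ℕ} (I : Finset (Fin m)) : (ofF I).length = m := by simp [ofF]

theorem getElem?_ofF {m : ℕ} (I : Finset (Fin m)) (i : ℕ) :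
    (ofF I)[i]? = if h : i < m then some (decide ((⟨i, h⟩ : Fin m) ∈ I)) else none := by
  unfold ofF
  rw [List.getElem?_ofFn]

theorem getD_ofF {m : ℕ} (I : Finset (Fin m)) (i : ℕ) (d : Bool) :
    (ofF I).getD i d = if h : i < m then decide ((⟨i, h⟩ : Fin m) ∈ I) else d := by
  rw [List.getD_eq_getElem?_getD, getElem?_ofF]
  split_ifs <;> rfl

theorem ofF_injective {m : ℕ} : Function.Injective (ofF : Finset (Fin m) → List Bool) := by
  intro I J h
  ext i
  have := congrArg (fun l : List Bool => l.getD i false) h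
  simp only [getD_ofF, i.2, dif_pos, Fin.eta] at this
  simpa using this

theorem exists_ofF {m : ℕ} {S : List Bool} (h : S.length = m) :
    ∃ I : Finset (Fin m), ofF I = S := by
  refine ⟨univ.filter fun i => S.getD i false = true, ?_⟩
  refine List.ext_getElem? fun i => ?_
  rw [getElem?_ofF]
  split_ifs with hi
  · simp only [mem_filter, mem_univ, true_and]
    rw [List.getD_eq_getElem?_getD]
    have h2 : S[i]? = some (S[i]'(by omega)) := List.getElem?_eq_getElem (by omega)
    rw [h2]
    simp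
  · rw [List.getElem?_eq_none (by omega)]

theorem sel_ofF {β : Type} (vs : List β) (I : Finset (Fin vs.length)) :
    sel vs (ofF I) = ((List.finRange vs.length).filter fun i => decide (i ∈ I)).map vs.get := by
  have h1 : vs.zip (ofF I) = (List.finRange vs.length).map fun i => (vs.get i, decide (i ∈ I)) := by
    refine List.ext_getElem (by simp [ofF]) fun k h1 h2 => ?_
    simp [ofF]
  unfold sel
  rw [h1, List.filter_map, List.map_map]
  rfl

theorem length_sel {β : Type} (vs : List β) (I : Finset (Fin vs.length)) :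
    (sel vs (ofF I)).length = I.card := by
  rw [sel_ofF, List.length_map]
  have h1 : ((List.finRange vs.length).filter fun i => decide (i ∈ I)).Nodup :=
    (List.nodup_finRange _).filter _
  rw [← List.toFinset_card_of_nodup h1]
  congr 1
  ext i
  simp

theorem swp_ofF {m : ℕ} (I : Finset (Fin m)) (i j : Fin m) (hij : i ≠ j) :
    swp (ofF I) i j = ofF (insert j (I.erase i)) := by
  refine List.ext_getElem? fun k => ?_
  unfold swp
  rw [List.getElem?_map, List.getElem?_zipIdx, getElem?_ofF, getElem?_ofF]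
  by_cases hk : k < m
  · rw [dif_pos hk, dif_pos hk]
    simp only [Option.map_some, zero_add]
    congr 1
    by_cases h1 : k = i
    · subst h1
      rw [if_pos rfl]
      simp [hij]
    · rw [if_neg h1]
      have h1' : (⟨k, hk⟩ : Fin m) ≠ i := fun h => h1 (by rw [← h])
      by_cases h2 : k = j
      · subst h2
        rw [if_pos rfl]
        simp
      · rw [if_neg h2]
        have h2' : (⟨k, hk⟩ : Fin m) ≠ j := fun h => h2 (by rw [← h])
        simp [h1', h2']
  · rw [dif_neg hk, dif_neg hk]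
    rfl

/-! ### numbers from bits -/

theorem sL_valB {R : Type} [AddCommMonoid R] (a : ℕ) (f : ℕ → R) :
    sL a (fun l => f (valB l)) = ∑ i ∈ range (2 ^ a), f i := by
  induction a generalizing f with
  | zero => simp [sL_zero]
  | succ a ih =>
    rw [sL_succ]
    have h1 := ih (fun n => f (2 * n))
    have h2 := ih (fun n => f (1 + 2 * n))
    simp only [valB_cons, Bool.false_eq_true, if_false, if_true, zero_add]
    rw [h1, h2, ← Finset.sum_add_distrib]
    have h3 : ∀ n : ℕ, ∑ i ∈ range (2 * n), f i = ∑ i ∈ range n, (f (2 * i) + f (1 + 2 * i)) := by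
      intro n
      induction n with
      | zero => simp
      | succ n ih2 =>
        rw [show 2 * (n + 1) = 2 * n + 1 + 1 by ring, Finset.sum_range_succ, Finset.sum_range_succ,
          ih2, Finset.sum_range_succ, add_assoc, add_comm 1 (2 * n)]
    rw [pow_succ, mul_comm, h3]

/-! ### the independent sets -/

/-- the independent sets of columns -/
def IndV (vs : List (List ℤ)) (I : Finset (Fin vs.length)) : Prop := indep vs (ofF I) = true

/-- what is used about the columns: they are the elements of a matroid of rank `r`, and `B₀` is a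
basis -/
structure Good (vs : List (List ℤ)) (r : ℕ) (B₀ : Finset (Fin vs.length)) : Prop where
  ind : IndSys (IndV vs)
  rank : HasRank (IndV vs) r
  base : B₀ ∈ bases (IndV vs) r

variable {vs : List (List ℤ)} {r : ℕ} {B₀ : Finset (Fin vs.length)}

/-- the move made with two arbitrary numbers -/
noncomputable def mvN (vs : List (List ℤ)) (r : ℕ) (B : Finset (Fin vs.length)) (i j : ℕ) :
    Finset (Fin vs.length) :=
  if h : i < vs.length ∧ j < vs.length then mv (IndV vs) r B ⟨i, h.1⟩ ⟨j, h.2⟩ else B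

theorem stepL_ofF {B : Finset (Fin vs.length)} (hB : B ∈ bases (IndV vs) r) (a : ℕ)
    (u : List Bool) :
    stepL vs a (ofF B) u = ofF (if u.headD false = true then
      mvN vs r B (valB ((u.drop 1).take a)) (valB (u.drop (1 + a))) else B) := by
  unfold stepL
  set i := valB ((u.drop 1).take a)
  set j := valB (u.drop (1 + a))
  by_cases hu : u.headD false = true
  swap
  · rw [if_neg, if_neg hu]
    intro h
    rw [Bool.and_eq_true] at h
    exact hu h.1
  rw [if_pos hu]
  have key : (u.headD false && ((ofF B).getD i false && (!((ofF B).getD j true) &&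
      indep vs (swp (ofF B) i j)))) = true ↔
      ∃ h : i < vs.length ∧ j < vs.length, valid (IndV vs) r B ⟨i, h.1⟩ ⟨j, h.2⟩ := by
    rw [hu, Bool.true_and, Bool.and_eq_true, Bool.and_eq_true, getD_ofF, getD_ofF]
    constructor
    · rintro ⟨h1, h2, h3⟩
      by_cases hi : i < vs.length
      · rw [dif_pos hi, decide_eq_true_eq] at h1
        by_cases hj : j < vs.length
        · rw [dif_pos hj] at h2
          have h2' : (⟨j, hj⟩ : Fin vs.length) ∉ B := by simpa using h2
          refine ⟨⟨hi, hj⟩, h1, h2', ?_⟩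
          have hij : (⟨i, hi⟩ : Fin vs.length) ≠ ⟨j, hj⟩ := fun h => h2' (h ▸ h1)
          have e1 := swp_ofF B ⟨i, hi⟩ ⟨j, hj⟩ hij
          simp only at e1
          rw [e1] at h3
          rw [mem_bases]
          refine ⟨h3, ?_⟩
          rw [card_insert_of_notMem (fun h => h2' (mem_of_mem_erase h)), card_erase_of_mem h1,
            ← (mem_bases.1 hB).2]
          have : 0 < B.card := card_pos.2 ⟨_, h1⟩
          omega
        · rw [dif_neg hj] at h2; simp at h2
      · rw [dif_neg hi] at h1; simp at h1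
    · rintro ⟨⟨hi, hj⟩, h1, h2, h3⟩
      rw [dif_pos hi, dif_pos hj]
      refine ⟨by simpa using h1, by simpa using h2, ?_⟩
      have hij : (⟨i, hi⟩ : Fin vs.length) ≠ ⟨j, hj⟩ := fun h => h2 (h ▸ h1)
      have e1 := swp_ofF B ⟨i, hi⟩ ⟨j, hj⟩ hij
      simp only at e1
      rw [e1]
      exact (mem_bases.1 h3).1
  by_cases hc : ∃ h : i < vs.length ∧ j < vs.length, valid (IndV vs) r B ⟨i, h.1⟩ ⟨j, h.2⟩
  · rw [if_pos (key.2 hc)]
    obtain ⟨h, hv⟩ := hc
    unfold mvN
    rw [dif_pos h, mv_valid hv]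
    exact swp_ofF B ⟨i, h.1⟩ ⟨j, h.2⟩ (fun h' => hv.2.1 (h' ▸ hv.1))
  · rw [if_neg (fun h => hc (key.1 h))]
    unfold mvN
    split_ifs with h
    · rw [mv_invalid (fun hv => hc ⟨h, hv⟩)]
    · rfl

theorem mvN_mem {B : Finset (Fin vs.length)} (hB : B ∈ bases (IndV vs) r) (i j : ℕ) :
    mvN vs r B i j ∈ bases (IndV vs) r := by
  unfold mvN
  split_ifs
  · exact mv_mem hB _ _
  · exact hB

theorem stepL_mem {B : Finset (Fin vs.length)} (hB : B ∈ bases (IndV vs) r) (a : ℕ)
    (u : List Bool) : ∃ B' ∈ bases (IndV vs) r, stepL vs a (ofF B) u = ofF B' := by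
  rw [stepL_ofF hB]
  refine ⟨_, ?_, rfl⟩
  split_ifs
  · exact mvN_mem hB _ _
  · exact hB

theorem sum_pad (m n : ℕ) (h : m ≤ n) (G : ℕ → ℕ → ℝ) (c : ℝ)
    (hG : ∀ i j, ¬ (i < m ∧ j < m) → G i j = c) :
    ∑ i ∈ range n, ∑ j ∈ range n, G i j =
      (n : ℝ) ^ 2 * c + ∑ i : Fin m, ∑ j : Fin m, (G i j - c) := by
  have h1 : ∀ i ∈ range n, ∑ j ∈ range n, (G i j - c) = ∑ j ∈ range m, (G i j - c) := by
    intro i _
    symm
    refine Finset.sum_subset (range_mono h) fun j _ hj => ?_
    rw [hG i j (by rw [Finset.mem_range] at hj; tauto), sub_self]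
  have h2 : ∑ i ∈ range n, ∑ j ∈ range m, (G i j - c) =
      ∑ i ∈ range m, ∑ j ∈ range m, (G i j - c) := by
    symm
    refine Finset.sum_subset (range_mono h) fun i _ hi => ?_
    refine Finset.sum_eq_zero fun j _ => ?_
    rw [hG i j (by rw [Finset.mem_range] at hi; tauto), sub_self]
  have h3 : ∑ i ∈ range n, ∑ j ∈ range n, (G i j - c) =
      ∑ i ∈ range n, ∑ j ∈ range n, G i j - (n : ℝ) ^ 2 * c := by
    simp only [Finset.sum_sub_distrib, Finset.sum_const, card_range, nsmul_eq_mul]
    ring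
  rw [Finset.sum_congr rfl h1, h2] at h3
  have h4 : ∑ i ∈ range m, ∑ j ∈ range m, (G i j - c) = ∑ i : Fin m, ∑ j : Fin m, (G i j - c) := by
    rw [Finset.sum_range]
    exact Finset.sum_congr rfl fun i _ => Finset.sum_range _
  rw [h4] at h3
  linarith

/-- one step of the program is one step of the chain -/
theorem sum_stepL {B : Finset (Fin vs.length)} (hB : B ∈ bases (IndV vs) r) (a : ℕ)
    (ha : vs.length ≤ 2 ^ a) (g : List Bool → ℝ) :
    sL (2 * a + 1) (fun u => g (stepL vs a (ofF B) u)) =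
      2 ^ (2 * a + 1) * Q (IndV vs) r (1 / 4 ^ a) (fun B' => g (ofF B')) B := by
  rw [sL_succ, show 2 * a = a + a by ring, sL_add, sL_add]
  have h1 : sL a (fun u => sL a (fun v => g (stepL vs a (ofF B) (false :: (u ++ v))))) =
      4 ^ a * g (ofF B) := by
    have e1 : ∀ u v : List Bool, g (stepL vs a (ofF B) (false :: (u ++ v))) = g (ofF B) := by
      intro u v
      rw [stepL_ofF hB]
      simp
    simp only [e1, sL_const, nsmul_eq_mul]
    have : (4 : ℝ) ^ a = 2 ^ a * 2 ^ a := by rw [← mul_pow]; norm_num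
    rw [this]
    push_cast
    ring
  have h2 : sL a (fun u => sL a (fun v => g (stepL vs a (ofF B) (true :: (u ++ v))))) =
      ∑ i ∈ range (2 ^ a), ∑ j ∈ range (2 ^ a), g (ofF (mvN vs r B i j)) := by
    rw [← sL_valB a (fun i => ∑ j ∈ range (2 ^ a), g (ofF (mvN vs r B i j)))]
    refine sL_congr fun u hu => ?_
    rw [← sL_valB a (fun j => g (ofF (mvN vs r B (valB u) j)))]
    refine sL_congr fun v hv => ?_
    rw [stepL_ofF hB]
    have e1 : ((true :: (u ++ v)).drop 1).take a = u := by
      simp [← hu]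
    have e2 : (true :: (u ++ v)).drop (1 + a) = v := by
      rw [add_comm, List.drop_succ_cons, ← hu]
      simp
    rw [e1, e2]
    simp
  rw [h1, h2, sum_pad vs.length (2 ^ a) ha _ (g (ofF B)) (by
    intro i j h
    unfold mvN
    rw [dif_neg h])]
  unfold Q Q'
  have e3 : ∑ i : Fin vs.length, ∑ j : Fin vs.length,
      (g (ofF (mvN vs r B i j)) - g (ofF B)) =
      ∑ i, ∑ j, (g (ofF (mv (IndV vs) r B i j)) - g (ofF B)) := by
    refine Finset.sum_congr rfl fun i _ => Finset.sum_congr rfl fun j _ => ?_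
    unfold mvN
    rw [dif_pos ⟨i.2, j.2⟩]
  rw [e3]
  have e4 : ((2 ^ a : ℕ) : ℝ) ^ 2 = 4 ^ a := by
    push_cast
    rw [← pow_mul, mul_comm, pow_mul]; norm_num
  have e5 : (2 : ℝ) ^ (a + a + 1) = 2 * 4 ^ a := by
    rw [pow_succ, ← two_mul, pow_mul]; norm_num; ring
  rw [e4, e5]
  have e6 : (4 : ℝ) ^ a ≠ 0 := by positivity
  field_simp

/-! ### several steps -/

theorem chain_zero (vs : List (List ℤ)) (a : ℕ) (S c : List Bool) : chain vs a 0 S c = S := rfl

theorem chain_succ (vs : List (List ℤ)) (a T : ℕ) (S u c : List Bool)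
    (hu : u.length = 2 * a + 1) : chain vs a (T + 1) S (u ++ c) = chain vs a T (stepL vs a S u) c := by
  unfold chain
  rw [Function.iterate_succ_apply]
  congr 2
  unfold stepP
  simp only
  rw [← hu]
  simp

theorem iter_stepP (vs : List (List ℤ)) (a : ℕ) : ∀ (T : ℕ) (S c c' : List Bool),
    c.length = T * (2 * a + 1) → (stepP vs a)^[T] (S, c ++ c') = (chain vs a T S c, c') := by
  intro T
  induction T with
  | zero =>
    intro S c c' hc
    have : c = [] := List.length_eq_zero_iff.1 (by simpa using hc)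
    subst this
    rfl
  | succ T ih =>
    intro S c c' hc
    have hc2 : c.length = 2 * a + 1 + T * (2 * a + 1) := by rw [hc]; ring
    have h1 : c = c.take (2 * a + 1) ++ c.drop (2 * a + 1) := (List.take_append_drop _ c).symm
    have h2 : (c.take (2 * a + 1)).length = 2 * a + 1 := by simp; omega
    rw [h1, chain_succ vs a T S _ _ h2, Function.iterate_succ_apply]
    have h3 : stepP vs a (S, c.take (2 * a + 1) ++ c.drop (2 * a + 1) ++ c') =
        (stepL vs a S (c.take (2 * a + 1)), c.drop (2 * a + 1) ++ c') := by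
      unfold stepP
      simp only [List.append_assoc]
      rw [List.take_left' h2, List.drop_left' h2]
    rw [h3, ih _ _ _ (by simp; omega)]

theorem chain_last (vs : List (List ℤ)) (a T : ℕ) (S c u : List Bool)
    (hc : c.length = T * (2 * a + 1)) (hu : u.length = 2 * a + 1) :
    chain vs a (T + 1) S (c ++ u) = stepL vs a (chain vs a T S c) u := by
  unfold chain
  rw [Function.iterate_succ_apply', iter_stepP vs a T S c u hc]
  unfold stepP
  simp only
  rw [List.take_of_length_le (by omega)]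
  rfl

theorem chain_mem (a T : ℕ) : ∀ {B : Finset (Fin vs.length)}, B ∈ bases (IndV vs) r →
    ∀ c : List Bool, ∃ B' ∈ bases (IndV vs) r, chain vs a T (ofF B) c = ofF B' := by
  induction T with
  | zero => intro B hB c; exact ⟨B, hB, rfl⟩
  | succ T ih =>
    intro B hB c
    obtain ⟨B1, hB1, h1⟩ := stepL_mem hB a (c.take (2 * a + 1))
    unfold chain
    rw [Function.iterate_succ_apply]
    have h2 : stepP vs a (ofF B, c) = (ofF B1, c.drop (2 * a + 1)) := by
      unfold stepP; rw [← h1]
    rw [h2]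
    exact ih hB1 _

theorem Q_congr {g g' : Finset (Fin vs.length) → ℝ} {q : ℝ}
    (h : ∀ B ∈ bases (IndV vs) r, g B = g' B) {B : Finset (Fin vs.length)}
    (hB : B ∈ bases (IndV vs) r) : Q (IndV vs) r q g B = Q (IndV vs) r q g' B := by
  unfold Q Q'
  rw [h B hB]
  congr 3
  congr 1
  refine Finset.sum_congr rfl fun i _ => Finset.sum_congr rfl fun j _ => ?_
  rw [h _ (mv_mem hB i j)]

/-- the law of the chain run by the program -/
theorem sum_chain (a : ℕ) (ha : vs.length ≤ 2 ^ a) (g : List Bool → ℝ) (T : ℕ) :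
    ∀ B ∈ bases (IndV vs) r, sL (T * (2 * a + 1)) (fun c => g (chain vs a T (ofF B) c)) =
      2 ^ (T * (2 * a + 1)) *
        ((Q (IndV vs) r (1 / 4 ^ a))^[T] (fun B' => g (ofF B'))) B := by
  induction T with
  | zero =>
    intro B _
    simp [sL_zero, chain_zero]
  | succ T ih =>
    intro B hB
    rw [show (T + 1) * (2 * a + 1) = (2 * a + 1) + T * (2 * a + 1) by ring, sL_add]
    have h1 : sL (2 * a + 1) (fun u => sL (T * (2 * a + 1)) (fun v =>
        g (chain vs a (T + 1) (ofF B) (u ++ v)))) =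
        sL (2 * a + 1) (fun u => (fun S => sL (T * (2 * a + 1)) (fun v => g (chain vs a T S v)))
          (stepL vs a (ofF B) u)) := by
      refine sL_congr fun u hu => sL_congr fun v _ => ?_
      rw [chain_succ vs a T _ u v hu]
    rw [h1, sum_stepL hB a ha (fun S => sL (T * (2 * a + 1)) (fun v => g (chain vs a T S v)))]
    rw [Function.iterate_succ_apply']
    have h2 := Q_congr (q := 1 / 4 ^ a) ih hB
    rw [h2]
    have h3 : Q (IndV vs) r (1 / 4 ^ a) (fun B' => 2 ^ (T * (2 * a + 1)) *
        ((Q (IndV vs) r (1 / 4 ^ a))^[T] (fun B' => g (ofF B'))) B') B =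
        2 ^ (T * (2 * a + 1)) * Q (IndV vs) r (1 / 4 ^ a)
          ((Q (IndV vs) r (1 / 4 ^ a))^[T] (fun B' => g (ofF B'))) B := by
      unfold Q Q'
      have : ∀ x y : ℝ, 2 ^ (T * (2 * a + 1)) * x - 2 ^ (T * (2 * a + 1)) * y =
          2 ^ (T * (2 * a + 1)) * (x - y) := by intro x y; ring
      simp only [this, ← Finset.mul_sum]
      ring
    rw [h3, pow_add]
    ring

/-! ### counting -/

/-- the number of random strings leading to `y` -/
def cnt (vs : List (List ℤ)) (a T : ℕ) (S₀ y : List Bool) : ℕ :=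
  sL (T * (2 * a + 1)) (fun c => if chain vs a T S₀ c = y then 1 else 0)

theorem cnt_real (h : Good vs r B₀) (a : ℕ) (ha : vs.length ≤ 2 ^ a) (T : ℕ)
    {B : Finset (Fin vs.length)} (_hB : B ∈ bases (IndV vs) r) :
    (cnt vs a T (ofF B₀) (ofF B) : ℝ) = 2 ^ (T * (2 * a + 1)) *
      ((Q (IndV vs) r (1 / 4 ^ a))^[T] (fun B' => if B' = B then 1 else 0)) B₀ := by
  unfold cnt
  rw [sL_cast]
  have h1 := sum_chain a ha (fun S => if S = ofF B then (1 : ℝ) else 0) T B₀ h.base
  simp only [ofF_injective.eq_iff] at h1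
  rw [← h1]
  refine sL_congr fun l _ => ?_
  split_ifs <;> simp

theorem cnt_le (h : Good vs r B₀) (a : ℕ) (ha : vs.length ≤ 2 ^ a) (s : ℕ)
    {B : Finset (Fin vs.length)} (hB : B ∈ bases (IndV vs) r) :
    (cnt vs a (4 ^ (a + 1) * s) (ofF B₀) (ofF B) : ℝ) ≤
      2 ^ (4 ^ (a + 1) * s * (2 * a + 1)) * (1 / (bases (IndV vs) r).card + 1 / 2 ^ s) := by
  rw [cnt_real h a ha _ hB]
  refine mul_le_mul_of_nonneg_left ?_ (by positivity)
  have h4 : (0 : ℝ) < 4 ^ a := by positivity
  have hge : (1 : ℝ) ≤ 4 ^ a := one_le_pow₀ (by norm_num)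
  have hm := mixing h.ind h.rank (q := 1 / 4 ^ a) (by positivity) (by
      rw [Fintype.card_fin]
      have : ((vs.length : ℕ) : ℝ) ≤ 2 ^ a := by exact_mod_cast ha
      have h5 : (vs.length : ℝ) ^ 2 ≤ (2 ^ a) ^ 2 := pow_le_pow_left₀ (by positivity) this 2
      have h6 : ((2 : ℝ) ^ a) ^ 2 = 4 ^ a := by rw [← pow_mul, mul_comm, pow_mul]; norm_num
      rw [h6] at h5
      rw [one_div, inv_mul_le_iff₀ h4, mul_one]
      exact h5) (by
      have : 1 / (4 : ℝ) ^ a ≤ 1 := by rw [div_le_one h4]; exact hge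
      linarith) (4 ^ (a + 1) * s) h.base hB
  have h7 := hm.trans (pow_bound a s)
  have h8 := abs_le_of_sq_le_sq h7 (by positivity)
  have h9 := (abs_le.1 h8).2
  have e1 : (fun B' : Finset (Fin vs.length) => if B' = B then (1 : ℝ) else 0) =
      (fun B' => if B' = B then 1 else 0) := rfl
  linarith

end Pool.Agent.E8helper91.Samp
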