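import Pool.Agent.E8helper91.Samp.Machine
import Pool.Agent.H670R2.GramDet

/-!
# The algorithm

Faces are increasing lists of vertices; a state of the exchange chain is a bit string telling which
of the faces of maximal dimension are chosen.
-/

set_option autoImplicit false

namespace Pool.Agent.E8helper91.Samp

open Pool.Agent.NPC Pool.Agent.H670R2

/-! ### columns of the boundary matrix -/

/-- one plus the dimension -/
def dimOf (F : List (List ℕ)) : ℕ := F.foldl (fun a l => max a l.length) 0

/-- the faces of maximal dimension -/
def topF (F : List (List ℕ)) : List (List ℕ) := F.filter fun l => decide (l.length = dimOf F)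

/-- the faces of one dimension less -/
def ridges (F : List (List ℕ)) : List (List ℕ) := F.filter fun l => decide (l.length + 1 = dimOf F)

/-- the list without the entry number `i` -/
def del (l : List ℕ) (i : ℕ) : List ℕ := (l.zipIdx.filter fun p => decide (p.2 ≠ i)).map Prod.fst

/-- the coefficient of `t` in the boundary of `l` -/
def coef (l t : List ℕ) : ℤ :=
  ((List.range l.length).map fun i =>
    if t = del l i then (if i % 2 = 0 then (1 : ℤ) else -1) else 0).sum

/-- the boundary of `l` -/
def col (R : List (List ℕ)) (l : List ℕ) : List ℤ := R.map fun t => coef l t

/-- the boundary matrix, as the list of its columns -/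
def cols (F : List (List ℕ)) : List (List ℤ) := (topF F).map fun l => col (ridges F) l

/-! ### independence -/

/-- the entries of `vs` selected by the bit string `S` -/
def sel {β : Type} (vs : List β) (S : List Bool) : List β :=
  ((vs.zip S).filter fun p => p.2).map Prod.fst

/-- are the selected columns independent? -/
def indep (vs : List (List ℤ)) (S : List Bool) : Bool := !decide (gdet (sel vs S) = 0)

/-- one step of the greedy algorithm -/
def gstep (s : List (List ℤ) × List Bool) (v : List ℤ) : List (List ℤ) × List Bool :=
  if gdet (s.1 ++ [v]) = 0 then (s.1, s.2 ++ [false]) else (s.1 ++ [v], s.2 ++ [true])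

/-- the greedy basis -/
def greedy (vs : List (List ℤ)) : List Bool := (vs.foldl gstep ([], [])).2

/-! ### the chain -/

/-- remove `i` and add `j` -/
def swp (S : List Bool) (i j : ℕ) : List Bool :=
  S.zipIdx.map fun p => if p.2 = i then false else if p.2 = j then true else p.1

/-- one step of the lazy exchange chain with the random bits `u` (a bit and two numbers of `a`
bits) -/
def stepL (vs : List (List ℤ)) (a : ℕ) (S u : List Bool) : List Bool :=
  if (u.headD false && (S.getD (valB ((u.drop 1).take a)) false &&
      (!(S.getD (valB (u.drop (1 + a))) true) &&
        indep vs (swp S (valB ((u.drop 1).take a)) (valB (u.drop (1 + a))))))) = true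
  then swp S (valB ((u.drop 1).take a)) (valB (u.drop (1 + a))) else S

/-- one step, taking its bits from a string -/
def stepP (vs : List (List ℤ)) (a : ℕ) (p : List Bool × List Bool) : List Bool × List Bool :=
  (stepL vs a p.1 (p.2.take (2 * a + 1)), p.2.drop (2 * a + 1))

/-- the chain after `T` steps -/
def chain (vs : List (List ℤ)) (a T : ℕ) (S c : List Bool) : List Bool :=
  ((stepP vs a)^[T] (S, c)).1

/-! ### the exact law of the chain -/

/-- the bases -/
def allB (vs : List (List ℤ)) (states : List (List Bool)) (r : ℕ) : List (List Bool) :=
  states.filter fun S => decide ((sel vs S).length = r) && indep vs S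

/-- one step of the computation of the law of the chain -/
def dstep (vs : List (List ℤ)) (a : ℕ) (us : List (List Bool)) (D : List (List Bool × ℕ)) :
    List (List Bool × ℕ) :=
  D.map fun y => (y.1, (D.map fun p =>
    (us.map fun u => if stepL vs a p.1 u = y.1 then p.2 else 0).sum).sum)

/-- the law of the chain after `T` steps, started in `S₀` -/
def dist (vs : List (List ℤ)) (a T : ℕ) (us bs : List (List Bool)) (S₀ : List Bool) :
    List (List Bool × ℕ) :=
  (dstep vs a us)^[T] (bs.map fun y => (y, if y = S₀ then 1 else 0))

/-- the maximum of the second components -/
def maxD (D : List (List Bool × ℕ)) : ℕ := D.foldl (fun a p => max a p.2) 0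

/-- search for the interval containing a number -/
def pickStep (s : Option (List Bool) × ℕ) (p : List Bool × ℕ) : Option (List Bool) × ℕ :=
  if s.1.isSome then s else if s.2 < p.2 then (some p.1, s.2) else (none, s.2 - p.2)

/-- the interval containing `R`, among consecutive intervals of given lengths -/
def pick (l : List (List Bool × ℕ)) (R : ℕ) : Option (List Bool) := (l.foldl pickStep (none, R)).1

/-- the weights which make the total law uniform -/
def weights (K : ℕ) (D : List (List Bool × ℕ)) : List (List Bool × ℕ) :=
  D.map fun p => (p.1, (2 ^ K - 1) * (maxD D - p.2))

/-! ### parameters -/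

/-- number of faces of maximal dimension -/
def mOf (F : List (List ℕ)) : ℕ := (topF F).length

/-- number of bits of `mOf F` -/
def aOf (F : List (List ℕ)) : ℕ := (mOf F).bits.length

/-- number of steps -/
def TOf (K : ℕ) (F : List (List ℕ)) : ℕ := 4 ^ (aOf F + 1) * (K + mOf F)

/-- number of coins for one round -/
def kOf (K : ℕ) (F : List (List ℕ)) : ℕ := K + TOf K F * (2 * aOf F + 1)

/-- the faces of a spanning tree, from the bit string of its faces of maximal dimension -/
def outF (F : List (List ℕ)) (S : List Bool) : List (List ℕ) :=
  F.filter fun l => !decide (l.length = dimOf F) || decide (l ∈ sel (topF F) S)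

/-- the usual case: run the chain -/
def main1 (K : ℕ) (F : List (List ℕ)) (r : List Bool) : List Bool :=
  chain (cols F) (aOf F) (TOf K F) (greedy (cols F)) (r.drop K)

/-- the exceptional case, with given lists of all states and of all random strings for one step -/
def main2 (states us : List (List Bool)) (K : ℕ) (F : List (List ℕ)) (r : List Bool) :
    Option (List Bool) :=
  pick (weights K (dist (cols F) (aOf F) (TOf K F) us
    (allB (cols F) states (sel (cols F) (greedy (cols F))).length) (greedy (cols F))))
    (valB (r.drop K))

/-- one round -/
def GS (K : ℕ) (F : List (List ℕ)) (r : List Bool) : Option (List Bool) :=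
  if (r.take K).any (fun b => b) then some (main1 K F r)
  else main2 (allL (mOf F)) (allL (2 * aOf F + 1)) K F r

/-- one round, with the output as a bit string -/
def GO (K : ℕ) (F : List (List ℕ)) (r : List Bool) : Option (List Bool) :=
  (GS K F r).map fun S => bits (outF F S)

end Pool.Agent.E8helper91.Samp
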