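import Pool.Agent.E8helper91.Samp.PTop

/-!
# The program with an exponentially long exceptional branch
-/

set_option autoImplicit false

namespace Pool.Agent.E8helper91.Samp

open Pool.Agent.NPC Pool.Agent.H670R2 Pool.Agent.NPC.H670R2 Pool.Agent.H591R2
open Function (update)

/-- states with only four nonempty stacks -/
def s4 (a b c d : List Bool) : ℕ → List Bool := fun i =>
  match i with
  | 0 => a
  | 1 => b
  | 2 => c
  | 3 => d
  | _ => []

@[simp] theorem s4_zero (a b c d) : s4 a b c d 0 = a := rfl
@[simp] theorem s4_one (a b c d) : s4 a b c d 1 = b := rfl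
@[simp] theorem s4_two (a b c d) : s4 a b c d 2 = c := rfl
@[simp] theorem s4_three (a b c d) : s4 a b c d 3 = d := rfl

@[simp] theorem update_s4_zero (a b c d x) : update (s4 a b c d) 0 x = s4 x b c d := by
  funext i
  match i with
  | 0 => simp
  | 1 => simp [Function.update_of_ne]
  | 2 => simp [Function.update_of_ne]
  | 3 => simp [Function.update_of_ne]
  | n + 4 => simp [Function.update_of_ne, s4]

@[simp] theorem update_s4_one (a b c d x) : update (s4 a b c d) 1 x = s4 a x c d := by
  funext i
  match i with
  | 0 => simp [Function.update_of_ne]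
  | 1 => simp
  | 2 => simp [Function.update_of_ne]
  | 3 => simp [Function.update_of_ne]
  | n + 4 => simp [Function.update_of_ne, s4]

@[simp] theorem update_s4_two (a b c d x) : update (s4 a b c d) 2 x = s4 a b x d := by
  funext i
  match i with
  | 0 => simp [Function.update_of_ne]
  | 1 => simp [Function.update_of_ne]
  | 2 => simp
  | 3 => simp [Function.update_of_ne]
  | n + 4 => simp [Function.update_of_ne, s4]

@[simp] theorem update_s4_three (a b c d x) : update (s4 a b c d) 3 x = s4 a b c x := by
  funext i
  match i with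
  | 0 => simp [Function.update_of_ne]
  | 1 => simp [Function.update_of_ne]
  | 2 => simp [Function.update_of_ne]
  | 3 => simp
  | n + 4 => simp [Function.update_of_ne, s4]

theorem inp_eq_s4 (a : List Bool) : (NPC.inp a : ℕ → List Bool) = s4 a [] [] [] := by
  funext i
  match i with
  | 0 => simp [NPC.inp]
  | 1 => simp [NPC.inp]
  | 2 => simp [NPC.inp]
  | 3 => simp [NPC.inp]
  | n + 4 => simp [NPC.inp, s4]

/-- doubling of stack 1, first half -/
def dblA : Cmd ℕ := Cmd.loop 1 (Cmd.seq (Cmd.pop 1) (Cmd.seq (Cmd.push 2 true) (Cmd.push 2 true)))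

theorem dblA_runs (a d : List Bool) : ∀ n m : ℕ,
    Runs dblA (s4 a (List.replicate n true) (List.replicate m true) d)
      (s4 a [] (List.replicate (m + 2 * n) true) d) (4 * n + 1) := by
  intro n
  induction n with
  | zero =>
    intro m
    exact (Runs.loopNil (by simp)).conv rfl (by simp) (by simp)
  | succ n ih =>
    intro m
    have h1 : Runs (Cmd.seq (Cmd.pop 1) (Cmd.seq (Cmd.push 2 true) (Cmd.push 2 true)))
        (s4 a (List.replicate (n + 1) true) (List.replicate m true) d)
        (s4 a (List.replicate n true) (List.replicate (m + 2) true) d) 3 := by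
      refine ((Runs.pop _ 1).seq ((Runs.push _ 2 true).seq (Runs.push _ 2 true))).conv rfl ?_ le_rfl
      simp [List.replicate_succ]
    refine (Runs.loopCons (by simp) h1 (ih (m + 2))).conv rfl ?_ (by omega)
    rw [show m + 2 + 2 * n = m + 2 * (n + 1) by ring]

/-- doubling of stack 1 -/
def dbl : Cmd ℕ := Cmd.seq dblA (NPC.mv 2 1)

theorem dbl_runs (a d : List Bool) (n : ℕ) :
    Runs dbl (s4 a (List.replicate n true) [] d) (s4 a (List.replicate (2 * n) true) [] d)
      (12 * n + 2) := by
  have h1 := dblA_runs a d n 0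
  rw [List.replicate_zero, zero_add] at h1
  have h2 := mv_runs (i := 2) (j := 1) (by decide) (List.replicate (2 * n) true)
    (s4 a [] (List.replicate (2 * n) true) d) (s4 a (List.replicate (2 * n) true) [] d)
    (by simp) (by simp)
  refine (h1.seq h2).mono ?_
  rw [List.length_replicate]
  omega

/-- the body of the main loop -/
def exb : Cmd ℕ := Cmd.cases 0 Cmd.skip (Cmd.seq (Cmd.pop 0) (Cmd.pop 3))
  (Cmd.seq (Cmd.pop 0) dbl)

theorem exb_runs (Z : List Bool) : ∀ w n : ℕ, ∃ t, t + 12 * n ≤ 12 * (n * 2 ^ w) + 5 * w + 5 ∧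
    Runs (Cmd.loop 3 exb) (s4 (List.replicate w true ++ false :: Z) (List.replicate n true) [] [true])
      (s4 Z (List.replicate (n * 2 ^ w) true) [] []) t := by
  intro w
  induction w with
  | zero =>
    intro n
    refine ⟨5, by simp; omega, ?_⟩
    have h1 : Runs exb (s4 (false :: Z) (List.replicate n true) [] [true])
        (s4 Z (List.replicate n true) [] []) 3 := by
      refine (Runs.casesFalse (l := Z) (by simp) ((Runs.pop _ 0).seq (Runs.pop _ 3))).conv rfl ?_
        le_rfl
      simp
    have h2 : Runs (Cmd.loop 3 exb) (s4 Z (List.replicate n true) [] [])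
        (s4 Z (List.replicate n true) [] []) 1 := Runs.loopNil (by simp)
    exact (Runs.loopCons (by simp) h1 h2).conv (by simp) (by simp) le_rfl
  | succ w ih =>
    intro n
    obtain ⟨t, ht, hr⟩ := ih (2 * n)
    refine ⟨(12 * n + 4) + t + 1, ?_, ?_⟩
    · have : 2 * n * 2 ^ w = n * 2 ^ (w + 1) := by rw [pow_succ]; ring
      rw [this] at ht
      omega
    · have h1 : Runs exb (s4 (List.replicate (w + 1) true ++ false :: Z) (List.replicate n true) []
          [true]) (s4 (List.replicate w true ++ false :: Z) (List.replicate (2 * n) true) [] [true])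
          (12 * n + 4) := by
        refine (Runs.casesTrue (l := List.replicate w true ++ false :: Z) (by
          simp [List.replicate_succ]) ((Runs.pop _ 0).seq ?_)).mono
          (m := 1 + (12 * n + 2) + 1) (by omega)
        have := dbl_runs (List.replicate w true ++ false :: Z) [true] n
        simpa [List.replicate_succ] using this
      refine (Runs.loopCons (by simp) h1 hr).conv rfl ?_ le_rfl
      rw [show 2 * n * 2 ^ w = n * 2 ^ (w + 1) by rw [pow_succ]; ring]

/-- the loop writing the code of the padding -/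
def encA : Cmd ℕ := Cmd.loop 1 (Cmd.seq (Cmd.pop 1) (Cmd.seq (Cmd.push 0 false) (Cmd.push 0 true)))

theorem encA_runs : ∀ (n : ℕ) (a : List Bool),
    Runs encA (s4 a (List.replicate n true) [] [])
      (s4 ((List.replicate n [true, false]).flatten ++ a) [] [] []) (4 * n + 1) := by
  intro n
  induction n with
  | zero =>
    intro a
    exact (Runs.loopNil (by simp)).conv rfl (by simp) (by simp)
  | succ n ih =>
    intro a
    have h1 : Runs (Cmd.seq (Cmd.pop 1) (Cmd.seq (Cmd.push 0 false) (Cmd.push 0 true)))
        (s4 a (List.replicate (n + 1) true) [] [])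
        (s4 (true :: false :: a) (List.replicate n true) [] []) 3 := by
      refine ((Runs.pop _ 1).seq ((Runs.push _ 0 false).seq (Runs.push _ 0 true))).conv rfl ?_
        le_rfl
      simp [List.replicate_succ]
    refine (Runs.loopCons (by simp) h1 (ih (true :: false :: a))).conv rfl ?_ (by omega)
    have : (List.replicate n [true, false]).flatten ++ true :: false :: a =
        (List.replicate (n + 1) [true, false]).flatten ++ a := by
      rw [List.replicate_succ']
      simp
    rw [this]

theorem enc_replicate (n : ℕ) : (toT (List.replicate n ())).enc =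
    (List.replicate n [true, false]).flatten ++ [false] := by
  induction n with
  | zero => rfl
  | succ n ih =>
    rw [List.replicate_succ, toT_list_cons, T.enc, ih, List.replicate_succ]
    simp [T.enc]

theorem bits_pad {β : Type} [TEnc β] (n : ℕ) (z : β) : bits (List.replicate n (), z) =
    true :: ((List.replicate n [true, false]).flatten ++ false :: bits z) := by
  unfold bits
  rw [toT_pair, T.enc, enc_replicate]
  simp

/-- the expansion program -/
def expand : Cmd ℕ := Cmd.seq (Cmd.push 1 true) (Cmd.seq (Cmd.push 3 true)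
  (Cmd.seq (Cmd.loop 3 exb) (Cmd.seq (Cmd.push 0 false) (Cmd.seq encA (Cmd.push 0 true)))))

theorem expand_runs {β : Type} [TEnc β] (w : ℕ) (z : β) :
    Runs expand (s4 (List.replicate w true ++ false :: bits z) [] [] [])
      (s4 (bits (List.replicate (2 ^ w) (), z)) [] [] []) (32 * 2 ^ w) := by
  obtain ⟨t, ht, h3⟩ := exb_runs (bits z) w 1
  have h1 : Runs (Cmd.push 1 true) (s4 (List.replicate w true ++ false :: bits z) [] [] [])
      (s4 (List.replicate w true ++ false :: bits z) [true] [] []) 1 :=
    (Runs.push _ 1 true).conv rfl (by simp) le_rfl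
  have h2 : Runs (Cmd.push 3 true) (s4 (List.replicate w true ++ false :: bits z) [true] [] [])
      (s4 (List.replicate w true ++ false :: bits z) (List.replicate 1 true) [] [true]) 1 :=
    (Runs.push _ 3 true).conv rfl (by simp) le_rfl
  rw [one_mul] at h3
  have h4 : Runs (Cmd.push 0 false) (s4 (bits z) (List.replicate (2 ^ w) true) [] [])
      (s4 (false :: bits z) (List.replicate (2 ^ w) true) [] []) 1 :=
    (Runs.push _ 0 false).conv rfl (by simp) le_rfl
  have h5 := encA_runs (2 ^ w) (false :: bits z)
  have h6 : Runs (Cmd.push 0 true) (s4 ((List.replicate (2 ^ w) [true, false]).flatten ++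
      false :: bits z) [] [] []) (s4 (bits (List.replicate (2 ^ w) (), z)) [] [] []) 1 :=
    (Runs.push _ 0 true).conv rfl (by rw [bits_pad]; simp) le_rfl
  refine (h1.seq (h2.seq (h3.seq (h4.seq (h5.seq h6))))).mono ?_
  have hw : w + 1 ≤ 2 ^ w := Nat.lt_two_pow_self
  simp only [one_mul, mul_one] at ht
  omega

/-- the whole round -/
def roundC (c₁ c₂ : Cmd ℕ) : Cmd ℕ :=
  Cmd.seq c₁ (Cmd.cases 0 Cmd.skip (Cmd.seq (Cmd.pop 0) (Cmd.seq expand c₂)) (Cmd.pop 0))

theorem roundC_common {c₁ c₂ : Cmd ℕ} {y z : List Bool} {n : ℕ}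
    (h : Runs c₁ (NPC.inp y) (NPC.inp (true :: z)) n) :
    Runs (roundC c₁ c₂) (NPC.inp y) (NPC.inp z) (n + 2) := by
  refine (h.seq (Runs.casesTrue (k := 0) (l := z) (c₀ := Cmd.skip) (cf := _)
    (by rw [inp_eq_s4]; simp) (Runs.pop (NPC.inp (true :: z)) 0))).conv rfl ?_ (by omega)
  rw [inp_eq_s4, inp_eq_s4]
  simp

theorem roundC_rare {β : Type} [TEnc β] {c₁ c₂ : Cmd ℕ} {y u : List Bool} {w : ℕ} {z : β} {n m : ℕ}
    (h : Runs c₁ (NPC.inp y)
      (NPC.inp (false :: (List.replicate w true ++ false :: bits z))) n)
    (h2 : Runs c₂ (NPC.inp (bits (List.replicate (2 ^ w) (), z))) (NPC.inp u) m) :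
    Runs (roundC c₁ c₂) (NPC.inp y) (NPC.inp u) (n + 2 + 32 * 2 ^ w + m) := by
  have h3 := expand_runs w z
  rw [← inp_eq_s4, ← inp_eq_s4] at h3
  have h4 : Runs (Cmd.pop 0) (NPC.inp (false :: (List.replicate w true ++ false :: bits z)))
      (NPC.inp (List.replicate w true ++ false :: bits z)) 1 := by
    refine (Runs.pop _ 0).conv rfl ?_ le_rfl
    rw [inp_eq_s4, inp_eq_s4]
    simp
  refine (h.seq (Runs.casesFalse (k := 0) (l := List.replicate w true ++ false :: bits z)
    (c₀ := Cmd.skip) (ct := Cmd.pop 0) (by rw [inp_eq_s4]; simp) (h4.seq (h3.seq h2)))).mono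
    (by omega)

end Pool.Agent.E8helper91.Samp
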