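import Pool.Agent.E8helper91.Samp.PPick

/-!
# Independence of columns
-/

set_option autoImplicit false

namespace Pool.Agent.E8helper91.Samp

open Pool.Agent.NPC Pool.Agent.H670R2 Finset

/-- a list of integers as a vector -/
def toQ (n : ℕ) (v : List ℤ) : Fin n → ℚ := fun j => (v.getD j 0 : ℚ)

/-- independence of a list of vectors -/
def LI (n : ℕ) (L : List (List ℤ)) : Prop :=
  LinearIndependent ℚ fun i : Fin L.length => toQ n (L.get i)

theorem dotL_toQ {n : ℕ} {u v : List ℤ} (hu : u.length = n) :
    ((dotL u v : ℤ) : ℚ) = ∑ j, toQ n u j * toQ n v j := by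
  rw [dotL_eq_sum, hu, Finset.sum_range]
  push_cast
  rfl

/-- the Gram determinant tests independence -/
theorem gdet_ne_zero {n : ℕ} {L : List (List ℤ)} (hL : ∀ v ∈ L, v.length = n) :
    gdet L ≠ 0 ↔ LI n L := by
  classical
  set A : Matrix (Fin L.length) (Fin n) ℚ := Matrix.of fun i => toQ n (L.get i) with hA
  have h1 : (gramM L).map (Int.castRingHom ℚ) = A * A.transpose := by
    ext i j
    simp only [gramM, Matrix.map_apply, Matrix.of_apply, Matrix.mul_apply, Matrix.transpose_apply]
    exact dotL_toQ (hL _ (L.get_mem i))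
  have h2 : ((gramM L).det : ℚ) = (A * A.transpose).det := by
    rw [← h1]
    exact RingHom.map_det (Int.castRingHom ℚ) (gramM L)
  rw [gdet_eq, Ne, Int.natAbs_eq_zero]
  have h3 : (gramM L).det = 0 ↔ (A * A.transpose).det = 0 := by
    rw [← h2]; exact_mod_cast Iff.rfl
  rw [h3]
  have h4 : LI n L ↔ LinearIndependent ℚ A.row := Iff.rfl
  have h5 : LinearIndependent ℚ A.row ↔ LinearIndependent ℚ (A * A.transpose).row := by
    rw [linearIndependent_iff_card_eq_finrank_span, linearIndependent_iff_card_eq_finrank_span]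
    unfold Set.finrank
    rw [← Matrix.rank_eq_finrank_span_row, ← Matrix.rank_eq_finrank_span_row,
      Matrix.rank_self_mul_transpose]
  rw [h4, h5, Matrix.linearIndependent_rows_iff_isUnit, Matrix.isUnit_iff_isUnit_det, isUnit_iff_ne_zero]

/-- the vectors of a list, by their position -/
def cv (vs : List (List ℤ)) (n : ℕ) (i : Fin vs.length) : Fin n → ℚ := toQ n (vs.get i)

theorem LI_map {β : Type} (n : ℕ) (f : β → List ℤ) {l : List β} (hl : l.Nodup) :
    LI n (l.map f) ↔ LinearIndepOn ℚ (fun i => toQ n (f i)) {i | i ∈ l} := by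
  classical
  unfold LI LinearIndepOn
  have e1 : Fin (l.map f).length ≃ Fin l.length := finCongr (by simp)
  refine linearIndependent_equiv' ((finCongr (by simp)).trans (List.Nodup.getEquiv l hl)) ?_
  ext i : 1
  simp

theorem indep_ofF {vs : List (List ℤ)} {n : ℕ} (hvs : ∀ v ∈ vs, v.length = n)
    (I : Finset (Fin vs.length)) : IndV vs I ↔ LinearIndepOn ℚ (cv vs n) (I : Set (Fin vs.length)) := by
  unfold IndV indep
  rw [sel_ofF, Bool.not_eq_true', decide_eq_false_iff_not]
  have h1 := gdet_ne_zero (n := n) (L := ((List.finRange vs.length).filter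
    fun i => decide (i ∈ I)).map vs.get) (by
      intro v hv
      rw [List.mem_map] at hv
      obtain ⟨i, _, rfl⟩ := hv
      exact hvs _ (vs.get_mem i))
  rw [← Ne, h1, LI_map n vs.get ((List.nodup_finRange _).filter _)]
  have h2 : {i | i ∈ (List.finRange vs.length).filter fun i => decide (i ∈ I)} =
      (I : Set (Fin vs.length)) := by
    ext i; simp
  rw [h2]
  rfl

theorem indSys {vs : List (List ℤ)} {n : ℕ} (hvs : ∀ v ∈ vs, v.length = n) : IndSys (IndV vs) := by
  have card_le : ∀ I J : Finset (Fin vs.length), LinearIndepOn ℚ (cv vs n) (J : Set (Fin vs.length)) →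
      (∀ e ∈ J, cv vs n e ∈ Submodule.span ℚ (cv vs n '' (I : Set (Fin vs.length)))) →
      J.card ≤ I.card := by
    classical
    intro I J hJ h
    have h1 : Submodule.span ℚ (cv vs n '' (J : Set (Fin vs.length))) ≤
        Submodule.span ℚ (cv vs n '' (I : Set (Fin vs.length))) := by
      rw [Submodule.span_le]
      rintro _ ⟨e, he, rfl⟩
      exact h e he
    have h2 := Submodule.finrank_mono h1
    have h3 : Module.finrank ℚ (Submodule.span ℚ (cv vs n '' (J : Set (Fin vs.length)))) = J.card := by
      have := finrank_span_eq_card (R := ℚ) hJ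
      rw [Set.image_eq_range]
      simpa using this
    have h4 : Module.finrank ℚ (Submodule.span ℚ (cv vs n '' (I : Set (Fin vs.length)))) ≤ I.card := by
      have := finrank_span_finset_le_card (R := ℚ) (I.image (cv vs n))
      rw [Finset.coe_image] at this
      exact this.trans Finset.card_image_le
    omega
  refine ⟨?_, ?_, ?_⟩
  · rw [indep_ofF hvs, Finset.coe_empty]
    exact linearIndepOn_empty ℚ _
  · intro I J hIJ hJ
    rw [indep_ofF hvs] at hJ ⊢
    exact hJ.mono (by exact_mod_cast hIJ)
  · intro I J hI hJ hlt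
    rw [indep_ofF hvs] at hI hJ
    by_contra hcon
    push Not at hcon
    have := card_le I J hJ (fun e he => by
      by_contra hne
      have heI : e ∉ I := fun h => hne (Submodule.subset_span ⟨e, h, rfl⟩)
      refine hcon e he heI ?_
      rw [indep_ofF hvs, Finset.coe_insert]
      exact hI.insert hne)
    omega

/-! ### the greedy algorithm -/

theorem LI_snoc {n : ℕ} (L : List (List ℤ)) (v : List ℤ) :
    LI n (L ++ [v]) ↔ LI n L ∧ toQ n v ∉ Submodule.span ℚ (toQ n '' {x | x ∈ L}) := by
  unfold LI
  have h1 : LinearIndependent ℚ (fun i : Fin (L ++ [v]).length => toQ n ((L ++ [v]).get i)) ↔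
      LinearIndependent ℚ (Fin.snoc (fun i : Fin L.length => toQ n (L.get i)) (toQ n v) :
        Fin (L.length + 1) → (Fin n → ℚ)) := by
    refine linearIndependent_equiv' (finCongr (by simp)) ?_
    ext i : 1
    simp only [Function.comp_apply, finCongr_apply]
    by_cases hi : (i : ℕ) < L.length
    · have e1 : Fin.cast (by simp) i = (Fin.castSucc (⟨i, hi⟩ : Fin L.length)) := by
        ext; simp
      rw [e1, Fin.snoc_castSucc]
      congr 1
      simp [List.getElem_append_left, hi]
    · have hi2 : (i : ℕ) = L.length := by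
        have := i.2
        simp only [List.length_append, List.length_singleton] at this
        omega
      have e1 : Fin.cast (by simp) i = Fin.last L.length := by
        ext; simp [hi2]
      rw [e1, Fin.snoc_last]
      congr 1
      simp [List.getElem_append_right, hi2]
  rw [h1, linearIndependent_finSnoc]
  have h2 : Set.range (fun i : Fin L.length => toQ n (L.get i)) = toQ n '' {x | x ∈ L} := by
    ext x
    constructor
    · rintro ⟨i, rfl⟩
      exact ⟨_, L.get_mem i, rfl⟩
    · rintro ⟨y, hy, rfl⟩
      obtain ⟨i, hi⟩ := List.get_of_mem hy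
      exact ⟨i, by simp only [hi]⟩
  rw [h2]

theorem sel_append {β : Type} (vs : List β) (S : List Bool) (v : β) (b : Bool)
    (h : S.length = vs.length) : sel (vs ++ [v]) (S ++ [b]) = sel vs S ++ (if b then [v] else []) := by
  unfold sel
  rw [List.zip_append h.symm]
  cases b <;> simp

theorem greedy_inv {n : ℕ} (vs : List (List ℤ)) (hvs : ∀ v ∈ vs, v.length = n) :
    (vs.foldl gstep ([], [])).2.length = vs.length ∧
    (vs.foldl gstep ([], [])).1 = sel vs (vs.foldl gstep ([], [])).2 ∧
    LI n (vs.foldl gstep ([], [])).1 ∧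
    ∀ v ∈ vs, toQ n v ∈ Submodule.span ℚ (toQ n '' {x | x ∈ (vs.foldl gstep ([], [])).1}) := by
  induction vs using List.reverseRecOn with
  | nil =>
    refine ⟨rfl, rfl, ?_, by simp⟩
    change LinearIndependent ℚ (fun i : Fin 0 => toQ n (([] : List (List ℤ)).get i))
    exact linearIndependent_empty_type
  | append_singleton vs v ih =>
    obtain ⟨h1, h2, h3, h4⟩ := ih fun x hx => hvs x (by simp [hx])
    have hv : v.length = n := hvs v (by simp)
    rw [List.foldl_append, List.foldl_cons, List.foldl_nil]
    set s := vs.foldl gstep ([], []) with hs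
    have hsub : ∀ x ∈ s.1, x ∈ vs := by
      intro x hx
      rw [h2] at hx
      unfold sel at hx
      rw [List.mem_map] at hx
      obtain ⟨p, hp, rfl⟩ := hx
      exact (List.of_mem_zip (List.mem_filter.1 hp).1).1
    have hlen : ∀ x ∈ s.1 ++ [v], x.length = n := by
      intro x hx
      rw [List.mem_append, List.mem_singleton] at hx
      rcases hx with hx | rfl
      · exact hvs x (by simp [hsub x hx])
      · exact hv
    unfold gstep
    split_ifs with hg
    · refine ⟨by simp [h1], ?_, h3, ?_⟩
      · rw [sel_append vs s.2 v false h1, ← h2]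
        simp
      · intro x hx
        rw [List.mem_append, List.mem_singleton] at hx
        rcases hx with hx | rfl
        · exact h4 x hx
        · by_contra hne
          have := (LI_snoc s.1 x).2 ⟨h3, hne⟩
          exact (gdet_ne_zero hlen).2 this hg
    · have hLI := (gdet_ne_zero hlen).1 hg
      refine ⟨by simp [h1], ?_, hLI, ?_⟩
      · rw [sel_append vs s.2 v true h1, ← h2]
        simp
      · intro x hx
        rw [List.mem_append, List.mem_singleton] at hx
        rcases hx with hx | rfl
        · refine Submodule.span_mono ?_ (h4 x hx)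
          rintro _ ⟨y, hy, rfl⟩
          exact ⟨y, List.mem_append_left _ hy, rfl⟩
        · exact Submodule.subset_span ⟨x, by simp, rfl⟩

/-- the greedy basis is a basis -/
theorem greedy_good {n : ℕ} (vs : List (List ℤ)) (hvs : ∀ v ∈ vs, v.length = n) :
    ∃ B₀ : Finset (Fin vs.length), greedy vs = ofF B₀ ∧ Good vs B₀.card B₀ ∧
      ∀ i, cv vs n i ∈ Submodule.span ℚ (cv vs n '' (B₀ : Set (Fin vs.length))) := by
  classical
  obtain ⟨h1, h2, h3, h4⟩ := greedy_inv vs hvs
  obtain ⟨B₀, hB⟩ := exists_ofF h1
  have hg : greedy vs = ofF B₀ := hB.symm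
  have hsel : (vs.foldl gstep ([], [])).1 = ((List.finRange vs.length).filter
      fun i => decide (i ∈ B₀)).map vs.get := by rw [h2, ← hB, sel_ofF]
  have himg : toQ n '' {x | x ∈ (vs.foldl gstep ([], [])).1} =
      cv vs n '' (B₀ : Set (Fin vs.length)) := by
    rw [hsel]
    ext x
    constructor
    · rintro ⟨y, hy, rfl⟩
      obtain ⟨i, hi, rfl⟩ := List.mem_map.1 hy
      refine ⟨i, ?_, rfl⟩
      simpa using (List.mem_filter.1 hi).2
    · rintro ⟨i, hi, rfl⟩
      refine ⟨vs.get i, List.mem_map.2 ⟨i, ?_, rfl⟩, rfl⟩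
      simpa using hi
  have hspan : ∀ i, cv vs n i ∈ Submodule.span ℚ (cv vs n '' (B₀ : Set (Fin vs.length))) := by
    intro i
    rw [← himg]
    exact h4 _ (vs.get_mem i)
  have hind : IndV vs B₀ := by
    rw [indep_ofF hvs]
    rw [hsel, LI_map n vs.get ((List.nodup_finRange _).filter _)] at h3
    have h5 : {i | i ∈ (List.finRange vs.length).filter fun i => decide (i ∈ B₀)} =
        (B₀ : Set (Fin vs.length)) := by
      ext i; simp
    rw [h5] at h3
    exact h3
  refine ⟨B₀, hg, ⟨indSys hvs, ⟨⟨B₀, hind, rfl⟩, ?_⟩, mem_bases.2 ⟨hind, rfl⟩⟩, hspan⟩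
  intro I hI
  by_contra hlt
  push Not at hlt
  obtain ⟨e, he1, he2, he3⟩ := (indSys hvs).aug B₀ I hind hI hlt
  rw [indep_ofF hvs, Finset.coe_insert, linearIndepOn_insert (by simpa using he2)] at he3
  exact he3.2 (hspan e)

/-- bases are the independent sets which span everything -/
theorem mem_bases_iff {n : ℕ} {vs : List (List ℤ)} (hvs : ∀ v ∈ vs, v.length = n)
    {B₀ : Finset (Fin vs.length)} (hB₀ : IndV vs B₀)
    (hspan : ∀ i, cv vs n i ∈ Submodule.span ℚ (cv vs n '' (B₀ : Set (Fin vs.length))))
    (B : Finset (Fin vs.length)) :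
    B ∈ bases (IndV vs) B₀.card ↔ LinearIndepOn ℚ (cv vs n) (B : Set (Fin vs.length)) ∧
      ∀ i, cv vs n i ∈ Submodule.span ℚ (cv vs n '' (B : Set (Fin vs.length))) := by
  classical
  rw [mem_bases, indep_ofF hvs]
  have fr : ∀ J : Finset (Fin vs.length), LinearIndepOn ℚ (cv vs n) (J : Set (Fin vs.length)) →
      Module.finrank ℚ (Submodule.span ℚ (cv vs n '' (J : Set (Fin vs.length)))) = J.card := by
    intro J hJ
    have := finrank_span_eq_card (R := ℚ) hJ
    rw [Set.image_eq_range]
    simpa using this
  have hB₀' := (indep_ofF hvs B₀).1 hB₀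
  constructor
  · rintro ⟨h1, h2⟩
    refine ⟨h1, fun i => ?_⟩
    have hle : Submodule.span ℚ (cv vs n '' (B : Set (Fin vs.length))) ≤
        Submodule.span ℚ (cv vs n '' (B₀ : Set (Fin vs.length))) := by
      rw [Submodule.span_le]
      rintro _ ⟨e, _, rfl⟩
      exact hspan e
    have heq := Submodule.eq_of_le_of_finrank_eq hle (by rw [fr B h1, fr B₀ hB₀', h2])
    rw [heq]
    exact hspan i
  · rintro ⟨h1, h2⟩
    refine ⟨h1, ?_⟩
    have hle : Submodule.span ℚ (cv vs n '' (B : Set (Fin vs.length))) ≤
        Submodule.span ℚ (cv vs n '' (B₀ : Set (Fin vs.length))) := by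
      rw [Submodule.span_le]
      rintro _ ⟨e, _, rfl⟩
      exact hspan e
    have hge : Submodule.span ℚ (cv vs n '' (B₀ : Set (Fin vs.length))) ≤
        Submodule.span ℚ (cv vs n '' (B : Set (Fin vs.length))) := by
      rw [Submodule.span_le]
      rintro _ ⟨e, _, rfl⟩
      exact h2 e
    rw [← fr B h1, ← fr B₀ hB₀', le_antisymm hle hge]

end Pool.Agent.E8helper91.Samp
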