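import Pool.Agent.E8helper91.Samp.PCount

/-!
# The output of one round is uniform
-/

set_option autoImplicit false

namespace Pool.Agent.E8helper91.Samp

open Pool.Agent.NPC Pool.Agent.H670R2 Finset

/-! ### sums over lists -/

theorem sL_list_sum {β : Type} (k : ℕ) (bs : List β) (f : List Bool → β → ℕ) :
    sL k (fun c => (bs.map (f c)).sum) = (bs.map fun p => sL k (fun c => f c p)).sum := by
  induction bs with
  | nil => simp [sL_const]
  | cons b bs ih => simp only [List.map_cons, List.sum_cons, sL_add_fun, ih]

theorem sum_single {β : Type} [DecidableEq β] {bs : List β} (hn : bs.Nodup) {x : β} (hx : x ∈ bs)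
    (f : β → ℕ) : (bs.map fun p => if x = p then f p else 0).sum = f x := by
  rw [← List.sum_toFinset _ hn, Finset.sum_ite_eq, if_pos (List.mem_toFinset.2 hx)]

theorem sL_any (K : ℕ) (X Y : ℕ) :
    sL K (fun s : List Bool => if s.any (fun b => b) = true then X else Y) + X = 2 ^ K * X + Y := by
  induction K with
  | zero => simp [sL_zero]; ring
  | succ K ih =>
    rw [sL_succ]
    have h1 : sL K (fun s : List Bool => if (true :: s).any (fun b => b) = true then X else Y) =
        2 ^ K * X := by
      have : ∀ s : List Bool, (if (true :: s).any (fun b => b) = true then X else Y) = X := by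
        intro s; simp
      simp only [this, sL_const, smul_eq_mul]
    have h2 : sL K (fun s : List Bool => if (false :: s).any (fun b => b) = true then X else Y) =
        sL K (fun s : List Bool => if s.any (fun b => b) = true then X else Y) := by
      refine sL_congr fun s _ => ?_
      simp
    rw [h1, h2, pow_succ]
    linarith

/-! ### the law of the chain, computed -/

section law

variable {vs : List (List ℤ)} {r : ℕ} {B₀ : Finset (Fin vs.length)}

theorem mem_allB {y : List Bool} : y ∈ allB vs (allL vs.length) r ↔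
    ∃ B ∈ bases (IndV vs) r, y = ofF B := by
  unfold allB
  rw [List.mem_filter, mem_allL]
  constructor
  · rintro ⟨h1, h2⟩
    obtain ⟨B, rfl⟩ := exists_ofF h1
    rw [Bool.and_eq_true, decide_eq_true_eq, length_sel] at h2
    exact ⟨B, mem_bases.2 ⟨h2.2, h2.1⟩, rfl⟩
  · rintro ⟨B, hB, rfl⟩
    rw [mem_bases] at hB
    refine ⟨length_ofF B, ?_⟩
    rw [Bool.and_eq_true, decide_eq_true_eq, length_sel]
    exact ⟨hB.2, hB.1⟩

theorem nodup_allB (vs : List (List ℤ)) (m r : ℕ) : (allB vs (allL m) r).Nodup :=
  (nodup_allL m).filter _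

theorem dist_eq (h : Good vs r B₀) (a T : ℕ) :
    dist vs a T (allL (2 * a + 1)) (allB vs (allL vs.length) r) (ofF B₀) =
      (allB vs (allL vs.length) r).map fun y => (y, cnt vs a T (ofF B₀) y) := by
  unfold dist
  induction T with
  | zero =>
    refine List.map_congr_left fun y _ => ?_
    have e0 : cnt vs a 0 (ofF B₀) y = if y = ofF B₀ then 1 else 0 := by
      unfold cnt
      rw [zero_mul, sL_zero]
      by_cases hy : y = ofF B₀
      · rw [if_pos hy, if_pos]
        exact hy.symm
      · rw [if_neg hy, if_neg]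
        exact Ne.symm hy
    rw [e0]
  | succ T ih =>
    rw [Function.iterate_succ_apply', ih]
    unfold dstep
    rw [List.map_map]
    refine List.map_congr_left fun y _ => ?_
    simp only [Function.comp_apply, Prod.mk.injEq, true_and, List.map_map]
    set L := 2 * a + 1
    have h1 : cnt vs a (T + 1) (ofF B₀) y = sL (T * L) (fun c =>
        sL L (fun u => if stepL vs a (chain vs a T (ofF B₀) c) u = y then 1 else 0)) := by
      unfold cnt
      rw [show (T + 1) * (2 * a + 1) = T * L + L by simp only [L]; ring, sL_add]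
      refine sL_congr fun c hc => sL_congr fun u hu => ?_
      rw [chain_last vs a T _ c u hc hu]
    rw [h1]
    set hfun : List Bool → ℕ := fun S => sL L (fun u => if stepL vs a S u = y then 1 else 0)
      with hhfun
    have h2 : sL (T * L) (fun c => hfun (chain vs a T (ofF B₀) c)) =
        sL (T * L) (fun c => ((allB vs (allL vs.length) r).map fun p =>
          if chain vs a T (ofF B₀) c = p then hfun p else 0).sum) := by
      refine sL_congr fun c _ => ?_
      obtain ⟨B', hB', hc⟩ := chain_mem a T h.base c
      rw [sum_single (nodup_allB vs _ r) (mem_allB.2 ⟨B', hB', hc⟩) hfun]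
    change _ = sL (T * L) (fun c => hfun (chain vs a T (ofF B₀) c))
    rw [h2, sL_list_sum]
    congr 1
    refine List.map_congr_left fun p _ => ?_
    simp only [Function.comp_apply]
    have h3 : sL (T * L) (fun c => if chain vs a T (ofF B₀) c = p then hfun p else 0) =
        cnt vs a T (ofF B₀) p * hfun p := by
      unfold cnt
      rw [← sL_mul_right]
      refine sL_congr fun c _ => ?_
      split_ifs <;> simp
    rw [h3, mul_comm, hhfun]
    change _ = sL L (fun u => if stepL vs a p u = y then 1 else 0) * cnt vs a T (ofF B₀) p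
    rw [← sL_mul_right]
    unfold sL
    congr 1
    refine List.map_congr_left fun u _ => ?_
    split_ifs <;> simp

theorem sum_cnt (h : Good vs r B₀) (a T : ℕ) :
    ((allB vs (allL vs.length) r).map fun y => cnt vs a T (ofF B₀) y).sum =
      2 ^ (T * (2 * a + 1)) := by
  unfold cnt
  rw [← sL_list_sum]
  have h1 : sL (T * (2 * a + 1)) (fun c => ((allB vs (allL vs.length) r).map fun y =>
      if chain vs a T (ofF B₀) c = y then 1 else 0).sum) =
      sL (T * (2 * a + 1)) (fun _ => 1) := by
    refine sL_congr fun c _ => ?_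
    obtain ⟨B', hB', hc⟩ := chain_mem a T h.base c
    rw [sum_single (nodup_allB vs _ r) (mem_allB.2 ⟨B', hB', hc⟩) (fun _ => 1)]
  rw [h1, sL_const, smul_eq_mul, mul_one]

theorem length_allB : (allB vs (allL vs.length) r).length = (bases (IndV vs) r).card := by
  rw [← List.toFinset_card_of_nodup (nodup_allB vs _ r)]
  symm
  refine Finset.card_bij (fun B _ => ofF B) ?_ ?_ ?_
  · intro B hB
    rw [List.mem_toFinset, mem_allB]
    exact ⟨B, hB, rfl⟩
  · intro B _ B' _ h
    exact ofF_injective h
  · intro y hy
    rw [List.mem_toFinset, mem_allB] at hy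
    obtain ⟨B, hB, rfl⟩ := hy
    exact ⟨B, hB, rfl⟩

end law

/-! ### the maximum -/

theorem maxD_aux (D : List (List Bool × ℕ)) : ∀ x : ℕ,
    x ≤ D.foldl (fun a p => max a p.2) x ∧ (∀ p ∈ D, p.2 ≤ D.foldl (fun a p => max a p.2) x) ∧
    (D.foldl (fun a p => max a p.2) x = x ∨ ∃ p ∈ D, D.foldl (fun a p => max a p.2) x = p.2) := by
  induction D with
  | nil => intro x; simp
  | cons p D ih =>
    intro x
    obtain ⟨h1, h2, h3⟩ := ih (max x p.2)
    rw [List.foldl_cons]
    refine ⟨(le_max_left _ _).trans h1, ?_, ?_⟩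
    · intro q hq
      rcases List.mem_cons.1 hq with rfl | hq
      · exact (le_max_right _ _).trans h1
      · exact h2 q hq
    · rcases h3 with h3 | ⟨q, hq, h3⟩
      · rw [h3]
        rcases max_choice x p.2 with h4 | h4
        · exact Or.inl h4
        · exact Or.inr ⟨p, List.mem_cons_self, h4⟩
      · exact Or.inr ⟨q, List.mem_cons_of_mem _ hq, h3⟩

theorem le_maxD {D : List (List Bool × ℕ)} {p : List Bool × ℕ} (hp : p ∈ D) : p.2 ≤ maxD D :=
  (maxD_aux D 0).2.1 p hp

theorem exists_maxD {D : List (List Bool × ℕ)} (hD : D ≠ []) : ∃ p ∈ D, maxD D = p.2 := by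
  rcases (maxD_aux D 0).2.2 with h | h
  · obtain ⟨p, D', rfl⟩ := List.exists_cons_of_ne_nil hD
    refine ⟨p, List.mem_cons_self, ?_⟩
    have := le_maxD (D := p :: D') (p := p) List.mem_cons_self
    unfold maxD at this ⊢
    rw [h] at this ⊢
    omega
  · exact h

/-! ### picking -/

theorem foldl_pick_some (l : List (List Bool × ℕ)) (y : List Bool) (R : ℕ) :
    l.foldl pickStep (some y, R) = (some y, R) := by
  induction l with
  | nil => rfl
  | cons p l ih =>
    rw [List.foldl_cons]
    have : pickStep (some y, R) p = (some y, R) := by simp [pickStep]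
    rw [this, ih]

theorem pick_cons (p : List Bool × ℕ) (l : List (List Bool × ℕ)) (R : ℕ) :
    pick (p :: l) R = if R < p.2 then some p.1 else pick l (R - p.2) := by
  unfold pick
  rw [List.foldl_cons]
  by_cases h : R < p.2
  · have : pickStep (none, R) p = (some p.1, R) := by simp [pickStep, h]
    rw [this, foldl_pick_some, if_pos h]
  · have : pickStep (none, R) p = (none, R - p.2) := by simp [pickStep, h]
    rw [this, if_neg h]

theorem pick_count (l : List (List Bool × ℕ)) (y : List Bool) : ∀ Z : ℕ,
    (l.map Prod.snd).sum ≤ Z → ∑ R ∈ range Z, (if pick l R = some y then 1 else 0) =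
      (l.map fun p => if y = p.1 then p.2 else 0).sum := by
  induction l with
  | nil =>
    intro Z _
    simp [pick]
  | cons p l ih =>
    intro Z hZ
    simp only [List.map_cons, List.sum_cons] at hZ ⊢
    obtain ⟨Z', rfl⟩ : ∃ Z', Z = p.2 + Z' := ⟨Z - p.2, by omega⟩
    rw [Finset.sum_range_add, ← ih Z' (by omega)]
    congr 1
    · have h1 : ∀ R ∈ range p.2, (if pick (p :: l) R = some y then 1 else 0) =
          if y = p.1 then 1 else 0 := by
        intro R hR
        rw [pick_cons, if_pos (Finset.mem_range.1 hR)]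
        by_cases h : y = p.1
        · rw [if_pos h, if_pos (by rw [h])]
        · rw [if_neg h, if_neg (fun h' => h (Option.some.inj h').symm)]
      rw [Finset.sum_congr rfl h1, Finset.sum_const, card_range, smul_eq_mul]
      split_ifs <;> simp
    · refine Finset.sum_congr rfl fun R _ => ?_
      have h : ¬ p.2 + R < p.2 := by omega
      rw [pick_cons p l, if_neg h, Nat.add_sub_cancel_left]

theorem pick_mem (l : List (List Bool × ℕ)) (y : List Bool) : ∀ R : ℕ, pick l R = some y →
    ∃ p ∈ l, p.1 = y := by
  induction l with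
  | nil => intro R h; simp [pick] at h
  | cons p l ih =>
    intro R h
    rw [pick_cons] at h
    split_ifs at h with h1
    · exact ⟨p, List.mem_cons_self, Option.some.inj h⟩
    · obtain ⟨q, hq, h2⟩ := ih _ h
      exact ⟨q, List.mem_cons_of_mem _ hq, h2⟩

/-! ### one round -/

section round

variable {F : List (List ℕ)} {r : ℕ} {B₀ : Finset (Fin (cols F).length)}

theorem length_cols (F : List (List ℕ)) : (cols F).length = mOf F := by simp [cols, mOf]

theorem mOf_le (F : List (List ℕ)) : (cols F).length ≤ 2 ^ aOf F := by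
  rw [length_cols]
  unfold aOf
  rw [Nat.size_eq_bits_len]
  exact (Nat.lt_size_self _).le

/-- the law of the chain, as computed by the algorithm -/
def distF (K : ℕ) (F : List (List ℕ)) : List (List Bool × ℕ) :=
  dist (cols F) (aOf F) (TOf K F) (allL (2 * aOf F + 1))
    (allB (cols F) (allL (mOf F)) (sel (cols F) (greedy (cols F))).length) (greedy (cols F))

theorem distF_eq (K : ℕ) (h : Good (cols F) r B₀) (hg : greedy (cols F) = ofF B₀) :
    distF K F = (allB (cols F) (allL (cols F).length) r).map
      fun y => (y, cnt (cols F) (aOf F) (TOf K F) (ofF B₀) y) := by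
  unfold distF
  have h1 : (sel (cols F) (greedy (cols F))).length = r := by
    rw [hg, length_sel]; exact (mem_bases.1 h.base).2
  rw [h1, hg, ← length_cols, dist_eq h]

theorem GS_some (K : ℕ) (h : Good (cols F) r B₀) (hg : greedy (cols F) = ofF B₀) {x y : List Bool}
    (hx : GS K F x = some y) : ∃ B ∈ bases (IndV (cols F)) r, y = ofF B := by
  unfold GS at hx
  split_ifs at hx with h1
  · unfold main1 at hx
    rw [Option.some.injEq] at hx
    rw [hg] at hx
    obtain ⟨B, hB, h2⟩ := chain_mem (aOf F) (TOf K F) h.base (x.drop K)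
    exact ⟨B, hB, hx ▸ h2⟩
  · have h2 : main2 (allL (mOf F)) (allL (2 * aOf F + 1)) K F x =
        pick (weights K (distF K F)) (valB (x.drop K)) := rfl
    rw [h2] at hx
    obtain ⟨p, hp, hp2⟩ := pick_mem _ _ _ hx
    unfold weights at hp
    rw [distF_eq K h hg, List.map_map, List.mem_map] at hp
    obtain ⟨z, hz, rfl⟩ := hp
    simp only [Function.comp_apply] at hp2
    rw [← hp2]
    exact mem_allB.1 hz

/-- The total weight is small enough. -/
theorem weights_sum (K : ℕ) (h : Good (cols F) r B₀) (hg : greedy (cols F) = ofF B₀) :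
    ((weights K (distF K F)).map Prod.snd).sum ≤ 2 ^ (TOf K F * (2 * aOf F + 1)) ∧
    2 ^ (TOf K F * (2 * aOf F + 1)) ≤ (bases (IndV (cols F)) r).card * maxD (distF K F) := by
  set M := TOf K F * (2 * aOf F + 1) with hM
  set N := (bases (IndV (cols F)) r).card with hN
  set bs := allB (cols F) (allL (cols F).length) r with hbs
  set c : List Bool → ℕ := fun y => cnt (cols F) (aOf F) (TOf K F) (ofF B₀) y with hc
  have hD : distF K F = bs.map fun y => (y, c y) := distF_eq K h hg
  set mx := maxD (distF K F) with hmx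
  have hlen : bs.length = N := length_allB
  have hsum : (bs.map c).sum = 2 ^ M := sum_cnt h (aOf F) (TOf K F)
  have hcle : ∀ y ∈ bs, c y ≤ mx := by
    intro y hy
    have : (y, c y) ∈ distF K F := by rw [hD]; exact List.mem_map_of_mem hy
    exact le_maxD this
  have hle : 2 ^ M ≤ N * mx := by
    rw [← hsum, ← hlen]
    have := List.sum_le_card_nsmul (bs.map c) mx (by
      intro x hx
      rw [List.mem_map] at hx
      obtain ⟨y, hy, rfl⟩ := hx
      exact hcle y hy)
    rw [List.length_map, smul_eq_mul] at this
    exact this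
  refine ⟨?_, hle⟩
  have hw : ((weights K (distF K F)).map Prod.snd).sum = (2 ^ K - 1) * (N * mx - 2 ^ M) := by
    unfold weights
    rw [List.map_map, ← hmx, hD, List.map_map]
    have e1 : ∀ (l : List (List Bool)), (∀ y ∈ l, c y ≤ mx) →
        (l.map ((Prod.snd ∘ fun p : List Bool × ℕ => (p.1, (2 ^ K - 1) * (mx - p.2))) ∘
          fun y => (y, c y))).sum = (2 ^ K - 1) * (l.length * mx - (l.map c).sum) ∧
        (l.map c).sum ≤ l.length * mx := by
      intro l
      induction l with
      | nil => intro _; simp
      | cons y l ih =>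
        intro hl
        obtain ⟨i1, i2⟩ := ih fun z hz => hl z (List.mem_cons_of_mem _ hz)
        have hy := hl y List.mem_cons_self
        simp only [List.map_cons, List.sum_cons, List.length_cons]
        refine ⟨?_, by nlinarith⟩
        rw [i1]
        simp only [Function.comp_apply]
        rw [← Nat.mul_add]
        congr 1
        have : (l.length + 1) * mx = l.length * mx + mx := by ring
        rw [this]
        omega
    rw [(e1 bs hcle).1, hlen, hsum]
  rw [hw]
  -- the real inequality
  have hNpos : 0 < N := Finset.card_pos.2 ⟨B₀, h.base⟩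
  have hbsne : distF K F ≠ [] := by
    intro h'
    have : bs.length = 0 := by
      have := congrArg List.length h'
      rw [hD] at this
      simpa using this
    omega
  obtain ⟨p, hp, hpm⟩ := exists_maxD hbsne
  rw [hD, List.mem_map] at hp
  obtain ⟨y, hy, rfl⟩ := hp
  obtain ⟨B, hB, rfl⟩ := mem_allB.1 hy
  have hreal := cnt_le h (aOf F) (mOf_le F) (K + mOf F) hB
  have hT : TOf K F = 4 ^ (aOf F + 1) * (K + mOf F) := rfl
  rw [← hT, ← hM] at hreal
  have hmx' : (mx : ℝ) ≤ 2 ^ M * (1 / N + 1 / 2 ^ (K + mOf F)) := by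
    rw [hmx, hpm]; exact hreal
  have hN2 : (N : ℝ) ≤ 2 ^ mOf F := by
    have : N ≤ 2 ^ mOf F := by
      rw [← hlen, ← length_cols]
      rw [hbs]
      unfold allB
      refine (List.length_filter_le _ _).trans ?_
      rw [length_allL]
    exact_mod_cast this
  have hN1 : (0 : ℝ) < N := by exact_mod_cast hNpos
  have h2M : (0 : ℝ) < 2 ^ M := by positivity
  have h2K : (1 : ℝ) ≤ 2 ^ K := one_le_pow₀ (by norm_num)
  have h2m : (0 : ℝ) < 2 ^ mOf F := by positivity
  have h5 : (N : ℝ) * mx ≤ 2 ^ M * (1 + 1 / 2 ^ K) := by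
    calc (N : ℝ) * mx ≤ N * (2 ^ M * (1 / N + 1 / 2 ^ (K + mOf F))) :=
          mul_le_mul_of_nonneg_left hmx' hN1.le
      _ = 2 ^ M * (1 + (N / 2 ^ mOf F) * (1 / 2 ^ K)) := by
          rw [pow_add]; field_simp
      _ ≤ 2 ^ M * (1 + 1 * (1 / 2 ^ K)) := by
          have : (N : ℝ) / 2 ^ mOf F ≤ 1 := by rw [div_le_one h2m]; exact hN2
          gcongr
      _ = _ := by ring
  have h6 : ((2 : ℝ) ^ K - 1) * (N * mx - 2 ^ M) ≤ 2 ^ M := by
    have h7 : (N : ℝ) * mx - 2 ^ M ≤ 2 ^ M * (1 / 2 ^ K) := by linarith
    calc ((2 : ℝ) ^ K - 1) * (N * mx - 2 ^ M) ≤ ((2 : ℝ) ^ K - 1) * (2 ^ M * (1 / 2 ^ K)) :=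
          mul_le_mul_of_nonneg_left h7 (by linarith)
      _ ≤ (2 : ℝ) ^ K * (2 ^ M * (1 / 2 ^ K)) := by
          apply mul_le_mul_of_nonneg_right _ (by positivity)
          linarith
      _ = 2 ^ M := by field_simp
  have h8 : (((2 ^ K - 1) * (N * mx - 2 ^ M) : ℕ) : ℝ) ≤ ((2 ^ M : ℕ) : ℝ) := by
    rw [Nat.cast_mul, Nat.cast_sub (Nat.one_le_two_pow), Nat.cast_sub hle]
    push_cast
    exact h6
  exact_mod_cast h8

/-- the number of random strings leading to a given basis -/
theorem count_GS (K : ℕ) (h : Good (cols F) r B₀) (hg : greedy (cols F) = ofF B₀)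
    {B : Finset (Fin (cols F).length)} (hB : B ∈ bases (IndV (cols F)) r) :
    sL (kOf K F) (fun x => if GS K F x = some (ofF B) then 1 else 0) =
      (2 ^ K - 1) * maxD (distF K F) := by
  set M := TOf K F * (2 * aOf F + 1) with hM
  have hk : kOf K F = K + M := rfl
  rw [hk, sL_add]
  set X := cnt (cols F) (aOf F) (TOf K F) (ofF B₀) (ofF B) with hX
  set mx := maxD (distF K F) with hmx
  have hmem : (ofF B, X) ∈ distF K F := by
    rw [distF_eq K h hg, List.mem_map]
    exact ⟨ofF B, mem_allB.2 ⟨B, hB, rfl⟩, rfl⟩
  have hXle : X ≤ mx := le_maxD hmem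
  have h1 : sL K (fun u => sL M (fun v => if GS K F (u ++ v) = some (ofF B) then 1 else 0)) =
      sL K (fun u : List Bool => if u.any (fun b => b) = true then X
        else (2 ^ K - 1) * (mx - X)) := by
    refine sL_congr fun u hu => ?_
    by_cases ha : u.any (fun b => b) = true
    · rw [if_pos ha, hX]
      unfold cnt
      refine sL_congr fun v _ => ?_
      unfold GS main1
      rw [← hu, List.take_left, if_pos ha, hg, List.drop_left, hu]
      simp only [Option.some.injEq]
    · rw [if_neg ha]
      have h2 : ∀ v : List Bool, GS K F (u ++ v) = pick (weights K (distF K F)) (valB v) := by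
        intro v
        unfold GS
        have e1 : (u ++ v).take K = u := by rw [← hu, List.take_left]
        have e2 : (u ++ v).drop K = v := by rw [← hu, List.drop_left]
        rw [e1, if_neg ha]
        unfold main2
        rw [e2]
        rfl
      simp only [h2]
      rw [sL_valB M (fun R => if pick (weights K (distF K F)) R = some (ofF B) then 1 else 0),
        pick_count _ _ _ (weights_sum K h hg).1]
      unfold weights
      rw [List.map_map, ← hmx, distF_eq K h hg, List.map_map]
      exact sum_single (nodup_allB (cols F) _ r) (mem_allB.2 ⟨B, hB, rfl⟩)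
        (fun y => (2 ^ K - 1) * (mx - cnt (cols F) (aOf F) (TOf K F) (ofF B₀) y))
  rw [h1]
  have h2 := sL_any K X ((2 ^ K - 1) * (mx - X))
  have h3 : 2 ^ K * X + (2 ^ K - 1) * (mx - X) = (2 ^ K - 1) * mx + X := by
    obtain ⟨t, ht⟩ : ∃ t, 2 ^ K = t + 1 := ⟨2 ^ K - 1, by have := Nat.one_le_two_pow (n := K); omega⟩
    rw [ht]
    simp only [Nat.add_sub_cancel]
    obtain ⟨d, hd⟩ : ∃ d, mx = X + d := ⟨mx - X, by omega⟩
    rw [hd, Nat.add_sub_cancel_left]
    ring
  omega

/-- the number of random strings leading to some output -/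
theorem count_GS_some (K : ℕ) (h : Good (cols F) r B₀) (hg : greedy (cols F) = ofF B₀) :
    sL (kOf K F) (fun x => if (GS K F x).isSome then 1 else 0) =
      (bases (IndV (cols F)) r).card * ((2 ^ K - 1) * maxD (distF K F)) := by
  have h1 : sL (kOf K F) (fun x => if (GS K F x).isSome then 1 else 0) =
      sL (kOf K F) (fun x => ((allB (cols F) (allL (cols F).length) r).map fun y =>
        if GS K F x = some y then 1 else 0).sum) := by
    refine sL_congr fun x _ => ?_
    cases hx : GS K F x with
    | none => simp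
    | some z =>
      obtain ⟨B, hB, hz⟩ := GS_some K h hg hx
      have h2 := sum_single (nodup_allB (cols F) (cols F).length r)
        (mem_allB.2 ⟨B, hB, hz⟩) (fun _ => 1)
      simp only [Option.isSome_some, if_true, Option.some.injEq]
      exact h2.symm
  rw [h1, sL_list_sum]
  have h2 : ((allB (cols F) (allL (cols F).length) r).map fun p =>
      sL (kOf K F) (fun c => if GS K F c = some p then 1 else 0)) =
      (allB (cols F) (allL (cols F).length) r).map fun _ => (2 ^ K - 1) * maxD (distF K F) := by
    refine List.map_congr_left fun p hp => ?_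
    obtain ⟨B, hB, rfl⟩ := mem_allB.1 hp
    exact count_GS K h hg hB
  rw [h2, List.map_const', List.sum_replicate, length_allB, smul_eq_mul]

/-- at least half of the random strings lead to an output -/
theorem half_GS {K : ℕ} (hK : 1 ≤ K) (h : Good (cols F) r B₀) (hg : greedy (cols F) = ofF B₀) :
    2 ^ kOf K F ≤ 2 * sL (kOf K F) (fun x => if (GS K F x).isSome then 1 else 0) := by
  rw [count_GS_some K h hg]
  have h1 := (weights_sum K h hg).2
  have h2 : 2 ^ kOf K F = 2 ^ K * 2 ^ (TOf K F * (2 * aOf F + 1)) := by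
    unfold kOf; rw [pow_add]
  have h3 : 2 ^ K ≤ 2 * (2 ^ K - 1) := by
    have : 2 ≤ 2 ^ K := by
      calc 2 = 2 ^ 1 := rfl
        _ ≤ 2 ^ K := Nat.pow_le_pow_right (by norm_num) hK
    omega
  rw [h2]
  calc 2 ^ K * 2 ^ (TOf K F * (2 * aOf F + 1)) ≤
      (2 * (2 ^ K - 1)) * ((bases (IndV (cols F)) r).card * maxD (distF K F)) :=
        Nat.mul_le_mul h3 h1
    _ = _ := by ring

end round

end Pool.Agent.E8helper91.Samp
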