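import Pool.Agent.E8helper91.Samp.Cpx
import Pool.Agent.H670R2.GramPoly
import Pool.Agent.H670R2.Best

/-!
# The algorithm runs in polynomial time: first part
-/

set_option autoImplicit false

namespace Pool.Agent.E8helper91.Samp

open Pool.Agent.NPC Pool.Agent.H670R2 Pool.Agent.NPC.H670R2

section basic

variable {α β : Type} [TEnc α] [TEnc β]

/-! ### taking and dropping -/

theorem take_eq_filter {β : Type} (l : List β) (n : ℕ) :
    ((l.zipIdx.filter fun p => decide (p.2 < n)).map Prod.fst) = l.take n := by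
  have key : ∀ (l : List β) (n k : ℕ), ((l.zipIdx k).filter
      fun p => decide (p.2 < n + k)).map Prod.fst = l.take n := by
    intro l
    induction l with
    | nil => intro n k; simp
    | cons b l ih =>
      intro n k
      cases n with
      | zero =>
        rw [List.take_zero, List.map_eq_nil_iff, List.filter_eq_nil_iff]
        intro p hp
        have := List.le_snd_of_mem_zipIdx hp
        simp; omega
      | succ n =>
        have := ih n (k + 1)
        rw [List.zipIdx_cons, List.filter_cons]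
        have h1 : k < n + 1 + k := by omega
        simp only [h1, decide_true, if_true, List.map_cons, List.take_succ_cons]
        rw [← this]
        congr 4
        funext p
        rw [show n + (k + 1) = n + 1 + k by ring]
  have := key l n 0
  simpa using this

theorem drop_eq_filter {β : Type} (l : List β) (n : ℕ) :
    ((l.zipIdx.filter fun p => decide (n ≤ p.2)).map Prod.fst) = l.drop n := by
  have key : ∀ (l : List β) (n k : ℕ), ((l.zipIdx k).filter
      fun p => decide (n + k ≤ p.2)).map Prod.fst = l.drop n := by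
    intro l
    induction l with
    | nil => intro n k; simp
    | cons b l ih =>
      intro n k
      cases n with
      | zero =>
        rw [List.drop_zero, List.filter_eq_self.2]
        · simp
        · intro p hp
          have := List.le_snd_of_mem_zipIdx hp
          simp; omega
      | succ n =>
        have := ih n (k + 1)
        rw [List.zipIdx_cons, List.filter_cons]
        have h1 : ¬ (n + 1 + k ≤ k) := by omega
        simp only [h1, decide_false, Bool.false_eq_true, if_false, List.drop_succ_cons]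
        rw [← this]
        congr 3
        funext p
        rw [show n + (k + 1) = n + 1 + k by ring]
  have := key l n 0
  simpa using this

theorem poly_take {l : α → List β} {n : α → ℕ} (hl : NPC.Poly l) (hn : NPC.Poly n) :
    NPC.Poly (fun a => (l a).take (n a)) := by
  refine (NPC.Poly.map (F := fun _ (p : β × ℕ) => p.1) (NPC.Poly.filter
    (p := fun a (p : β × ℕ) => decide (p.2 < n a)) (NPC.Poly.zipIdx hl)
    (NPC.Poly.decide_lt (NPC.Poly.snd (NPC.Poly.snd NPC.Poly.id)) (hn.comp (NPC.Poly.fst NPC.Poly.id))))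
    (NPC.Poly.fst (NPC.Poly.snd NPC.Poly.id))).congr fun a => ?_
  exact take_eq_filter (l a) (n a)

theorem poly_drop {l : α → List β} {n : α → ℕ} (hl : NPC.Poly l) (hn : NPC.Poly n) :
    NPC.Poly (fun a => (l a).drop (n a)) := by
  refine (NPC.Poly.map (F := fun _ (p : β × ℕ) => p.1) (NPC.Poly.filter
    (p := fun a (p : β × ℕ) => decide (n a ≤ p.2)) (NPC.Poly.zipIdx hl)
    (NPC.Poly.decide_le (hn.comp (NPC.Poly.fst NPC.Poly.id)) (NPC.Poly.snd (NPC.Poly.snd NPC.Poly.id))))
    (NPC.Poly.fst (NPC.Poly.snd NPC.Poly.id))).congr fun a => ?_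
  exact drop_eq_filter (l a) (n a)

theorem poly_headD {l : α → List β} (hl : NPC.Poly l) (d : β) : NPC.Poly (fun a => (l a).headD d) :=
  (NPC.Poly.head?_getD hl d).congr fun a => by cases l a <;> rfl

theorem sz_sublist {β : Type} [TEnc β] {l l' : List β} (h : l.Sublist l') : sz l ≤ sz l' := by
  induction h with
  | slnil => exact le_rfl
  | cons a _ ih => simp; omega
  | cons_cons a _ ih => simp; omega

/-! ### columns -/

theorem poly_del {l : α → List ℕ} {i : α → ℕ} (hl : NPC.Poly l) (hi : NPC.Poly i) :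
    NPC.Poly (fun a => del (l a) (i a)) := by
  unfold del
  exact NPC.Poly.map (F := fun _ (p : ℕ × ℕ) => p.1) (NPC.Poly.filter
    (p := fun a (p : ℕ × ℕ) => decide (p.2 ≠ i a)) (NPC.Poly.zipIdx hl)
    (NPC.Poly.decide_not (NPC.Poly.decide_eq (NPC.Poly.snd (NPC.Poly.snd NPC.Poly.id)) (hi.comp (NPC.Poly.fst NPC.Poly.id)))))
    (NPC.Poly.fst (NPC.Poly.snd NPC.Poly.id))

theorem poly_coef {l t : α → List ℕ} (hl : NPC.Poly l) (ht : NPC.Poly t) :
    NPC.Poly (fun a => coef (l a) (t a)) := by
  unfold coef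
  refine NPC.Poly.isum (NPC.Poly.map (F := fun a i => if t a = del (l a) i then
    (if i % 2 = 0 then (1 : ℤ) else -1) else 0) (NPC.Poly.range_length hl) ?_)
  refine NPC.Poly.ite (p := fun p : α × ℕ => t p.1 = del (l p.1) p.2)
    (NPC.Poly.decide_eq (ht.comp (NPC.Poly.fst NPC.Poly.id))
      (poly_del (hl.comp (NPC.Poly.fst NPC.Poly.id)) (NPC.Poly.snd NPC.Poly.id))) ?_ (NPC.Poly.const _)
  exact NPC.Poly.ite (p := fun p : α × ℕ => p.2 % 2 = 0)
    (NPC.Poly.decide_eq (NPC.Poly.mod (NPC.Poly.snd NPC.Poly.id) (NPC.Poly.const 2)) (NPC.Poly.const 0))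
    (NPC.Poly.const _) (NPC.Poly.const _)

theorem poly_dimOf {F : α → List (List ℕ)} (hF : NPC.Poly F) : NPC.Poly (fun a => dimOf (F a)) := by
  unfold dimOf
  obtain ⟨q, hq⟩ := hF.sz_le
  refine NPC.Poly.foldl (F := fun _ a l => max a (List.length l)) hF (NPC.Poly.const 0)
    (NPC.Poly.max (NPC.Poly.fst (NPC.Poly.snd NPC.Poly.id)) (NPC.Poly.length (NPC.Poly.snd (NPC.Poly.snd NPC.Poly.id))))
    (Polynomial.C 4 * q + Polynomial.C 1) ?_
  intro a k _
  have h1 : ((F a).take k).foldl (fun a l => max a (List.length l)) 0 ≤ sz (F a) := by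
    refine (foldl_max_spec ((F a).take k) 0).2.2 _ (Nat.zero_le _) fun l hl => ?_
    have h2 := sz_le_of_mem (List.mem_of_mem_take hl)
    have h3 := length_lt_sz l
    omega
  have h2 := sz_nat_le (((F a).take k).foldl (fun a l => max a (List.length l)) 0)
  have h3 := NPC.Poly.size_le_self (((F a).take k).foldl (fun a l => max a (List.length l)) 0)
  have h4 := hq a
  simp only [Polynomial.eval_add, Polynomial.eval_mul, Polynomial.eval_C]
  omega

theorem poly_topF {F : α → List (List ℕ)} (hF : NPC.Poly F) : NPC.Poly (fun a => topF (F a)) := by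
  unfold topF
  exact NPC.Poly.filter (p := fun a (l : List ℕ) => decide (l.length = dimOf (F a))) hF
    (NPC.Poly.decide_eq (NPC.Poly.length (NPC.Poly.snd NPC.Poly.id)) (poly_dimOf (hF.comp (NPC.Poly.fst NPC.Poly.id))))

theorem poly_ridges {F : α → List (List ℕ)} (hF : NPC.Poly F) : NPC.Poly (fun a => ridges (F a)) := by
  unfold ridges
  exact NPC.Poly.filter (p := fun a (l : List ℕ) => decide (l.length + 1 = dimOf (F a))) hF
    (NPC.Poly.decide_eq (NPC.Poly.succ (NPC.Poly.length (NPC.Poly.snd NPC.Poly.id)))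
      (poly_dimOf (hF.comp (NPC.Poly.fst NPC.Poly.id))))

theorem poly_cols {F : α → List (List ℕ)} (hF : NPC.Poly F) : NPC.Poly (fun a => cols (F a)) := by
  unfold cols col
  refine NPC.Poly.map (F := fun a (l : List ℕ) => (ridges (F a)).map fun t => coef l t) (poly_topF hF) ?_
  exact NPC.Poly.map (l := fun p : α × List ℕ => ridges (F p.1)) (F := fun p t => coef p.2 t)
    (poly_ridges (hF.comp (NPC.Poly.fst NPC.Poly.id)))
    (poly_coef (NPC.Poly.snd (NPC.Poly.fst NPC.Poly.id)) (NPC.Poly.snd NPC.Poly.id))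

/-! ### independence -/

theorem poly_sel {vs : α → List β} {S : α → List Bool} (hv : NPC.Poly vs) (hS : NPC.Poly S) :
    NPC.Poly (fun a => sel (vs a) (S a)) := by
  unfold sel
  exact NPC.Poly.map (F := fun _ (p : β × Bool) => p.1) (NPC.Poly.filter
    (p := fun _ (p : β × Bool) => p.2) (NPC.Poly.zip hv hS) (NPC.Poly.snd (NPC.Poly.snd NPC.Poly.id)))
    (NPC.Poly.fst (NPC.Poly.snd NPC.Poly.id))

theorem poly_indep {vs : α → List (List ℤ)} {S : α → List Bool} (hv : NPC.Poly vs) (hS : NPC.Poly S) :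
    NPC.Poly (fun a => indep (vs a) (S a)) := by
  unfold indep
  exact NPC.Poly.not (NPC.Poly.decide_eq (poly_gdet (poly_sel hv hS)) (NPC.Poly.const 0))

theorem gstep_sub (vs : List (List ℤ)) : ∀ s : List (List ℤ) × List Bool,
    (∃ u : List (List ℤ), u.Sublist vs ∧ (vs.foldl gstep s).1 = s.1 ++ u) ∧
    (vs.foldl gstep s).2.length = s.2.length + vs.length := by
  induction vs with
  | nil => intro s; exact ⟨⟨[], List.Sublist.refl _, by simp⟩, by simp⟩
  | cons v vs ih =>
    intro s
    rw [List.foldl_cons]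
    obtain ⟨⟨u, hu, h1⟩, h2⟩ := ih (gstep s v)
    unfold gstep at h1 h2 ⊢
    split_ifs at h1 h2 ⊢ with hg
    · refine ⟨⟨u, hu.cons v, h1⟩, ?_⟩
      rw [h2]; simp; omega
    · refine ⟨⟨v :: u, hu.cons_cons v, ?_⟩, ?_⟩
      · rw [h1]; simp
      · rw [h2]; simp; omega

theorem poly_greedy {vs : α → List (List ℤ)} (hv : NPC.Poly vs) : NPC.Poly (fun a => greedy (vs a)) := by
  unfold greedy
  obtain ⟨q, hq⟩ := hv.sz_le
  refine NPC.Poly.snd (NPC.Poly.foldl (s := fun _ => (([], []) : List (List ℤ) × List Bool))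
    (F := fun _ s v => gstep s v) hv (NPC.Poly.const _) ?_
    (q + (Polynomial.C 4 * q + Polynomial.C 1) + Polynomial.C 1) ?_)
  · unfold gstep
    refine NPC.Poly.ite (p := fun p : α × (List (List ℤ) × List Bool) × List ℤ =>
      gdet (p.2.1.1 ++ [p.2.2]) = 0) ?_ ?_ ?_
    · exact NPC.Poly.decide_eq (poly_gdet (NPC.Poly.append (NPC.Poly.fst (NPC.Poly.fst (NPC.Poly.snd NPC.Poly.id)))
        (NPC.Poly.cons (NPC.Poly.snd (NPC.Poly.snd NPC.Poly.id)) (NPC.Poly.const [])))) (NPC.Poly.const 0)
    · exact NPC.Poly.pair (NPC.Poly.fst (NPC.Poly.fst (NPC.Poly.snd NPC.Poly.id)))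
        (NPC.Poly.append (NPC.Poly.snd (NPC.Poly.fst (NPC.Poly.snd NPC.Poly.id))) (NPC.Poly.const [false]))
    · exact NPC.Poly.pair (NPC.Poly.append (NPC.Poly.fst (NPC.Poly.fst (NPC.Poly.snd NPC.Poly.id)))
        (NPC.Poly.cons (NPC.Poly.snd (NPC.Poly.snd NPC.Poly.id)) (NPC.Poly.const [])))
        (NPC.Poly.append (NPC.Poly.snd (NPC.Poly.fst (NPC.Poly.snd NPC.Poly.id))) (NPC.Poly.const [true]))
  · intro a k hk
    obtain ⟨⟨u, hu, h1⟩, h2⟩ := gstep_sub ((vs a).take k) ([], [])
    set t := ((vs a).take k).foldl gstep ([], []) with ht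
    have h3 : sz t = sz t.1 + sz t.2 + 1 := sz_pair t.1 t.2
    have h4 : sz t.1 ≤ sz (vs a) := by
      rw [h1, List.nil_append]
      exact sz_sublist (hu.trans (List.take_sublist _ _))
    have h5 := sz_listBool_le t.2
    have h6 : t.2.length ≤ sz (vs a) := by
      rw [h2]
      have := length_lt_sz (vs a)
      simp; omega
    have h7 := hq a
    simp only [Polynomial.eval_add, Polynomial.eval_mul, Polynomial.eval_C]
    change sz t ≤ _
    omega

/-! ### the chain -/

theorem poly_swp {S : α → List Bool} {i j : α → ℕ} (hS : NPC.Poly S) (hi : NPC.Poly i) (hj : NPC.Poly j) :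
    NPC.Poly (fun a => swp (S a) (i a) (j a)) := by
  unfold swp
  refine NPC.Poly.map (F := fun a (p : Bool × ℕ) => if p.2 = i a then false else
    if p.2 = j a then true else p.1) (NPC.Poly.zipIdx hS) ?_
  refine NPC.Poly.ite (p := fun q : α × Bool × ℕ => q.2.2 = i q.1)
    (NPC.Poly.decide_eq (NPC.Poly.snd (NPC.Poly.snd NPC.Poly.id)) (hi.comp (NPC.Poly.fst NPC.Poly.id))) (NPC.Poly.const _) ?_
  exact NPC.Poly.ite (p := fun q : α × Bool × ℕ => q.2.2 = j q.1)
    (NPC.Poly.decide_eq (NPC.Poly.snd (NPC.Poly.snd NPC.Poly.id)) (hj.comp (NPC.Poly.fst NPC.Poly.id))) (NPC.Poly.const _)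
    (NPC.Poly.fst (NPC.Poly.snd NPC.Poly.id))

theorem poly_stepL {vs : α → List (List ℤ)} {c : α → ℕ} {S u : α → List Bool} (hv : NPC.Poly vs)
    (hc : NPC.Poly c) (hS : NPC.Poly S) (hu : NPC.Poly u) :
    NPC.Poly (fun a => stepL (vs a) (c a) (S a) (u a)) := by
  unfold stepL
  have hi : NPC.Poly (fun a => valB (((u a).drop 1).take (c a))) :=
    NPC.Poly.valBits (poly_take (poly_drop hu (NPC.Poly.const 1)) hc)
  have hj : NPC.Poly (fun a => valB ((u a).drop (1 + c a))) :=
    NPC.Poly.valBits (poly_drop hu (NPC.Poly.add (NPC.Poly.const 1) hc))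
  have hs := poly_swp hS hi hj
  exact NPC.Poly.ite (NPC.Poly.decide_bool (NPC.Poly.and (poly_headD hu false)
    (NPC.Poly.and (NPC.Poly.getD hS hi (NPC.Poly.const false))
      (NPC.Poly.and (NPC.Poly.not (NPC.Poly.getD hS hj (NPC.Poly.const true))) (poly_indep hv hs))))) hs hS

theorem length_stepL (vs : List (List ℤ)) (a : ℕ) (S u : List Bool) :
    (stepL vs a S u).length = S.length := by
  unfold stepL
  split_ifs
  · simp [swp]
  · rfl

theorem length_iter_stepP (vs : List (List ℤ)) (a : ℕ) (p : List Bool × List Bool) : ∀ T : ℕ,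
    ((stepP vs a)^[T] p).1.length = p.1.length ∧ ((stepP vs a)^[T] p).2.length ≤ p.2.length := by
  intro T
  induction T with
  | zero => exact ⟨rfl, le_rfl⟩
  | succ T ih =>
    rw [Function.iterate_succ_apply']
    unfold stepP at ih ⊢
    refine ⟨by rw [length_stepL]; exact ih.1, ?_⟩
    rw [List.length_drop]
    have := ih.2
    omega

theorem poly_chain {vs : α → List (List ℤ)} {c T : α → ℕ} {S r : α → List Bool} (hv : NPC.Poly vs)
    (hc : NPC.Poly c) (hT : UPoly T) (hS : NPC.Poly S) (hr : NPC.Poly r) :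
    NPC.Poly (fun a => chain (vs a) (c a) (T a) (S a) (r a)) := by
  unfold chain
  obtain ⟨q1, hq1⟩ := hS.sz_le
  obtain ⟨q2, hq2⟩ := hr.sz_le
  have h := NPC.Poly.iterLen (l := fun a => List.replicate (T a) ()) (s := fun a => (S a, r a))
    (F := fun a p => stepP (vs a) (c a) p) hT (NPC.Poly.pair hS hr) (by
      unfold stepP
      have e1 : NPC.Poly (fun p : α × List Bool × List Bool => 2 * c p.1 + 1) :=
        NPC.Poly.succ (NPC.Poly.mul (NPC.Poly.const 2) (hc.comp (NPC.Poly.fst NPC.Poly.id)))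
      exact NPC.Poly.pair (poly_stepL (hv.comp (NPC.Poly.fst NPC.Poly.id)) (hc.comp (NPC.Poly.fst NPC.Poly.id))
        (NPC.Poly.fst (NPC.Poly.snd NPC.Poly.id)) (poly_take (NPC.Poly.snd (NPC.Poly.snd NPC.Poly.id)) e1))
        (poly_drop (NPC.Poly.snd (NPC.Poly.snd NPC.Poly.id)) e1))
    (Polynomial.C 4 * q1 + Polynomial.C 1 + (Polynomial.C 4 * q2 + Polynomial.C 1) +
      Polynomial.C 1) (by
      intro a k _
      obtain ⟨h1, h2⟩ := length_iter_stepP (vs a) (c a) (S a, r a) k
      set t := (stepP (vs a) (c a))^[k] (S a, r a) with ht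
      have h3 : sz t = sz t.1 + sz t.2 + 1 := sz_pair t.1 t.2
      have h4 := sz_listBool_le t.1
      have h5 := sz_listBool_le t.2
      have h6 := length_lt_sz (S a)
      have h7 := length_lt_sz (r a)
      have h8 := hq1 a
      have h9 := hq2 a
      simp only at h1 h2
      simp only [Polynomial.eval_add, Polynomial.eval_mul, Polynomial.eval_C]
      change sz t ≤ _
      omega)
  exact (NPC.Poly.fst h).congr fun a => by rw [List.length_replicate]

end basic

end Pool.Agent.E8helper91.Samp
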