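import Pool.Agent.E8helper91.Samp.PPoly

/-!
# The algorithm runs in polynomial time: second part
-/

set_option autoImplicit false

namespace Pool.Agent.E8helper91.Samp

open Pool.Agent.NPC Pool.Agent.H670R2 Pool.Agent.NPC.H670R2

/-! ### all bit strings of a given length, with a guard -/

/-- the two extensions of all strings, if there are not too many -/
def gdbl (N : ℕ) (L : List (List Bool)) : List (List Bool) :=
  if 2 * L.length ≤ N then L.map (fun l => false :: l) ++ L.map (fun l => true :: l) else []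

/-- all bit strings of length `n`, if there are at most `N` of them -/
def allLg (N n : ℕ) : List (List Bool) := (gdbl N)^[n] [[]]

theorem allLg_eq {N : ℕ} : ∀ {n : ℕ}, 2 ^ n ≤ N → allLg N n = allL n := by
  intro n
  induction n with
  | zero => intro _; rfl
  | succ n ih =>
    intro h
    have h1 : 2 ^ n ≤ N := le_trans (Nat.pow_le_pow_right (by norm_num) (by omega)) h
    have h2 := ih h1
    unfold allLg at h2 ⊢
    rw [Function.iterate_succ_apply', h2]
    unfold gdbl
    rw [length_allL, if_pos (by rw [pow_succ] at h; omega)]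
    rfl

theorem allLg_bound (N : ℕ) : ∀ n : ℕ, ((gdbl N)^[n] [[]]).length ≤ N + 1 ∧
    ∀ l ∈ (gdbl N)^[n] [[]], l.length = n := by
  intro n
  induction n with
  | zero => simp
  | succ n ih =>
    rw [Function.iterate_succ_apply']
    set L := (gdbl N)^[n] [[]] with hL
    unfold gdbl
    split_ifs with h
    · refine ⟨by simp; omega, fun l hl => ?_⟩
      rw [List.mem_append, List.mem_map, List.mem_map] at hl
      rcases hl with ⟨u, hu, rfl⟩ | ⟨u, hu, rfl⟩
      · simp [ih.2 u hu]
      · simp [ih.2 u hu]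
    · simp

section basic

variable {α β : Type} [TEnc α] [TEnc β]

theorem upoly_le {N : α → ℕ} (hN : UPoly N) : ∃ q : Polynomial ℕ, ∀ a, N a ≤ q.eval (sz a) := by
  obtain ⟨q, hq⟩ := NPC.Poly.sz_le hN
  refine ⟨q, fun a => ?_⟩
  have h1 := length_lt_sz (List.replicate (N a) ())
  have h2 := hq a
  rw [List.length_replicate] at h1
  omega

theorem poly_allLg {N n : α → ℕ} (hN : UPoly N) (hn : UPoly n) :
    NPC.Poly (fun a => allLg (N a) (n a)) := by
  unfold allLg
  obtain ⟨qN, hqN⟩ := upoly_le hN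
  obtain ⟨qn, hqn⟩ := upoly_le hn
  have h := NPC.Poly.iterLen (l := fun a => List.replicate (n a) ())
    (s := fun _ => ([[]] : List (List Bool))) (F := fun a L => gdbl (N a) L) hn (NPC.Poly.const _)
    (by
      unfold gdbl
      refine NPC.Poly.ite (p := fun p : α × List (List Bool) => 2 * p.2.length ≤ N p.1)
        (NPC.Poly.decide_le (NPC.Poly.mul (NPC.Poly.const 2) (NPC.Poly.length (NPC.Poly.snd NPC.Poly.id)))
          (hN.toPoly.comp (NPC.Poly.fst NPC.Poly.id))) ?_ (NPC.Poly.const _)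
      refine NPC.Poly.append ?_ ?_
      · exact NPC.Poly.map (F := fun _ (l : List Bool) => false :: l) (NPC.Poly.snd NPC.Poly.id)
          (NPC.Poly.cons (NPC.Poly.const _) (NPC.Poly.snd NPC.Poly.id))
      · exact NPC.Poly.map (F := fun _ (l : List Bool) => true :: l) (NPC.Poly.snd NPC.Poly.id)
          (NPC.Poly.cons (NPC.Poly.const _) (NPC.Poly.snd NPC.Poly.id)))
    ((qN + Polynomial.C 1) * (Polynomial.C 4 * qn + Polynomial.C 2) + Polynomial.C 1) (by
      intro a k hk
      rw [List.length_replicate] at hk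
      obtain ⟨h1, h2⟩ := allLg_bound (N a) k
      have h3 := sz_le_length_mul ((gdbl (N a))^[k] [[]]) (4 * k + 1) (fun l hl => by
        have := sz_listBool_le l
        rw [h2 l hl] at this
        exact this)
      have h4 := hqN a
      have h5 := hqn a
      have h6 : ((gdbl (N a))^[k] [[]]).length * (4 * k + 1 + 1) ≤
          (qN.eval (sz a) + 1) * (4 * qn.eval (sz a) + 2) := Nat.mul_le_mul (by omega) (by omega)
      simp only [Polynomial.eval_add, Polynomial.eval_mul, Polynomial.eval_C]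
      change sz ((gdbl (N a))^[k] [[]]) ≤ _
      omega)
  exact h.congr fun a => by rw [List.length_replicate]

/-! ### the law of the chain -/

theorem dstep_bound (vs : List (List ℤ)) (c : ℕ) (us : List (List Bool)) (D : List (List Bool × ℕ))
    (M : ℕ) (hM : ∀ p ∈ D, p.2 ≤ M) :
    ∀ p ∈ dstep vs c us D, p.2 ≤ D.length * us.length * M := by
  intro p hp
  unfold dstep at hp
  rw [List.mem_map] at hp
  obtain ⟨y, _, rfl⟩ := hp
  simp only
  refine (List.sum_le_card_nsmul _ (us.length * M) ?_).trans ?_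
  · intro x hx
    rw [List.mem_map] at hx
    obtain ⟨p, hp, rfl⟩ := hx
    refine (List.sum_le_card_nsmul _ M ?_).trans ?_
    · intro z hz
      rw [List.mem_map] at hz
      obtain ⟨u, _, rfl⟩ := hz
      split_ifs
      · exact hM p hp
      · exact Nat.zero_le _
    · simp
  · simp [mul_assoc]

theorem dist_bound (vs : List (List ℤ)) (c : ℕ) (us : List (List Bool)) (D : List (List Bool × ℕ))
    (hD : ∀ p ∈ D, p.2 ≤ 1) : ∀ k : ℕ,
    ((dstep vs c us)^[k] D).map Prod.fst = D.map Prod.fst ∧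
    ∀ p ∈ (dstep vs c us)^[k] D, p.2 ≤ (D.length * us.length + 1) ^ k := by
  intro k
  induction k with
  | zero => exact ⟨rfl, by simpa using hD⟩
  | succ k ih =>
    rw [Function.iterate_succ_apply']
    obtain ⟨h1, h2⟩ := ih
    refine ⟨?_, ?_⟩
    · rw [← h1]
      unfold dstep
      rw [List.map_map]
      rfl
    · intro p hp
      have h3 := dstep_bound vs c us _ _ h2 p hp
      have h4 : ((dstep vs c us)^[k] D).length = D.length := by
        have := congrArg List.length h1
        simpa using this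
      rw [h4] at h3
      refine h3.trans ?_
      rw [pow_succ, mul_comm]
      exact Nat.mul_le_mul_left _ (Nat.le_succ _)

/-- contribution of one state -/
def cell (vs : List (List ℤ)) (c : ℕ) (us : List (List Bool)) (S : List Bool) (x : ℕ)
    (y : List Bool) : ℕ := (us.map fun u => if stepL vs c S u = y then x else 0).sum

/-- contribution of all states -/
def rowD (vs : List (List ℤ)) (c : ℕ) (us : List (List Bool)) (D : List (List Bool × ℕ))
    (y : List Bool) : ℕ := (D.map fun p => cell vs c us p.1 p.2 y).sum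

theorem dstep_eq (vs : List (List ℤ)) (c : ℕ) (us : List (List Bool)) (D : List (List Bool × ℕ)) :
    dstep vs c us D = D.map fun p => (p.1, rowD vs c us D p.1) := rfl

theorem poly_cell {vs : α → List (List ℤ)} {c x : α → ℕ} {us : α → List (List Bool)}
    {S y : α → List Bool} (hv : NPC.Poly vs) (hc : NPC.Poly c) (hu : NPC.Poly us)
    (hS : NPC.Poly S) (hx : NPC.Poly x) (hy : NPC.Poly y) :
    NPC.Poly (fun a => cell (vs a) (c a) (us a) (S a) (x a) (y a)) := by
  unfold cell
  refine NPC.Poly.sum (NPC.Poly.map (F := fun a (u : List Bool) =>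
    if stepL (vs a) (c a) (S a) u = y a then x a else 0) hu ?_)
  have h1 : NPC.Poly (fun p : α × List Bool => stepL (vs p.1) (c p.1) (S p.1) p.2) :=
    poly_stepL (hv.comp (NPC.Poly.fst NPC.Poly.id)) (hc.comp (NPC.Poly.fst NPC.Poly.id))
      (hS.comp (NPC.Poly.fst NPC.Poly.id)) (NPC.Poly.snd NPC.Poly.id)
  exact NPC.Poly.ite (p := fun p : α × List Bool =>
    stepL (vs p.1) (c p.1) (S p.1) p.2 = y p.1) (NPC.Poly.decide_eq h1
      (hy.comp (NPC.Poly.fst NPC.Poly.id))) (hx.comp (NPC.Poly.fst NPC.Poly.id))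
    (NPC.Poly.const 0)

theorem poly_rowD {vs : α → List (List ℤ)} {c : α → ℕ} {us : α → List (List Bool)}
    {D : α → List (List Bool × ℕ)} {y : α → List Bool} (hv : NPC.Poly vs) (hc : NPC.Poly c)
    (hu : NPC.Poly us) (hD : NPC.Poly D) (hy : NPC.Poly y) :
    NPC.Poly (fun a => rowD (vs a) (c a) (us a) (D a) (y a)) := by
  unfold rowD
  exact NPC.Poly.sum (NPC.Poly.map (F := fun a (p : List Bool × ℕ) =>
    cell (vs a) (c a) (us a) p.1 p.2 (y a)) hD (poly_cell (hv.comp (NPC.Poly.fst NPC.Poly.id))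
      (hc.comp (NPC.Poly.fst NPC.Poly.id)) (hu.comp (NPC.Poly.fst NPC.Poly.id))
      (NPC.Poly.fst (NPC.Poly.snd NPC.Poly.id)) (NPC.Poly.snd (NPC.Poly.snd NPC.Poly.id))
      (hy.comp (NPC.Poly.fst NPC.Poly.id))))

theorem poly_dstep {vs : α → List (List ℤ)} {c : α → ℕ} {us : α → List (List Bool)}
    {D : α → List (List Bool × ℕ)} (hv : NPC.Poly vs) (hc : NPC.Poly c) (hu : NPC.Poly us)
    (hD : NPC.Poly D) : NPC.Poly (fun a => dstep (vs a) (c a) (us a) (D a)) := by
  simp only [dstep_eq]
  exact NPC.Poly.map (F := fun a (p : List Bool × ℕ) =>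
    (p.1, rowD (vs a) (c a) (us a) (D a) p.1)) hD
    (NPC.Poly.pair (NPC.Poly.fst (NPC.Poly.snd NPC.Poly.id))
      (poly_rowD (hv.comp (NPC.Poly.fst NPC.Poly.id)) (hc.comp (NPC.Poly.fst NPC.Poly.id))
        (hu.comp (NPC.Poly.fst NPC.Poly.id)) (hD.comp (NPC.Poly.fst NPC.Poly.id))
        (NPC.Poly.fst (NPC.Poly.snd NPC.Poly.id))))

theorem poly_dist {vs : α → List (List ℤ)} {c T : α → ℕ} {us bs : α → List (List Bool)}
    {S : α → List Bool} (hv : NPC.Poly vs) (hc : NPC.Poly c) (hT : UPoly T) (hu : NPC.Poly us)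
    (hb : NPC.Poly bs) (hS : NPC.Poly S) :
    NPC.Poly (fun a => dist (vs a) (c a) (T a) (us a) (bs a) (S a)) := by
  unfold dist
  obtain ⟨qT, hqT⟩ := upoly_le hT
  obtain ⟨qu, hqu⟩ := hu.sz_le
  obtain ⟨qb, hqb⟩ := hb.sz_le
  have h0 : NPC.Poly (fun a => (bs a).map fun y => (y, if y = S a then 1 else 0)) := by
    refine NPC.Poly.map (F := fun a (y : List Bool) => (y, if y = S a then 1 else 0)) hb ?_
    exact NPC.Poly.pair (NPC.Poly.snd NPC.Poly.id) (NPC.Poly.ite
      (p := fun p : α × List Bool => p.2 = S p.1)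
      (NPC.Poly.decide_eq (NPC.Poly.snd NPC.Poly.id) (hS.comp (NPC.Poly.fst NPC.Poly.id)))
      (NPC.Poly.const 1) (NPC.Poly.const 0))
  have h := NPC.Poly.iterLen (l := fun a => List.replicate (T a) ())
    (s := fun a => (bs a).map fun y => (y, if y = S a then 1 else 0))
    (F := fun a D => dstep (vs a) (c a) (us a) D) hT h0
    (poly_dstep (hv.comp (NPC.Poly.fst NPC.Poly.id)) (hc.comp (NPC.Poly.fst NPC.Poly.id))
      (hu.comp (NPC.Poly.fst NPC.Poly.id)) (NPC.Poly.snd NPC.Poly.id))
    (qb * (qb + (Polynomial.C 4 * (qT * (qb * qu + Polynomial.C 1) + Polynomial.C 1) +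
      Polynomial.C 1) + Polynomial.C 1 + Polynomial.C 1) + Polynomial.C 1) (by
      intro a k hk
      rw [List.length_replicate] at hk
      set D₀ := (bs a).map fun y => (y, if y = S a then 1 else 0) with hD₀
      have hlen : D₀.length = (bs a).length := by rw [hD₀, List.length_map]
      obtain ⟨h1, h2⟩ := dist_bound (vs a) (c a) (us a) D₀ (by
        intro p hp
        rw [hD₀, List.mem_map] at hp
        obtain ⟨y, _, rfl⟩ := hp
        simp only
        split_ifs <;> simp) k
      have h3 : ((dstep (vs a) (c a) (us a))^[k] D₀).length = (bs a).length := by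
        have := congrArg List.length h1
        rw [List.length_map, List.length_map, hlen] at this
        exact this
      have e1 := hqT a
      have e2 := hqu a
      have e3 := hqb a
      have e4 := length_lt_sz (us a)
      have e5 := length_lt_sz (bs a)
      set n := (bs a).length
      set U := (us a).length
      set B := sz (bs a) + (4 * (k * (n * U + 1) + 1) + 1) + 1
      have h4 := sz_le_length_mul ((dstep (vs a) (c a) (us a))^[k] D₀) B (by
        intro p hp
        have e6 : sz p = sz p.1 + sz p.2 + 1 := sz_pair p.1 p.2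
        have e7 : p.1 ∈ bs a := by
          have : p.1 ∈ D₀.map Prod.fst := by rw [← h1]; exact List.mem_map_of_mem hp
          rw [hD₀, List.map_map, List.mem_map] at this
          obtain ⟨y, hy, hy2⟩ := this
          rw [← hy2]; exact hy
        have e8 := sz_le_of_mem e7
        have e9 := sz_nat_le p.2
        have e10 := Nat.size_le_size (h2 p hp)
        have e11 := size_pow_le (D₀.length * U + 1) k
        have e12 := NPC.Poly.size_le_self (D₀.length * U + 1)
        rw [hlen] at e10 e11 e12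
        have e13 : k * (n * U + 1).size ≤ k * (n * U + 1) := Nat.mul_le_mul_left _ e12
        simp only [B]
        omega)
      rw [h3] at h4
      have h5 : k * (n * U + 1) ≤ qT.eval (sz a) * (qb.eval (sz a) * qu.eval (sz a) + 1) := by
        refine Nat.mul_le_mul (by omega) ?_
        have : n * U ≤ qb.eval (sz a) * qu.eval (sz a) := Nat.mul_le_mul (by omega) (by omega)
        omega
      have h6 : n * (B + 1) ≤ qb.eval (sz a) * (qb.eval (sz a) + (4 * (qT.eval (sz a) *
          (qb.eval (sz a) * qu.eval (sz a) + 1) + 1) + 1) + 1 + 1) :=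
        Nat.mul_le_mul (by omega) (by simp only [B]; omega)
      simp only [Polynomial.eval_add, Polynomial.eval_mul, Polynomial.eval_C]
      change sz ((dstep (vs a) (c a) (us a))^[k] D₀) ≤ _
      omega)
  exact h.congr fun a => by rw [List.length_replicate]

theorem poly_maxD {D : α → List (List Bool × ℕ)} (hD : NPC.Poly D) :
    NPC.Poly (fun a => maxD (D a)) := by
  unfold maxD
  obtain ⟨q, hq⟩ := hD.sz_le
  refine NPC.Poly.foldl (F := fun _ a (p : List Bool × ℕ) => max a p.2) hD (NPC.Poly.const 0)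
    (NPC.Poly.max (NPC.Poly.fst (NPC.Poly.snd NPC.Poly.id))
      (NPC.Poly.snd (NPC.Poly.snd (NPC.Poly.snd NPC.Poly.id))))
    (Polynomial.C 2 * q + Polynomial.C 1) ?_
  intro a k _
  have h1 := (maxD_aux ((D a).take k) 0).2.2
  have h4 := hq a
  simp only [Polynomial.eval_add, Polynomial.eval_mul, Polynomial.eval_C]
  rcases h1 with h1 | ⟨p, hp, h1⟩
  · rw [h1]
    have : sz (0 : ℕ) = 1 := rfl
    omega
  · rw [h1]
    have h2 := sz_le_of_mem (List.mem_of_mem_take hp)
    have h3 : sz p = sz p.1 + sz p.2 + 1 := sz_pair p.1 p.2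
    omega

theorem poly_weights {K : α → ℕ} {D : α → List (List Bool × ℕ)} (hK : UPoly K)
    (hD : NPC.Poly D) : NPC.Poly (fun a => weights (K a) (D a)) := by
  unfold weights
  refine NPC.Poly.map (F := fun a (p : List Bool × ℕ) =>
    (p.1, (2 ^ K a - 1) * (maxD (D a) - p.2))) hD ?_
  exact NPC.Poly.pair (NPC.Poly.fst (NPC.Poly.snd NPC.Poly.id)) (NPC.Poly.mul
    (NPC.Poly.sub ((NPC.Poly.npow (NPC.Poly.const 2) hK).comp (NPC.Poly.fst NPC.Poly.id))
      (NPC.Poly.const 1))
    (NPC.Poly.sub ((poly_maxD hD).comp (NPC.Poly.fst NPC.Poly.id))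
      (NPC.Poly.snd (NPC.Poly.snd NPC.Poly.id))))

theorem pick_bound (l : List (List Bool × ℕ)) : ∀ s : Option (List Bool) × ℕ,
    (l.foldl pickStep s).2 ≤ s.2 ∧
    ((l.foldl pickStep s).1 = s.1 ∨ ∃ p ∈ l, (l.foldl pickStep s).1 = some p.1) := by
  induction l with
  | nil => intro s; simp
  | cons p l ih =>
    intro s
    rw [List.foldl_cons]
    obtain ⟨h1, h2⟩ := ih (pickStep s p)
    have h3 : (pickStep s p).2 ≤ s.2 ∧ ((pickStep s p).1 = s.1 ∨ (pickStep s p).1 = some p.1) := by
      unfold pickStep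
      split_ifs with ha hb
      · simp
      · simp
      · simp only [Option.not_isSome_iff_eq_none] at ha
        exact ⟨Nat.sub_le _ _, Or.inl ha.symm⟩
    refine ⟨h1.trans h3.1, ?_⟩
    rcases h2 with h2 | ⟨q, hq, h2⟩
    · rcases h3.2 with h4 | h4
      · exact Or.inl (h2.trans h4)
      · exact Or.inr ⟨p, List.mem_cons_self, h2.trans h4⟩
    · exact Or.inr ⟨q, List.mem_cons_of_mem _ hq, h2⟩

theorem poly_pick {l : α → List (List Bool × ℕ)} {R : α → ℕ} (hl : NPC.Poly l)
    (hR : NPC.Poly R) : NPC.Poly (fun a => pick (l a) (R a)) := by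
  unfold pick
  obtain ⟨q1, hq1⟩ := hl.sz_le
  obtain ⟨q2, hq2⟩ := hR.sz_le
  refine NPC.Poly.fst (NPC.Poly.foldl (s := fun a => ((none : Option (List Bool)), R a))
    (F := fun _ s p => pickStep s p) hl (NPC.Poly.pair (NPC.Poly.const none) hR) ?_
    (q1 + Polynomial.C 2 * q2 + Polynomial.C 4) ?_)
  · unfold pickStep
    refine NPC.Poly.ite (p := fun p : α × (Option (List Bool) × ℕ) × List Bool × ℕ =>
      p.2.1.1.isSome = true) (NPC.Poly.decide_bool (NPC.Poly.isSome
        (NPC.Poly.fst (NPC.Poly.fst (NPC.Poly.snd NPC.Poly.id)))))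
        (NPC.Poly.fst (NPC.Poly.snd NPC.Poly.id)) ?_
    refine NPC.Poly.ite (p := fun p : α × (Option (List Bool) × ℕ) × List Bool × ℕ =>
      p.2.1.2 < p.2.2.2) (NPC.Poly.decide_lt
        (NPC.Poly.snd (NPC.Poly.fst (NPC.Poly.snd NPC.Poly.id)))
        (NPC.Poly.snd (NPC.Poly.snd (NPC.Poly.snd NPC.Poly.id)))) ?_ ?_
    · exact NPC.Poly.pair (NPC.Poly.some (NPC.Poly.fst (NPC.Poly.snd (NPC.Poly.snd NPC.Poly.id))))
        (NPC.Poly.snd (NPC.Poly.fst (NPC.Poly.snd NPC.Poly.id)))
    · exact NPC.Poly.pair (NPC.Poly.const none) (NPC.Poly.sub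
        (NPC.Poly.snd (NPC.Poly.fst (NPC.Poly.snd NPC.Poly.id)))
        (NPC.Poly.snd (NPC.Poly.snd (NPC.Poly.snd NPC.Poly.id))))
  · intro a k _
    obtain ⟨h1, h2⟩ := pick_bound ((l a).take k) (none, R a)
    set t := ((l a).take k).foldl pickStep (none, R a) with ht
    have h3 : sz t = sz t.1 + sz t.2 + 1 := sz_pair t.1 t.2
    have h4 := sz_nat_mono_le h1
    simp only at h4
    have h5 := hq1 a
    have h6 := hq2 a
    have h7 : sz t.1 ≤ sz (l a) + 2 := by
      rcases h2 with h2 | ⟨p, hp, h2⟩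
      · rw [h2]; simp
      · rw [h2, sz_some]
        have e1 := sz_le_of_mem (List.mem_of_mem_take hp)
        have e2 : sz p = sz p.1 + sz p.2 + 1 := sz_pair p.1 p.2
        omega
    simp only [Polynomial.eval_add, Polynomial.eval_mul, Polynomial.eval_C]
    change sz t ≤ _
    omega

theorem poly_allB {vs : α → List (List ℤ)} {st : α → List (List Bool)} {r : α → ℕ}
    (hv : NPC.Poly vs) (hs : NPC.Poly st) (hr : NPC.Poly r) :
    NPC.Poly (fun a => allB (vs a) (st a) (r a)) := by
  unfold allB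
  refine NPC.Poly.filter (p := fun a S => decide ((sel (vs a) S).length = r a) && indep (vs a) S)
    hs ?_
  exact NPC.Poly.and (NPC.Poly.decide_eq (NPC.Poly.length (poly_sel
    (hv.comp (NPC.Poly.fst NPC.Poly.id)) (NPC.Poly.snd NPC.Poly.id)))
    (hr.comp (NPC.Poly.fst NPC.Poly.id)))
    (poly_indep (hv.comp (NPC.Poly.fst NPC.Poly.id)) (NPC.Poly.snd NPC.Poly.id))

/-! ### parameters -/

theorem upoly_mOf {F : α → List (List ℕ)} (hF : NPC.Poly F) : UPoly (fun a => mOf (F a)) :=
  UPoly.length (poly_topF hF)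

theorem aOf_le (F : List (List ℕ)) : aOf F ≤ mOf F := by
  unfold aOf
  rw [Nat.size_eq_bits_len]
  exact NPC.Poly.size_le_self _

theorem upoly_aOf {F : α → List (List ℕ)} (hF : NPC.Poly F) : UPoly (fun a => aOf (F a)) := by
  refine UPoly.of_le ?_ (upoly_mOf hF) fun a => aOf_le (F a)
  unfold aOf
  exact NPC.Poly.length (NPC.Poly.natBits (upoly_mOf hF).toPoly)

theorem two_pow_aOf_le (F : List (List ℕ)) : 2 ^ aOf F ≤ 2 * mOf F + 1 := by
  unfold aOf
  rw [Nat.size_eq_bits_len]
  rcases Nat.eq_zero_or_pos (mOf F) with h | h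
  · rw [h]; simp
  · obtain ⟨j, hj⟩ : ∃ j, (mOf F).size = j + 1 :=
      ⟨(mOf F).size - 1, by have := Nat.size_pos.2 h; omega⟩
    have h1 : 2 ^ j ≤ mOf F := Nat.lt_size.1 (by omega)
    rw [hj, pow_succ]
    omega

theorem four_pow_le (F : List (List ℕ)) : 4 ^ (aOf F + 1) ≤ 4 * ((2 * mOf F + 1) * (2 * mOf F + 1)) := by
  have h1 := two_pow_aOf_le F
  have h2 : 4 ^ aOf F = 2 ^ aOf F * 2 ^ aOf F := by rw [← mul_pow]; norm_num
  rw [pow_succ, h2]
  have := Nat.mul_le_mul h1 h1
  omega

theorem upoly_TOf {K : α → ℕ} {F : α → List (List ℕ)} (hK : UPoly K) (hF : NPC.Poly F) :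
    UPoly (fun a => TOf (K a) (F a)) := by
  unfold TOf
  refine UPoly.mul ?_ (UPoly.add hK (upoly_mOf hF))
  have h1 : UPoly (fun a => 2 * mOf (F a) + 1) :=
    UPoly.add (UPoly.mul (UPoly.const 2) (upoly_mOf hF)) (UPoly.const 1)
  exact UPoly.of_le (NPC.Poly.npow (NPC.Poly.const 4) (UPoly.add (upoly_aOf hF) (UPoly.const 1)))
    (UPoly.mul (UPoly.const 4) (UPoly.mul h1 h1)) fun a => four_pow_le (F a)

theorem upoly_kOf {K : α → ℕ} {F : α → List (List ℕ)} (hK : UPoly K) (hF : NPC.Poly F) :
    UPoly (fun a => kOf (K a) (F a)) := by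
  unfold kOf
  exact UPoly.add hK (UPoly.mul (upoly_TOf hK hF)
    (UPoly.add (UPoly.mul (UPoly.const 2) (upoly_aOf hF)) (UPoly.const 1)))

theorem poly_outF {F : α → List (List ℕ)} {S : α → List Bool} (hF : NPC.Poly F)
    (hS : NPC.Poly S) : NPC.Poly (fun a => outF (F a) (S a)) := by
  unfold outF
  refine NPC.Poly.filter (p := fun a (l : List ℕ) => !decide (l.length = dimOf (F a)) ||
    decide (l ∈ sel (topF (F a)) (S a))) hF ?_
  have h1 : NPC.Poly (fun x : α × List ℕ => sel (topF (F x.1)) (S x.1)) :=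
    poly_sel (poly_topF (hF.comp (NPC.Poly.fst NPC.Poly.id))) (hS.comp (NPC.Poly.fst NPC.Poly.id))
  have h2 := NPC.Poly.decide_mem (f := fun x : α × List ℕ => x.2) (NPC.Poly.snd NPC.Poly.id) h1
  refine NPC.Poly.or (NPC.Poly.not (NPC.Poly.decide_eq (NPC.Poly.length (NPC.Poly.snd NPC.Poly.id))
    (poly_dimOf (hF.comp (NPC.Poly.fst NPC.Poly.id))))) (h2.congr fun x => ?_)
  exact decide_eq_decide.2 Iff.rfl

theorem poly_main1 {K : α → ℕ} {F : α → List (List ℕ)} {r : α → List Bool} (hK : UPoly K)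
    (hF : NPC.Poly F) (hr : NPC.Poly r) : NPC.Poly (fun a => main1 (K a) (F a) (r a)) := by
  unfold main1
  exact poly_chain (poly_cols hF) (upoly_aOf hF).toPoly (upoly_TOf hK hF)
    (poly_greedy (poly_cols hF)) (poly_drop hr hK.toPoly)

theorem poly_main2 {st us : α → List (List Bool)} {K : α → ℕ} {F : α → List (List ℕ)}
    {r : α → List Bool} (hst : NPC.Poly st) (hus : NPC.Poly us) (hK : UPoly K)
    (hF : NPC.Poly F) (hr : NPC.Poly r) :
    NPC.Poly (fun a => main2 (st a) (us a) (K a) (F a) (r a)) := by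
  unfold main2
  have hc := poly_cols hF
  have hg := poly_greedy hc
  exact poly_pick (poly_weights hK (poly_dist hc (upoly_aOf hF).toPoly (upoly_TOf hK hF) hus
    (poly_allB hc hst (NPC.Poly.length (poly_sel hc hg))) hg))
    (NPC.Poly.valBits (poly_drop hr hK.toPoly))

end basic

end Pool.Agent.E8helper91.Samp
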