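import Pool.Agent.E8helper91.Samp.PPolyB

/-!
# The functions computed by the machine
-/

set_option autoImplicit false

namespace Pool.Agent.E8helper91.Samp

open Pool.Agent.NPC Pool.Agent.H670R2 Pool.Agent.NPC.H670R2 Pool.Agent.H591R2

/-- decoding of the input -/
def decF (x : List Bool) : List (List ℕ) :=
  match unbits (List (List ℕ)) x with
  | none => []
  | some F => F

theorem decF_bits (F : List (List ℕ)) : decF (bits F) = F := by
  unfold decF
  rw [unbits_bits]

/-- the parameter deciding how often the exceptional case occurs -/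
def kD (D : ℕ) (F : List (List ℕ)) : ℕ := D * (mOf F + 1)

/-- preparation -/
def fA (D : ℕ) (x : List Bool) : List Bool := head (kOf (kD D (decF x)) (decF x)) x

/-- input of the exceptional program -/
abbrev Zt : Type := List Unit × List Bool × List Bool

/-- the usual case, and the input of the exceptional program otherwise -/
def fB (D : ℕ) (y : List Bool) : List Bool :=
  if ((unpair y).1.take (kD D (decF (unpair y).2))).any (fun b => b) = true then
    true :: true :: bits (outF (decF (unpair y).2)
      (main1 (kD D (decF (unpair y).2)) (decF (unpair y).2) (unpair y).1))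
  else false :: (List.replicate (mOf (decF (unpair y).2)) true ++
    false :: bits ((List.replicate (kD D (decF (unpair y).2)) (), (unpair y).1, (unpair y).2) : Zt))

/-- the exceptional case -/
def fE (z : List Unit × Zt) : List Bool :=
  (main2 (allLg z.1.length (mOf (decF z.2.2.2)))
    (allLg (8 * (mOf (decF z.2.2.2) * mOf (decF z.2.2.2)) + 8 * mOf (decF z.2.2.2) + 2)
      (2 * aOf (decF z.2.2.2) + 1)) z.2.1.length (decF z.2.2.2) z.2.2.1).elim
    (false :: head (kOf z.2.1.length (decF z.2.2.2)) z.2.2.2)
    (fun S => true :: bits (outF (decF z.2.2.2) S))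

theorem allLg_us (F : List (List ℕ)) :
    allLg (8 * (mOf F * mOf F) + 8 * mOf F + 2) (2 * aOf F + 1) = allL (2 * aOf F + 1) := by
  refine allLg_eq ?_
  have h1 := two_pow_aOf_le F
  have h2 : 2 ^ (2 * aOf F + 1) = 2 * (2 ^ aOf F * 2 ^ aOf F) := by
    rw [pow_succ, two_mul, pow_add]; ring
  rw [h2]
  have h3 := Nat.mul_le_mul h1 h1
  nlinarith

section

variable {α : Type} [TEnc α]

theorem poly_decF {x : α → List Bool} (hx : NPC.Poly x) : NPC.Poly (fun a => decF (x a)) := by
  refine (NPC.Poly.optCases (o := fun a => unbits (List (List ℕ)) (x a)) (g := fun _ => [])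
    (h := fun _ (F : List (List ℕ)) => F) (poly_unbits.comp hx) (NPC.Poly.const [])
    (NPC.Poly.snd NPC.Poly.id)).congr fun a => ?_
  unfold decF
  cases unbits (List (List ℕ)) (x a) <;> rfl

theorem upoly_kD (D : ℕ) {F : α → List (List ℕ)} (hF : NPC.Poly F) :
    UPoly (fun a => kD D (F a)) := by
  unfold kD
  exact UPoly.mul (UPoly.const D) (UPoly.add (upoly_mOf hF) (UPoly.const 1))

theorem poly_replicate_true {k : α → ℕ} (hk : UPoly k) :
    NPC.Poly (fun a => List.replicate (k a) true) :=
  (NPC.Poly.map (l := fun a => List.replicate (k a) ()) (F := fun _ _ => true) hk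
    (NPC.Poly.const true)).congr fun a => by simp

theorem poly_head {k : α → ℕ} {x : α → List Bool} (hk : UPoly k) (hx : NPC.Poly x) :
    NPC.Poly (fun a => head (k a) (x a)) := by
  unfold head
  exact NPC.Poly.append (poly_replicate_true hk) (NPC.Poly.cons (NPC.Poly.const false) hx)

theorem poly_fA (D : ℕ) : NPC.Poly (fA D) := by
  unfold fA
  have h : NPC.Poly (fun x : List Bool => decF x) := poly_decF NPC.Poly.id
  exact poly_head (upoly_kOf (upoly_kD D h) h) NPC.Poly.id

theorem poly_bits' {β : Type} [TEnc β] {f : α → β} (hf : NPC.Poly f) :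
    NPC.Poly (fun a => bits (f a)) := poly_bits.comp hf

theorem poly_fB (D : ℕ) : NPC.Poly (fB D) := by
  unfold fB
  have h0 : NPC.Poly (fun y : List Bool => unpair y) := poly_unpair
  have hr : NPC.Poly (fun y : List Bool => (unpair y).1) := NPC.Poly.fst h0
  have hx : NPC.Poly (fun y : List Bool => (unpair y).2) := NPC.Poly.snd h0
  have hF : NPC.Poly (fun y : List Bool => decF (unpair y).2) := poly_decF hx
  have hK : UPoly (fun y : List Bool => kD D (decF (unpair y).2)) := upoly_kD D hF
  refine NPC.Poly.ite (p := fun y : List Bool =>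
    ((unpair y).1.take (kD D (decF (unpair y).2))).any (fun b => b) = true) ?_ ?_ ?_
  · exact NPC.Poly.decide_bool (NPC.Poly.any (p := fun _ b => b) (poly_take hr hK.toPoly)
      (NPC.Poly.snd NPC.Poly.id))
  · exact NPC.Poly.cons (NPC.Poly.const true) (NPC.Poly.cons (NPC.Poly.const true)
      (poly_bits' (poly_outF hF (poly_main1 hK hF hr))))
  · refine NPC.Poly.cons (NPC.Poly.const false) (NPC.Poly.append
      (poly_replicate_true (upoly_mOf hF)) (NPC.Poly.cons (NPC.Poly.const false) ?_))
    exact poly_bits' (NPC.Poly.pair hK (NPC.Poly.pair hr hx))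

theorem poly_fE : NPC.Poly fE := by
  unfold fE
  have hz : NPC.Poly (fun z : List Unit × Zt => z.1) := NPC.Poly.fst NPC.Poly.id
  have hk : NPC.Poly (fun z : List Unit × Zt => z.2.1) := NPC.Poly.fst (NPC.Poly.snd NPC.Poly.id)
  have hr : NPC.Poly (fun z : List Unit × Zt => z.2.2.1) :=
    NPC.Poly.fst (NPC.Poly.snd (NPC.Poly.snd NPC.Poly.id))
  have hx : NPC.Poly (fun z : List Unit × Zt => z.2.2.2) :=
    NPC.Poly.snd (NPC.Poly.snd (NPC.Poly.snd NPC.Poly.id))
  have hF : NPC.Poly (fun z : List Unit × Zt => decF z.2.2.2) := poly_decF hx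
  have hK : UPoly (fun z : List Unit × Zt => z.2.1.length) := UPoly.length hk
  have hN : UPoly (fun z : List Unit × Zt => z.1.length) := UPoly.length hz
  have hm := upoly_mOf hF
  have hst : NPC.Poly (fun z : List Unit × Zt => allLg z.1.length (mOf (decF z.2.2.2))) :=
    poly_allLg hN hm
  have hus : NPC.Poly (fun z : List Unit × Zt =>
      allLg (8 * (mOf (decF z.2.2.2) * mOf (decF z.2.2.2)) + 8 * mOf (decF z.2.2.2) + 2)
        (2 * aOf (decF z.2.2.2) + 1)) :=
    poly_allLg (UPoly.add (UPoly.add (UPoly.mul (UPoly.const 8) (UPoly.mul hm hm))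
      (UPoly.mul (UPoly.const 8) hm)) (UPoly.const 2))
      (UPoly.add (UPoly.mul (UPoly.const 2) (upoly_aOf hF)) (UPoly.const 1))
  have h2 := poly_main2 hst hus hK hF hr
  have h3 : NPC.Poly (fun z : List Unit × Zt =>
      false :: head (kOf z.2.1.length (decF z.2.2.2)) z.2.2.2) :=
    NPC.Poly.cons (NPC.Poly.const false) (poly_head (upoly_kOf hK hF) hx)
  refine (NPC.Poly.optCases (h := fun z S => true :: bits (outF (decF z.2.2.2) S)) h2 h3
    ?_).congr ?_
  · refine NPC.Poly.cons (NPC.Poly.const true) (poly_bits' (poly_outF ?_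
      (NPC.Poly.snd NPC.Poly.id)))
    exact hF.comp (NPC.Poly.fst NPC.Poly.id)
  · intro z
    cases main2 (allLg z.1.length (mOf (decF z.2.2.2)))
      (allLg (8 * (mOf (decF z.2.2.2) * mOf (decF z.2.2.2)) + 8 * mOf (decF z.2.2.2) + 2)
      (2 * aOf (decF z.2.2.2) + 1)) z.2.1.length (decF z.2.2.2) z.2.2.1 <;> rfl

end

/-! ### the result of a round -/

/-- the output of one round, as left on the stack -/
def resF (D : ℕ) (F : List (List ℕ)) (r : List Bool) : List Bool :=
  match GO (kD D F) F r with
  | some y => true :: y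
  | none => false :: head (kOf (kD D F) F) (bits F)

theorem fB_common {D : ℕ} {F : List (List ℕ)} {r : List Bool}
    (h : (r.take (kD D F)).any (fun b => b) = true) :
    fB D (pairBits r (bits F)) = true :: resF D F r := by
  unfold fB resF GO GS
  rw [unpair_pairBits]
  simp only [decF_bits]
  rw [if_pos h, if_pos h]
  rfl

theorem fB_rare {D : ℕ} {F : List (List ℕ)} {r : List Bool}
    (h : ¬ (r.take (kD D F)).any (fun b => b) = true) :
    fB D (pairBits r (bits F)) = false :: (List.replicate (mOf F) true ++
      false :: bits ((List.replicate (kD D F) (), r, bits F) : Zt)) := by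
  unfold fB
  rw [unpair_pairBits]
  simp only [decF_bits]
  rw [if_neg h]

theorem fE_rare {D : ℕ} {F : List (List ℕ)} {r : List Bool}
    (h : ¬ (r.take (kD D F)).any (fun b => b) = true) :
    fE (List.replicate (2 ^ mOf F) (), (List.replicate (kD D F) (), r, bits F)) = resF D F r := by
  unfold fE resF GO GS
  simp only [decF_bits, List.length_replicate]
  rw [if_neg h, allLg_eq le_rfl, allLg_us]
  cases main2 (allL (mOf F)) (allL (2 * aOf F + 1)) (kD D F) F r <;> rfl

end Pool.Agent.E8helper91.Samp
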